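import Pool.Agent.Y716.M.ClassThm2
import Pool.Agent.Y77.M9.Fin
import Pool.Agent.Y455.M.Full

/-!
# The Hasse principle for random hypersurfaces in products of projective spaces
-/

namespace Pool.Agent.Y716.M

/-- For every rationally connected multidegree (some `d i ≤ n i`) the proportion of the everywhere
locally soluble hypersurfaces which have a rational point tends to one. -/
theorem main_all : ∀ (k : ℕ) (n d : Fin k → ℕ), 0 < k → (∀ i, 1 ≤ n i) → (∀ i, 1 ≤ d i) →
    (∃ i, d i < n i + 1) → Pool.Agent.Y455.M.T n d := by
  apply Pool.Agent.Y455.M.full_of_class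
  rintro r n d hr hd hn ⟨b, hnb, hdb⟩
  exact Pool.Agent.Y77.M9.main_ratio_M n d (by omega) hd hn
    (class_theoremM n d b hr hd hn hnb hdb)

end Pool.Agent.Y716.M
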