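import Pool.Agent.Y716.M.Data

/-!
# Weak approximation in products of projective spaces: definitions
-/

namespace Pool.Agent.Y716.M

open Pool.Agent.Y716.Q

variable {r : ℕ} {n : Fin r → ℕ}

/-- approximate zeros at all places, close to a target -/
def LocSolTM (N : ℕ) (c : Var n → ℤ) (ζ : Var n → ℝ) (δ : ℝ) (f : MvPolynomial (Var n) ℤ) :
    Prop :=
  (∀ p : ℕ, p.Prime → ∀ E : ℕ, ∃ x : Var n → ℤ, Norm1 x ∧
    (p : ℤ) ^ E ∣ MvPolynomial.eval x f ∧ ∀ a : ℕ, p ^ a ∣ N → ∀ i, (p : ℤ) ^ a ∣ x i - c i) ∧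
  ∃ ξ : Var n → ℝ, Norm1 ξ ∧ (∀ a, |ξ a| ≤ 1) ∧ (∀ a, |ξ a - ζ a| ≤ δ) ∧
    MvPolynomial.aeval ξ f = 0

/-- integral zeros, primitive in every block, close to a target -/
def SolTM (N : ℕ) (c : Var n → ℤ) (ζ : Var n → ℝ) (δ : ℝ) (f : MvPolynomial (Var n) ℤ) :
    Prop :=
  ∃ x : Var n → ℤ, (∀ i, Prim (bl x i)) ∧ MvPolynomial.eval x f = 0 ∧
    (∀ a, (N : ℤ) ∣ x a - c a) ∧
    ∃ Λ : Fin r → ℝ, (∀ i, 0 < Λ i) ∧ ∀ a, |(x a : ℝ) - Λ a.1 * ζ a| ≤ 2 * δ * Λ a.1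

open scoped Classical in
/-- Almost all forms with approximate zeros at all places near a target have an integral zero
near the target. -/
def ExcStmtM (n d : Fin r → ℕ) : Prop :=
  ∀ (N : ℕ), 1 ≤ N → ∀ (c : Var n → ℤ) (ζ : Var n → ℝ) (δ : ℝ), 0 < δ → ∀ ε : ℝ, 0 < ε →
    ∃ H₀ : ℝ, ∀ H : ℝ, H₀ ≤ H →
    (((formsM n d H).filter (fun f => LocSolTM N c ζ δ f ∧ ¬ SolTM N c ζ δ f)).card : ℝ) ≤
        ε * (formsM n d H).card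

/-- Weak approximation with precision `1 / m` at the real place and at the primes up to `m`. -/
def WeakApproxM (m : ℕ) (f : MvPolynomial (Var n) ℤ) : Prop :=
  ∀ (z : ∀ (p : ℕ) [Fact p.Prime], Var n → ℚ_[p]) (y : Var n → ℝ),
    (∀ (p : ℕ) [Fact p.Prime], (∀ i : Fin r, bl (z p) i ≠ 0) ∧
      MvPolynomial.aeval (z p) f = 0) →
    (∀ i : Fin r, bl y i ≠ 0) → MvPolynomial.aeval y f = 0 →
    ∃ x : Var n → ℚ, (∀ i : Fin r, bl x i ≠ 0) ∧ MvPolynomial.aeval x f = 0 ∧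
      (∀ (p : ℕ) [Fact p.Prime], p ≤ m → ∀ i : Fin r, ∃ c : ℚ_[p], c ≠ 0 ∧
        ∀ j, ‖z p ⟨i, j⟩ - c * (x ⟨i, j⟩ : ℚ_[p])‖ ≤ ‖bl (z p) i‖ / m) ∧
      ∀ i : Fin r, ∃ c : ℝ, c ≠ 0 ∧ ∀ j, |y ⟨i, j⟩ - c * (x ⟨i, j⟩ : ℝ)| ≤ ‖bl y i‖ / m

/-- points over the real numbers and over all the `p`-adic fields -/
def ElsB (f : MvPolynomial (Var n) ℤ) : Prop :=
  (∃ x : Var n → ℝ, (∀ i : Fin r, bl x i ≠ 0) ∧ MvPolynomial.aeval x f = 0) ∧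
    ∀ (p : ℕ) [Fact p.Prime], ∃ x : Var n → ℚ_[p], (∀ i : Fin r, bl x i ≠ 0) ∧
      MvPolynomial.aeval x f = 0

/-- Weak approximation for almost all everywhere locally soluble forms. -/
def WAStmtM (n d : Fin r → ℕ) : Prop :=
  ∃ m : ℕ → ℕ, Filter.Tendsto m Filter.atTop Filter.atTop ∧
    Filter.Tendsto (fun H : ℕ =>
      (({f : MvPolynomial (Var n) ℤ | ((∀ s ∈ f.support, ∀ i : Fin r,
          ∑ j : Fin (n i + 1), s ⟨i, j⟩ = d i) ∧ ∀ s, |f.coeff s| ≤ (H : ℤ)) ∧ ElsB f ∧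
          WeakApproxM (m H) f} : Set _).ncard : ℝ) /
      (({f : MvPolynomial (Var n) ℤ | ((∀ s ∈ f.support, ∀ i : Fin r,
          ∑ j : Fin (n i + 1), s ⟨i, j⟩ = d i) ∧ ∀ s, |f.coeff s| ≤ (H : ℤ)) ∧ ElsB f} :
          Set _).ncard : ℝ))
      Filter.atTop (nhds 1)

end Pool.Agent.Y716.M
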