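import Pool.Agent.Y716.M.Defs
import Pool.Agent.Y716.Q.Kernel
import Pool.Agent.Y716.Q.Count

/-!
# Closure properties of multihomogeneous forms and the one-point lemma
-/

namespace Pool.Agent.Y716.M

open Pool.Agent.Y716.Q

variable {r : ℕ} {n : Fin r → ℕ}

/-- lower the degree in one block -/
def dn (d : Fin r → ℕ) (i : Fin r) : Fin r → ℕ := fun l => if l = i then d l - 1 else d l

/-- total degree outside of the block `b` -/
def Ds (b : Fin r) (d : Fin r → ℕ) : ℕ := ∑ i ∈ Finset.univ.erase b, d i

theorem dn_self (d : Fin r → ℕ) (i : Fin r) : dn d i i = d i - 1 := by simp [dn]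

theorem dn_ne (d : Fin r → ℕ) {i l : Fin r} (h : l ≠ i) : dn d i l = d l := by simp [dn, h]

theorem sum_dn {d : Fin r → ℕ} {i : Fin r} (h : 0 < d i) : ∑ l, dn d i l + 1 = ∑ l, d l := by
  rw [← Finset.add_sum_erase _ _ (Finset.mem_univ i), ← Finset.add_sum_erase _ d (Finset.mem_univ i),
    dn_self]
  have : ∑ l ∈ Finset.univ.erase i, dn d i l = ∑ l ∈ Finset.univ.erase i, d l :=
    Finset.sum_congr rfl (fun l hl => dn_ne d (Finset.ne_of_mem_erase hl))
  rw [this]
  omega

theorem Ds_dn_self (b : Fin r) (d : Fin r → ℕ) : Ds b (dn d b) = Ds b d :=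
  Finset.sum_congr rfl (fun l hl => dn_ne d (Finset.ne_of_mem_erase hl))

theorem Ds_dn {b i : Fin r} {d : Fin r → ℕ} (hi : i ≠ b) (h : 0 < d i) :
    Ds b (dn d i) + 1 = Ds b d := by
  unfold Ds
  have hm : i ∈ Finset.univ.erase b := Finset.mem_erase.mpr ⟨hi, Finset.mem_univ _⟩
  rw [← Finset.add_sum_erase _ _ hm, ← Finset.add_sum_erase _ d hm, dn_self]
  have : ∑ l ∈ (Finset.univ.erase b).erase i, dn d i l =
      ∑ l ∈ (Finset.univ.erase b).erase i, d l :=
    Finset.sum_congr rfl (fun l hl => dn_ne d (Finset.ne_of_mem_erase hl))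
  rw [this]
  omega

theorem prod_dn {B : Fin r → ℝ} {d : Fin r → ℕ} {i : Fin r} (h : 0 < d i) :
    B i * ∏ l, B l ^ dn d i l = ∏ l, B l ^ d l := by
  rw [← Finset.mul_prod_erase _ _ (Finset.mem_univ i),
    ← Finset.mul_prod_erase _ (fun l => B l ^ d l) (Finset.mem_univ i), dn_self]
  have : ∏ l ∈ Finset.univ.erase i, B l ^ dn d i l = ∏ l ∈ Finset.univ.erase i, B l ^ d l :=
    Finset.prod_congr rfl (fun l hl => by rw [dn_ne d (Finset.ne_of_mem_erase hl)])
  rw [this, ← mul_assoc, ← pow_succ']
  congr 2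
  omega

theorem prod_pow_ge {B : Fin r → ℝ} {L : ℝ} {b : Fin r} (hB : ∀ i, 1 ≤ B i)
    (hBL : ∀ i, i ≠ b → B i = L) (d : Fin r → ℕ) : L ^ Ds b d * B b ^ d b = ∏ l, B l ^ d l := by
  rw [← Finset.mul_prod_erase _ _ (Finset.mem_univ b), mul_comm]
  congr 1
  unfold Ds
  rw [← Finset.prod_pow_eq_pow_sum]
  exact Finset.prod_congr rfl (fun l hl => by rw [hBL l (Finset.ne_of_mem_erase hl)])

namespace IsM

theorem zero {d : Fin r → ℕ} {R : ℝ} (hR : 0 ≤ R) : IsM d R (0 : MvPolynomial (Var n) ℤ) := by
  refine ⟨fun s hs => by simp at hs, fun m => ?_⟩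
  simpa using hR

theorem add {d : Fin r → ℕ} {R R' : ℝ} {f g : MvPolynomial (Var n) ℤ} (hf : IsM d R f)
    (hg : IsM d R' g) : IsM d (R + R') (f + g) := by
  classical
  refine ⟨fun s hs => ?_, fun m => ?_⟩
  · rcases Finset.mem_union.mp (MvPolynomial.support_add hs) with h | h
    · exact hf.1 s h
    · exact hg.1 s h
  · rw [MvPolynomial.coeff_add]
    push_cast
    exact (abs_add_le _ _).trans (add_le_add (hf.2 m) (hg.2 m))

theorem neg {d : Fin r → ℕ} {R : ℝ} {f : MvPolynomial (Var n) ℤ} (hf : IsM d R f) :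
    IsM d R (-f) := by
  refine ⟨fun s hs => ?_, fun m => ?_⟩
  · rw [MvPolynomial.support_neg] at hs
    exact hf.1 s hs
  · rw [MvPolynomial.coeff_neg]
    push_cast
    rw [abs_neg]
    exact hf.2 m

theorem sub {d : Fin r → ℕ} {R R' : ℝ} {f g : MvPolynomial (Var n) ℤ} (hf : IsM d R f)
    (hg : IsM d R' g) : IsM d (R + R') (f - g) := by
  rw [sub_eq_add_neg]
  exact hf.add hg.neg

theorem mono {d : Fin r → ℕ} {R R' : ℝ} {f : MvPolynomial (Var n) ℤ} (hf : IsM d R f)
    (h : R ≤ R') : IsM d R' f := ⟨hf.1, fun m => (hf.2 m).trans h⟩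

theorem nonneg {d : Fin r → ℕ} {R : ℝ} {f : MvPolynomial (Var n) ℤ} (hf : IsM d R f) : 0 ≤ R :=
  (abs_nonneg _).trans (hf.2 0)

theorem sum {κ : Type*} {d : Fin r → ℕ} (s : Finset κ) (f : κ → MvPolynomial (Var n) ℤ)
    (R : κ → ℝ) (hf : ∀ i ∈ s, IsM d (R i) (f i)) : IsM d (∑ i ∈ s, R i) (∑ i ∈ s, f i) := by
  classical
  induction s using Finset.induction_on with
  | empty => simpa using zero le_rfl
  | insert a s ha ih =>
    rw [Finset.sum_insert ha, Finset.sum_insert ha]
    exact (hf a (Finset.mem_insert_self a s)).add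
      (ih (fun i hi => hf i (Finset.mem_insert_of_mem hi)))

theorem C_mul {d : Fin r → ℕ} {R : ℝ} {f : MvPolynomial (Var n) ℤ} (c : ℤ) (hf : IsM d R f) :
    IsM d (|(c : ℝ)| * R) (MvPolynomial.C c * f) := by
  refine ⟨fun s hs => ?_, fun m => ?_⟩
  · rw [MvPolynomial.mem_support_iff, MvPolynomial.coeff_C_mul] at hs
    exact hf.1 s (MvPolynomial.mem_support_iff.mpr (right_ne_zero_of_mul hs))
  · rw [MvPolynomial.coeff_C_mul]
    push_cast
    rw [abs_mul]
    exact mul_le_mul_of_nonneg_left (hf.2 m) (abs_nonneg _)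

theorem mul_X {d : Fin r → ℕ} {R : ℝ} {f : MvPolynomial (Var n) ℤ} {i : Fin r} (hd : 0 < d i)
    (hf : IsM (dn d i) R f) (j : Fin (n i + 1)) : IsM d R (f * MvPolynomial.X ⟨i, j⟩) := by
  classical
  refine ⟨fun s hs l => ?_, fun m => ?_⟩
  · rw [MvPolynomial.mem_support_iff, MvPolynomial.coeff_mul_X'] at hs
    by_cases h : (⟨i, j⟩ : Var n) ∈ s.support
    · rw [if_pos h] at hs
      have h1 := hf.1 _ (MvPolynomial.mem_support_iff.mpr hs) l
      have h2 : 1 ≤ s ⟨i, j⟩ := Nat.one_le_iff_ne_zero.mpr (Finsupp.mem_support_iff.mp h)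
      simp only [Finsupp.coe_tsub, Pi.sub_apply] at h1
      by_cases hl : l = i
      · subst hl
        rw [dn_self] at h1
        rw [← Finset.add_sum_erase _ _ (Finset.mem_univ j)] at h1 ⊢
        have h3 : ∑ x ∈ Finset.univ.erase j, (s ⟨l, x⟩ - (Finsupp.single (⟨l, j⟩ : Var n) 1) ⟨l, x⟩) =
            ∑ x ∈ Finset.univ.erase j, s ⟨l, x⟩ := by
          refine Finset.sum_congr rfl (fun x hx => ?_)
          rw [Finsupp.single_apply, if_neg, Nat.sub_zero]
          intro h4
          have h5 : j = x := by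
            have := (Sigma.mk.inj_iff.mp h4).2
            exact eq_of_heq this
          exact Finset.ne_of_mem_erase hx h5.symm
        rw [h3, Finsupp.single_eq_same] at h1
        omega
      · rw [dn_ne d hl] at h1
        rw [← h1]
        refine Finset.sum_congr rfl (fun x _ => ?_)
        rw [Finsupp.single_apply, if_neg, Nat.sub_zero]
        intro h4
        exact hl (Sigma.mk.inj_iff.mp h4).1.symm
    · rw [if_neg h] at hs
      exact absurd rfl hs
  · rw [MvPolynomial.coeff_mul_X']
    split_ifs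
    · exact hf.2 _
    · simpa using hf.nonneg

end IsM

/-- linear form in the variables of one block -/
noncomputable def linb (i : Fin r) (l : Fin (n i + 1) → ℤ) : MvPolynomial (Var n) ℤ :=
  ∑ j, MvPolynomial.C (l j) * MvPolynomial.X ⟨i, j⟩

theorem eval_linb (i : Fin r) (l : Fin (n i + 1) → ℤ) (z : Var n → ℤ) :
    MvPolynomial.eval z (linb i l) = ∑ j, l j * bl z i j := by
  simp [linb, map_sum, bl]

theorem card_block_le (i : Fin r) : n i + 1 ≤ Fintype.card (Var n) := by
  have h : Fintype.card (Fin (n i + 1)) ≤ Fintype.card (Var n) :=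
    Fintype.card_le_of_injective (fun j => (⟨i, j⟩ : Var n)) (fun j j' h => by
      simpa using h)
  simpa using h

theorem linb_mul_isM {d : Fin r → ℕ} {a R : ℝ} {i : Fin r} {l : Fin (n i + 1) → ℤ}
    (hd : 0 < d i) (h : ∀ j, |(l j : ℝ)| ≤ a) (ha : 0 ≤ a)
    {f : MvPolynomial (Var n) ℤ} (hf : IsM (dn d i) R f) :
    IsM d (Fintype.card (Var n) * (a * R)) (linb i l * f) := by
  have h1 : linb i l * f = ∑ j, MvPolynomial.C (l j) * (f * MvPolynomial.X ⟨i, j⟩) := by
    unfold linb
    rw [Finset.sum_mul]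
    refine Finset.sum_congr rfl (fun j _ => ?_)
    ring
  rw [h1]
  have h3 : ∀ j : Fin (n i + 1),
      IsM d (a * R) (MvPolynomial.C (l j) * (f * MvPolynomial.X ⟨i, j⟩)) := by
    intro j
    have h4 := (hf.mul_X hd j).C_mul (l j)
    exact h4.mono (mul_le_mul_of_nonneg_right (h j) hf.nonneg)
  have h2 := IsM.sum Finset.univ _ _ (fun j (_ : j ∈ Finset.univ) => h3 j)
  rw [Finset.sum_const, Finset.card_univ, nsmul_eq_mul, Fintype.card_fin] at h2
  refine h2.mono ?_
  apply mul_le_mul_of_nonneg_right _ (mul_nonneg ha hf.nonneg)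
  exact_mod_cast card_block_le i

/-- forms of multidegree zero -/
theorem const_isM (c : ℤ) {d : Fin r → ℕ} (hd : ∀ i, d i = 0) :
    IsM (n := n) d |(c : ℝ)| (MvPolynomial.C c) := by
  classical
  refine ⟨fun s hs i => ?_, fun s => ?_⟩
  · rw [MvPolynomial.mem_support_iff, MvPolynomial.coeff_C] at hs
    have : (0 : Var n →₀ ℕ) = s := by
      by_contra h
      rw [if_neg h] at hs
      exact hs rfl
    rw [← this, hd i]
    simp
  · rw [MvPolynomial.coeff_C]
    split_ifs
    · exact le_rfl
    · simp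

/-- One-point lemma. -/
theorem onepointM {b : Fin r} {B av : Fin r → ℝ} {L : ℝ} {z : Var n → ℤ}
    (hsz : ∀ i, Sz (B i) (bl z i)) (hbal : ∀ i, Bal (B i) (av i) (bl z i)) (hB : ∀ i, 1 ≤ B i)
    (hBL : ∀ i, i ≠ b → B i = L) (D : ℕ) :
    ∀ (d : Fin r → ℕ), ∑ i, d i = D + 1 → ∀ (U : ℝ), (∀ i, i ≠ b → av i ≤ U) → 1 ≤ U →
    (0 < d b → av b ≤ U * L ^ Ds b d) → ∀ (u : ℤ), |(u : ℝ)| ≤ U * ∏ l, B l ^ d l →
    ∃ f : MvPolynomial (Var n) ℤ, IsM d (c1pt (Fintype.card (Var n)) D * U) f ∧
      MvPolynomial.eval z f = u := by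
  induction D with
  | zero =>
    intro d hd U hU hU1 hbU u hu
    obtain ⟨i, hi⟩ : ∃ i, 0 < d i := by
      by_contra hcon
      push Not at hcon
      have : ∑ i, d i = 0 := Finset.sum_eq_zero (fun i _ => by have := hcon i; omega)
      omega
    have hz : ∀ l, dn d i l = 0 := by
      intro l
      have h1 := sum_dn hi
      have h2 : ∑ l, dn d i l = 0 := by omega
      exact (Finset.sum_eq_zero_iff.mp h2) l (Finset.mem_univ l)
    have hprod : ∏ l, B l ^ d l = B i := by
      rw [← prod_dn hi]
      simp [hz]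
    rw [hprod] at hu
    have hav : av i ≤ U := by
      by_cases hib : i = b
      · subst hib
        have h0 : Ds i d = 0 := by
          rw [← Ds_dn_self]
          exact Finset.sum_eq_zero (fun l _ => hz l)
        have := hbU hi
        rwa [h0, pow_zero, mul_one] at this
      · exact hU i hib
    obtain ⟨l, hl, hl2⟩ := (hbal i).lin_onto (hsz i) (hB i) hav hU1 u hu
    refine ⟨linb i l * MvPolynomial.C 1, ?_, ?_⟩
    · have h1 : linb i l * MvPolynomial.C 1 = ∑ j, MvPolynomial.C (l j) *
          (MvPolynomial.C 1 * MvPolynomial.X ⟨i, j⟩) := by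
        unfold linb
        rw [Finset.sum_mul]
        refine Finset.sum_congr rfl (fun j _ => ?_)
        ring
      refine ⟨?_, ?_⟩
      · rw [h1]
        have h3 : ∀ j : Fin (n i + 1), IsM d (|(l j : ℝ)| * |((1:ℤ) : ℝ)|)
            (MvPolynomial.C (l j) * (MvPolynomial.C (1:ℤ) * MvPolynomial.X ⟨i, j⟩)) := by
          intro j
          exact ((const_isM (n := n) 1 hz).mul_X hi j).C_mul (l j)
        exact (IsM.sum Finset.univ _ _ (fun j (_ : j ∈ Finset.univ) => h3 j)).1
      · intro s
        rw [map_one, mul_one]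
        unfold linb
        rw [MvPolynomial.coeff_sum]
        simp only [MvPolynomial.coeff_C_mul, MvPolynomial.coeff_X', mul_ite, mul_one, mul_zero]
        have hc : c1pt (Fintype.card (Var n)) 0 * U = 6 * U := by simp [c1pt]
        rw [hc]
        by_cases hm : ∃ j, Finsupp.single (⟨i, j⟩ : Var n) 1 = s
        · obtain ⟨j, hj⟩ := hm
          rw [Finset.sum_eq_single j]
          · rw [if_pos hj]; exact hl j
          · intro j' _ hj'
            rw [if_neg]
            intro h'
            apply hj'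
            rw [← hj] at h'
            have h3 := Finsupp.single_left_injective one_ne_zero h'
            simpa using h3
          · intro h'; exact absurd (Finset.mem_univ _) h'
        · push Not at hm
          rw [Finset.sum_eq_zero (fun j _ => if_neg (hm j))]
          simp only [Int.cast_zero, abs_zero]
          linarith
    · rw [map_mul, eval_linb, MvPolynomial.eval_C, mul_one, hl2]
  | succ D ih =>
    intro d hd U hU hU1 hbU u hu
    -- choose the block
    obtain ⟨i, hi, hib⟩ : ∃ i, 0 < d i ∧ (i ≠ b → d b = 0) := by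
      by_cases h0 : 0 < d b
      · exact ⟨b, h0, fun h => absurd rfl h⟩
      · have : ∃ i, 0 < d i := by
          by_contra hcon
          push Not at hcon
          have : ∑ i, d i = 0 := Finset.sum_eq_zero (fun i _ => by have := hcon i; omega)
          omega
        obtain ⟨i, hi⟩ := this
        exact ⟨i, hi, fun _ => by omega⟩
    have hsum := sum_dn hi
    have hP1 : 1 ≤ ∏ l, B l ^ dn d i l := by
      have : ∀ s : Finset (Fin r), 1 ≤ ∏ l ∈ s, B l ^ dn d i l := by
        intro s
        induction s using Finset.induction_on with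
        | empty => simp
        | insert c s hc ih =>
          rw [Finset.prod_insert hc]
          exact one_le_mul_of_one_le_of_one_le (one_le_pow₀ (hB c)) ih
      exact this _
    have hav : av i ≤ U * ∏ l, B l ^ dn d i l := by
      by_cases h : i = b
      · subst h
        refine (hbU hi).trans ?_
        apply mul_le_mul_of_nonneg_left _ (by linarith)
        rw [← prod_pow_ge (b := i) hB hBL, Ds_dn_self]
        refine le_mul_of_one_le_right ?_ (one_le_pow₀ (hB i))
        by_cases hne : ∃ j, j ≠ i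
        · obtain ⟨j, hj⟩ := hne
          have : 1 ≤ L := by rw [← hBL j hj]; exact hB j
          positivity
        · push Not at hne
          have : Ds i d = 0 := by
            unfold Ds
            apply Finset.sum_eq_zero
            intro l hl
            exact absurd (hne l) (Finset.ne_of_mem_erase hl)
          rw [this, pow_zero]; norm_num
      · exact (hU i h).trans (le_mul_of_one_le_right (by linarith) hP1)
    obtain ⟨l, hl, hl2⟩ := (hbal i).lin_onto (hsz i) (hB i) hav
      (one_le_mul_of_one_le_of_one_le hU1 hP1) u (by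
        have h1 := prod_dn (B := B) hi
        have h2 : U * (∏ l, B l ^ dn d i l) * B i = U * ∏ l, B l ^ d l := by rw [← h1]; ring
        rw [h2]; exact hu)
    have hf : ∀ j, ∃ f : MvPolynomial (Var n) ℤ,
        IsM (dn d i) (c1pt (Fintype.card (Var n)) D * (6 * U)) f ∧ MvPolynomial.eval z f = l j := by
      intro j
      apply ih (dn d i) (by omega) (6 * U) (fun i' hi' => (hU i' hi').trans (by linarith))
        (by linarith) _ (l j) (by have := hl j; linarith)
      intro h1
      by_cases h : i = b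
      · subst h
        rw [Ds_dn_self]
        have h2 := hbU hi
        have h3 : 0 ≤ U * L ^ Ds i d := by
          by_cases hne : ∃ j, j ≠ i
          · obtain ⟨j, hj⟩ := hne
            have : 1 ≤ L := by rw [← hBL j hj]; exact hB j
            positivity
          · push Not at hne
            have : Ds i d = 0 := by
              unfold Ds
              apply Finset.sum_eq_zero
              intro l hl
              exact absurd (hne l) (Finset.ne_of_mem_erase hl)
            rw [this, pow_zero]; linarith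
        have h4 : 6 * U * L ^ Ds i d = 6 * (U * L ^ Ds i d) := by ring
        rw [h4]; linarith
      · exfalso
        rw [dn_ne d (fun h' => h h'.symm), hib h] at h1
        exact absurd h1 (lt_irrefl 0)
    choose f hf1 hf2 using hf
    refine ⟨∑ j, f j * MvPolynomial.X ⟨i, j⟩, ?_, ?_⟩
    · have h5 : ∀ j : Fin (n i + 1), IsM d (c1pt (Fintype.card (Var n)) D * (6 * U))
          (f j * MvPolynomial.X ⟨i, j⟩) := fun j => (hf1 j).mul_X hi j
      have h2 := IsM.sum Finset.univ _ _ (fun j (_ : j ∈ Finset.univ) => h5 j)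
      rw [Finset.sum_const, Finset.card_univ, nsmul_eq_mul, Fintype.card_fin] at h2
      refine h2.mono ?_
      have h3 : ((n i + 1 : ℕ) : ℝ) ≤ (Fintype.card (Var n) : ℝ) := by
        exact_mod_cast card_block_le i
      have h4 : 0 ≤ c1pt (Fintype.card (Var n)) D * (6 * U) :=
        mul_nonneg (c1pt_nonneg _ _) (by linarith)
      refine (mul_le_mul_of_nonneg_right h3 h4).trans (le_of_eq ?_)
      unfold c1pt; ring
    · rw [map_sum, ← hl2]
      refine Finset.sum_congr rfl (fun j _ => ?_)
      rw [map_mul, hf2, MvPolynomial.eval_X]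
      rfl

/-- Primitive vectors are balanced with a trivial constant. -/
theorem prim_bal {ι : Type*} [Fintype ι] {s : ι → ℤ} {L : ℝ} (hL : 1 ≤ L) (hp : Prim s)
    (hs : Sz L s) : Bal L (4 * Fintype.card ι * L) s := by
  classical
  obtain ⟨q, hq⟩ := hs.2
  have hq' : 0 < |(s q : ℝ)| := lt_of_lt_of_le (by linarith) hq
  have hq0 : s q ≠ 0 := by
    intro h; rw [h] at hq'; simp at hq'
  have hk1 : (1:ℝ) ≤ Fintype.card ι := by
    have : 0 < Fintype.card ι := Fintype.card_pos_iff.mpr ⟨q⟩
    exact_mod_cast this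
  obtain ⟨w, hw⟩ := hp.bezout
  intro u hu
  have hsplit : ∑ j ∈ Finset.univ.erase q, (u * w j) * s j + (u * w q) * s q = u := by
    rw [Finset.sum_erase_add _ _ (Finset.mem_univ q)]
    calc ∑ j, (u * w j) * s j = u * ∑ j, w j * s j := by
          rw [Finset.mul_sum]; exact Finset.sum_congr rfl (fun j _ => by ring)
      _ = u := by rw [hw, mul_one]
  set cq : ℤ := u * w q + ∑ j ∈ Finset.univ.erase q, ((u * w j) / s q) * s j with hcq
  have hcq2 : ∑ j ∈ Finset.univ.erase q, ((u * w j) % s q) * s j + cq * s q = u := by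
    rw [hcq, add_mul, Finset.sum_mul]
    have h1 : ∑ j ∈ Finset.univ.erase q, (u * w j) * s j =
        ∑ j ∈ Finset.univ.erase q, ((u * w j) % s q) * s j +
        ∑ j ∈ Finset.univ.erase q, ((u * w j) / s q) * s j * s q := by
      rw [← Finset.sum_add_distrib]
      refine Finset.sum_congr rfl (fun j _ => ?_)
      have := Int.mul_ediv_add_emod (u * w j) (s q)
      linear_combination (-(s j)) * this
    linarith
  refine ⟨fun j => if j = q then cq else (u * w j) % s q, ?_, ?_⟩
  · intro j
    have hmod : ∀ j, |(((u * w j) % s q : ℤ) : ℝ)| ≤ L := by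
      intro j
      have h2 := Int.emod_nonneg (u * w j) hq0
      have h3 := Int.emod_lt_abs (u * w j) hq0
      have h6 : |(((u * w j) % s q : ℤ) : ℝ)| ≤ |(s q : ℝ)| := by
        have : |(u * w j) % s q| ≤ |s q| := by rw [abs_of_nonneg h2]; exact h3.le
        exact_mod_cast this
      exact h6.trans (hs.1 q)
    simp only
    split_ifs with h
    · have h4 : |(cq : ℝ)| * |(s q : ℝ)| ≤ L + (Fintype.card ι - 1) * (L * L) := by
        have h5 : (cq : ℝ) * (s q : ℝ) = (u : ℝ) -
            ∑ j ∈ Finset.univ.erase q, (((u * w j) % s q : ℤ) : ℝ) * (s j : ℝ) := by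
          have : ((∑ j ∈ Finset.univ.erase q, ((u * w j) % s q) * s j + cq * s q : ℤ) : ℝ) =
            (u : ℝ) := by exact_mod_cast hcq2
          push_cast at this ⊢
          linarith
        rw [← abs_mul, h5]
        refine (abs_sub _ _).trans (add_le_add hu ?_)
        refine (Finset.abs_sum_le_sum_abs _ _).trans ?_
        have h6 : ∑ j ∈ Finset.univ.erase q, |(((u * w j) % s q : ℤ) : ℝ) * (s j : ℝ)| ≤
            ∑ _j ∈ Finset.univ.erase q, L * L := by
          refine Finset.sum_le_sum (fun j _ => ?_)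
          rw [abs_mul]
          exact mul_le_mul (hmod j) (hs.1 j) (abs_nonneg _) (by linarith)
        rw [Finset.sum_const, Finset.card_erase_of_mem (Finset.mem_univ _), Finset.card_univ,
          nsmul_eq_mul, Nat.cast_sub (Fintype.card_pos_iff.mpr ⟨q⟩), Nat.cast_one] at h6
        exact h6
      have h7 : |(cq : ℝ)| * (L / 4) ≤ L + (Fintype.card ι - 1) * (L * L) :=
        (mul_le_mul_of_nonneg_left hq (abs_nonneg _)).trans h4
      have h8 : |(cq : ℝ)| * (L / 4) ≤ (4 * Fintype.card ι * L) * (L / 4) := by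
        refine h7.trans ?_
        have h9 : L ≤ L * L := by nlinarith
        nlinarith
      exact le_of_mul_le_mul_right h8 (by linarith)
    · refine (hmod j).trans ?_
      nlinarith
  · simp only [ite_mul]
    rw [← Finset.sum_erase_add _ _ (Finset.mem_univ q)]
    simp only [if_true]
    refine Eq.trans ?_ hcq2
    congr 1
    refine Finset.sum_congr rfl (fun j hj => ?_)
    rw [if_neg (Finset.ne_of_mem_erase hj)]

end Pool.Agent.Y716.M
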