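import Pool.Agent.Y716.M.Pars

/-!
# The class theorem, several blocks
-/

namespace Pool.Agent.Y716.M

open Pool.Agent.Y716.Q Pool.Agent.Y510.M6 Pool.Agent.Y804.MC Filter

variable {r : ℕ}

open scoped Classical in
/-- The class theorem for all the forms of the class of `fc` for a given value of the parameter
`Y`. -/
theorem class_Y {n d : Fin r → ℕ} {b i₁ : Fin r} (hi₁ : i₁ ≠ b) (hr1 : 1 ≤ r) (hd : ∀ i, 2 ≤ d i)
    (hn : ∀ i, 1 ≤ n i) (hnb : 2 ≤ n b) (hdb : d b ≤ n b)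
    {De : ℕ} (hDe : ∑ i, d i = De + 2) {N₀ M D' : ℕ} (hN₀ : Fintype.card (Var n) = N₀)
    (hN₀r : r + 3 ≤ N₀) (hM : (monsM n d).card = M) (hD' : Ds b d = D')
    {c c' Ct Cu : ℝ} (hc : c1pt N₀ (De + 1) = c) (hc' : C2 N₀ De = c') (hc0 : 0 < c)
    (hc'0 : 0 < c')
    (hCt0 : 0 < Ct) (hCt : SMM n d b De Ct) (hCu0 : 0 < Cu) (hCu : UB (Fin (n b + 1)) Cu)
    {ε τ τ₂ δ cX cX₂ c₀ : ℝ} (hε : 0 < ε)
    (hτ0 : 0 < τ) (hτ1 : τ ≤ 1 / 2) (hb1 : 1 / 2 ≤ (1 - τ) / (1 + τ) * bfun N₀ τ)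
    (hb0 : 0 < bfun N₀ τ) (hτF : (1 + τ) ^ (2 * N₀ + 1) / (1 - τ) ^ 4 * (1 + τ) ≤
      (1 + ε / 2) * ((1 - τ) / (1 + τ) * bfun N₀ τ) ^ 2)
    {w W : ℕ} (hw1 : 1 ≤ w) (hwτ : (r : ℝ) / (w : ℝ) ≤ τ)
    (hWdef : W = ∏ p ∈ (Finset.range (w + 1)).filter Nat.Prime, p)
    (hτ₂0 : 0 < τ₂) (hτ₂1 : τ₂ ≤ 1 / 4) (hτ₂2 : (1 + 2 * τ₂) ^ M ≤ 1 + τ)
    (hτ₂3 : 1 - τ ≤ (1 - 2 * τ₂) ^ M)
    {c₆ c₇ c₉ : ℝ} (hc₆ : c + c' * (1 + M * c) = c₆)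
    {l x ru : ℕ} (hl : l = 11 * W + 30) (hx : l * D' = x) (hru : ru = 3 * x + 8)
    (hc₇ : 8 * (N₀:ℝ) + ru = c₇) (hc₉ : 16 * (N₀:ℝ) + ru + 3 * ru * c₇ = c₉)
    (hδ : c₆ * δ = τ₂ / 4) (hδ0 : 0 < δ) (hδ1 : δ ≤ 1) (hcX0 : 0 < cX) (hcX₂0 : 0 < cX₂)
    (hc₀0 : 0 < c₀) {N' : ℕ} (hN'1 : 1 ≤ N') (hN' : r * 6 ^ N₀ / (τ * (2 * δ * c₀)) ≤ (N' : ℝ))
    {cU : ℝ} (hcU : cU * 6 ^ N₀ = τ * (2 * δ * c₀)) (hcU0 : 0 < cU)
    {Y : ℝ} (y1 : 2 ≤ Y) (y2 : 2 * ((n b + 1 : ℕ):ℝ) * ru + 3 ≤ Y)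
    (y3 : 30 * (N₀:ℝ) ^ 2 * ru * Y ^ (3 * x + 6) < Real.exp Y)
    (y4 : 4 * (c₆ * c₇ + c' * c₉) / τ₂ ≤ Y)
    (y5 : 1 + (ru:ℝ) ^ 2 * (2 + (2 * x + 2 : ℕ)) ≤ Y)
    (y6 : (N' : ℝ) / (τ * cX) ≤ Y) (y7 : 2 * (N' : ℝ) / (τ * cX₂) ≤ Y)
    (y8 : Cu * 4 ^ (n b + 1) * (3 + (x - 1 : ℕ)) / cU ≤ Y)
    (y9 : 64 * Ct * 4 ^ M * (6 ^ N₀) ^ 2 / (ε * c₀ ^ 2) ≤ Y) (y10 : 1 + 1 / τ₂ ≤ Y)
    (y11 : 1 / (τ * δ) ≤ Y) (y12 : 16 * Ct * 3 ^ M * 6 ^ N₀ / (ε * c₀ ^ 2) ≤ Y)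
    {fc : MvPolynomial (Var n) ℤ} {S J : ℕ} {xc v : Var n → ℤ} {ξ : Var n → ℝ} {a₀ : Var n}
    {ρ ρ' σ g₀ Q₀ Cg η H A : ℝ}
    (hP : PDataM w fc S J xc v) (hρ0 : 0 < ρ) (hρρ' : ρ ≤ ρ') (hρ'2 : ρ' ≤ 1 / 2)
    (hξ : ∀ a, |ξ a| ≤ 1) (hξr : Norm1 ξ) (hσ : |σ| = 1)
    (hg₀0 : 0 < g₀) (hgcd : g₀ ≤ Cg * H) (hCg0 : 0 < Cg) (hH0 : 0 < H) (hη0 : 0 < η)
    (hη : η = ρ / 2)
    (hSQ : (S : ℝ) ≤ Q₀) (hAq : ((S * J : ℕ) : ℝ) * A = η * H)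
    (hYA : Y ^ (x + 2 * l) = A)
    (hcX : cX = 2 * ρ / Q₀) (hcX₂ : cX₂ = 2 * δ * η / (Cg * Q₀))
    (hc₀ : c₀ = cX ^ (N₀ - 1) * (η / (Cg * Q₀)))
    (hslope : ∀ h : MvPolynomial (Var n) ℤ, IsM d (ρ * H) h →
      SlopeM σ ((1 - τ) * (g₀ * ((∏ i, Lam b Y l x i ^ d i) / Lam b Y l x a₀.1)))
        ((1 + τ) * (g₀ * ((∏ i, Lam b Y l x i ^ d i) / Lam b Y l x a₀.1)))
        (ρ * H * ∏ i, Lam b Y l x i ^ d i) (Lam b Y l x) ξ a₀ ρ ρ' (fc + h)) :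
    ∃ a : ℝ, (((formsM n d A).filter (fun g =>
      ¬ ZeroInM (testM b a (Lam b Y l x) ξ a₀ ρ ρ' S xc) (mem' fc S J g))).card : ℝ) ≤
      ε * (formsM n d A).card := by
  have hY0 : 0 < Y := by linarith
  have hY1 : 1 ≤ Y := by linarith
  have hD'2 : 2 ≤ D' := by
    rw [← hD']; unfold Ds
    exact (hd i₁).trans (Finset.single_le_sum (f := d) (fun i _ => Nat.zero_le _)
      (Finset.mem_erase.mpr ⟨hi₁, Finset.mem_univ _⟩))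
  have hl30 : 30 ≤ l := by omega
  have hlx : 2 * l ≤ x := by
    rw [← hx, mul_comm 2 l]; exact Nat.mul_le_mul_left _ hD'2
  -- the auxiliary parameters
  obtain ⟨T, hT1, hT2⟩ := exists_T y1
  have hKb := K_bound (T := T) (W := W) y1 hT2
  obtain ⟨K, hK⟩ : ∃ K : ℕ, W ^ T = K := ⟨_, rfl⟩
  rw [hK] at hKb
  have hKl : ((K * 2 ^ T : ℕ) : ℝ) ≤ Y ^ (l - 19) := by
    rw [show l - 19 = 11 * W + 11 by omega]; exact hKb
  have hW0 : 0 < W := by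
    rw [hWdef]
    apply Finset.prod_pos
    intro p hp
    exact (Finset.mem_filter.mp hp).2.pos
  have hK0 : 0 < K := by rw [← hK]; exact pow_pos hW0 T
  obtain ⟨m, hm⟩ : ∃ m : ℕ, m = ⌊Y ^ (x + 4)⌋₊ := ⟨_, rfl⟩
  obtain ⟨hm1, hm2, hm3⟩ := m_boundsM y1 (x + 4) (by omega)
  rw [← hm] at hm1 hm2 hm3
  obtain ⟨a, ha⟩ : ∃ a : ℝ, ((ru : ℕ) : ℝ) * (m : ℝ) = a := ⟨_, rfl⟩
  refine ⟨a, ?_⟩
  have hmr : (1:ℝ) ≤ m := by exact_mod_cast hm3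
  have hrur : (1:ℝ) ≤ ru := by
    have : 1 ≤ ru := by omega
    exact_mod_cast this
  have ha1 : 1 ≤ a := by rw [← ha]; exact one_le_mul_of_one_le_of_one_le hrur hmr
  have hruY : (ru : ℝ) ≤ Y := by
    have h1 : (1:ℝ) ≤ ((n b + 1 : ℕ):ℝ) := by
      have : 1 ≤ n b + 1 := by omega
      exact_mod_cast this
    have h2 : (ru:ℝ) ≤ ((n b + 1 : ℕ):ℝ) * ru := le_mul_of_one_le_left (by linarith) h1
    linarith
  have haY : a ≤ ru * Y ^ (x + 4) := by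
    rw [← ha]; exact mul_le_mul_of_nonneg_left hm1 (by linarith)
  have haB : a ≤ 2 * Y ^ (2 * x + 2) := by
    have h1 : ru * Y ^ (x + 4) ≤ Y * Y ^ (x + 4) := mul_le_mul_of_nonneg_right hruY (by positivity)
    have h2 : Y * Y ^ (x + 4) ≤ Y ^ (2 * x + 2) := by
      rw [← pow_succ']; exact pow_le_pow_right₀ hY1 (by omega)
    have h3 : 0 < Y ^ (2 * x + 2) := by positivity
    linarith
  obtain ⟨Λ, hΛ⟩ : ∃ Λ, Lam b Y l x = Λ := ⟨_, rfl⟩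
  have hΛ1 : ∀ i, 1 ≤ Λ i := by rw [← hΛ]; exact Lam_one hY1 l x
  have hΛl : ∀ i, Y ^ l ≤ Λ i := by rw [← hΛ]; exact Lam_ge hY1 (by omega)
  have hΛb : Λ b = Y ^ (2 * x + 2) := by rw [← hΛ]; exact Lam_b b Y l x
  have hΛ0 : ∀ i, 0 < Λ i := fun i => by have := hΛ1 i; linarith
  have hs : Scl b d (fun i => 2 * Λ i) (2 * Y ^ l) a := by
    rw [← hΛ]; exact Lam_scl hi₁ hd hY1 ha1 haB
  obtain ⟨Θ', hΘ'⟩ : ∃ Θ', ∏ i, Λ i ^ d i = Θ' := ⟨_, rfl⟩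
  obtain ⟨V', hV'⟩ : ∃ V', ∏ i, Λ i ^ (n i + 1) = V' := ⟨_, rfl⟩
  have hΘ'1 : 1 ≤ Θ' := by
    rw [← hΘ', ← hΛ, prod_Lam hY1]; exact one_le_pow₀ hY1
  have hΘ'0 : 0 < Θ' := by linarith
  have hV'0 : 0 < V' := by
    rw [← hV']; exact Finset.prod_pos (fun i _ => pow_pos (hΛ0 i) _)
  have hA0 : 0 < A := by rw [← hYA]; positivity
  -- the volume is larger than the range of the values
  have hVΘ : A * Θ' * Y ≤ V' := by
    have h1 : Θ' = Y ^ (l * D' + (2 * x + 2) * d b) := by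
      rw [← hΘ', ← hΛ, prod_Lam hY1, hD']
    have h2 : V' = Y ^ (l * Ds b (fun i => n i + 1) + (2 * x + 2) * (n b + 1)) := by
      rw [← hV', ← hΛ]
      exact prod_Lam hY1 l x (fun i => n i + 1)
    have h3 : 2 ≤ Ds b (fun i => n i + 1) := by
      unfold Ds
      have h4 : 2 ≤ n i₁ + 1 := by have := hn i₁; omega
      exact h4.trans (Finset.single_le_sum (f := fun i => n i + 1) (fun i _ => Nat.zero_le _)
        (Finset.mem_erase.mpr ⟨hi₁, Finset.mem_univ _⟩))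
    rw [← hYA, h1, h2, hx, ← pow_add, ← pow_succ]
    apply pow_le_pow_right₀ hY1
    have h4 : l * 2 ≤ l * Ds b (fun i => n i + 1) := Nat.mul_le_mul_left _ h3
    have h5 : (2 * x + 2) * (d b + 1) ≤ (2 * x + 2) * (n b + 1) := Nat.mul_le_mul_left _ (by omega)
    have h6 : (2 * x + 2) * (d b + 1) = (2 * x + 2) * d b + (2 * x + 2) := by ring
    omega
  -- size conditions
  have hΘle : Θ' ≤ ∏ i, (2 * Λ i) ^ d i := by
    rw [← hΘ']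
    apply Finset.prod_le_prod
    · intro i _; exact (pow_pos (hΛ0 i) _).le
    · intro i _
      exact pow_le_pow_left₀ (hΛ0 i).le (by linarith [hΛ0 i]) _
  obtain ⟨κ, hκ⟩ : ∃ κ : ℝ, κ = 1 / Y ^ 9 := ⟨_, rfl⟩
  have hκ0 : 0 < κ := by rw [hκ]; positivity
  have hκ1 : κ ≤ 1 := by
    rw [hκ, div_le_one (by positivity)]; exact one_le_pow₀ hY1
  obtain ⟨hA₂, hA', haA, haA2⟩ := size_conds (N₀ := N₀) (M := M) (l := l) (D := D') (x := x)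
    (ru := ru) (m := m) (K := K) (T := T) (Y := Y) (q := Y ^ l) y1 (by omega) hx rfl hl30
    hYA.symm hc0 hc'0 hc₆ hc₇
    hc₉ hτ₂0 hτ₂1 hδ hδ0 hκ hΘle hΘ'0 hm1 ha hKl y4
  rw [← hD'] at hA₂ hA' haA haA2
  obtain ⟨Δ', hΔ'⟩ : ∃ Δ' : ℝ, δ * A * Θ' = Δ' := ⟨_, rfl⟩
  obtain ⟨Δ, hΔ⟩ : ∃ Δ : ℝ, κ * Δ' = Δ := ⟨_, rfl⟩
  rw [hΔ', hΔ] at hA₂
  rw [hΔ'] at hA'
  have hΔ'0 : 0 < Δ' := by rw [← hΔ']; positivity
  have hΔ0 : 0 < Δ := by rw [← hΔ]; positivity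
  have hS1 : (1:ℝ) ≤ S := by exact_mod_cast hP.toP.hS
  have hS0 : (0:ℝ) < S := by linarith
  have hQ₀0 : 0 < Q₀ := by linarith
  obtain ⟨q, hqdef⟩ : ∃ q : ℝ, ((S * J : ℕ) : ℝ) = q := ⟨_, rfl⟩
  have hq0 : 0 < q := by
    rw [← hqdef]
    have := Nat.mul_pos hP.toP.hS hP.toP.hJ
    exact_mod_cast this
  rw [hqdef] at hAq
  have hSJΔ' : q * Δ' = δ * (η * H) * Θ' := by rw [← hΔ', ← hAq]; ring
  have hSJΔ : q * Δ = κ * (δ * (η * H) * Θ') := by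
    rw [← hΔ, ← hSJΔ']; ring
  have hρH : δ * (η * H) * Θ' ≤ ρ * H * Θ' := by
    apply mul_le_mul_of_nonneg_right _ hΘ'0.le
    have h1 : δ * (η * H) ≤ 1 * (η * H) := mul_le_mul_of_nonneg_right hδ1 (by positivity)
    have h2 : η * H ≤ ρ * H := mul_le_mul_of_nonneg_right (by linarith) hH0.le
    linarith
  have hLa₀ := hΛ0 a₀.1
  obtain ⟨D₀, hD₀⟩ : ∃ D₀ : ℝ, g₀ * (Θ' / Λ a₀.1) = D₀ := ⟨_, rfl⟩
  have hD₀0 : 0 < D₀ := by rw [← hD₀]; positivity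
  rw [hΛ, hΘ', hD₀] at hslope
  rw [hΛ]
  -- class members
  have hmemS : ∀ A₃ : ℝ, A₃ ≤ 2 * A → ∀ g ∈ formsM n d A₃,
      SlopeM σ ((1 - τ) * D₀) ((1 + τ) * D₀) (ρ * H * Θ') Λ ξ a₀ ρ ρ' (mem' fc S J g) := by
    intro A₃ hA₃ g hg
    unfold mem'
    apply hslope
    refine ((mem_formsM.mp hg).C_mul _).mono ?_
    rw [Int.cast_natCast, hqdef, abs_of_nonneg hq0.le]
    have h1 : q * A₃ ≤ q * (2 * A) :=
      mul_le_mul_of_nonneg_left hA₃ hq0.le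
    have h2 : q * (2 * A) = ρ * H := by
      have : q * (2 * A) = 2 * (q * A) := by ring
      rw [this, hAq, hη]; ring
    linarith
  -- the sides of the box
  obtain ⟨X, hX⟩ : ∃ X : Var n → ℝ, ∀ a, X a = 2 * ρ * Λ a.1 / S := ⟨fun a => _, fun a => rfl⟩
  have hXlow : ∀ a, cX * Λ a.1 ≤ X a := by
    intro a
    rw [hX, hcX, div_mul_eq_mul_div]
    have := hΛ0 a.1
    exact div_le_div_of_nonneg_left (by positivity) hS0 hSQ
  have hX0 : ∀ a, 0 < X a := fun a => lt_of_lt_of_le (mul_pos hcX0 (hΛ0 a.1)) (hXlow a)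
  obtain ⟨PX, hPX⟩ : ∃ PX : ℝ, ∏ a ∈ Finset.univ.erase a₀, X a = PX := ⟨_, rfl⟩
  have hPX0 : 0 < PX := by rw [← hPX]; exact Finset.prod_pos (fun a _ => hX0 a)
  have hPXlow : cX ^ (N₀ - 1) * V' ≤ PX * Λ a₀.1 := by
    have h1 : ∏ a ∈ Finset.univ.erase a₀, (cX * Λ a.1) ≤ PX := by
      rw [← hPX]
      exact Finset.prod_le_prod (fun a _ => (mul_pos hcX0 (hΛ0 a.1)).le) (fun a _ => hXlow a)
    have h2 := mul_le_mul_of_nonneg_right h1 hLa₀.le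
    refine le_trans (le_of_eq ?_) h2
    rw [Finset.prod_mul_distrib, Finset.prod_const, Finset.card_erase_of_mem (Finset.mem_univ _),
      Finset.card_univ, hN₀, mul_assoc, ← hV', ← prod_var Λ,
      ← Finset.mul_prod_erase Finset.univ (fun a : Var n => Λ a.1) (Finset.mem_univ a₀)]
    ring
  -- the other side
  have hside : ∀ t : ℝ, 0 < t → t * (cX₂ * Y ^ l) ≤ 2 * (t * (δ * (η * H) * Θ')) / (D₀ * S) := by
    intro t ht
    have h1 : 2 * (t * (δ * (η * H) * Θ')) / (D₀ * S) =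
        t * (2 * δ * η * H * Λ a₀.1 / (g₀ * S)) := by
      rw [← hD₀]; field_simp
    rw [h1]
    apply mul_le_mul_of_nonneg_left _ ht.le
    rw [hcX₂, div_mul_eq_mul_div, div_le_div_iff₀ (by positivity) (by positivity)]
    have h2 : g₀ * S ≤ Cg * H * Q₀ := mul_le_mul hgcd hSQ (by positivity) (by positivity)
    have h3 := mul_le_mul_of_nonneg_left h2 (by positivity : 0 ≤ 2 * δ * η * Y ^ l)
    have h4 := mul_le_mul_of_nonneg_left (hΛl a₀.1) (by positivity : 0 ≤ 2 * δ * η * H * (Cg * Q₀))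
    linarith
  have hΔside : κ * (cX₂ * Y ^ l) ≤ 2 * (q * Δ) / (D₀ * S) := by
    rw [hSJΔ]; exact hside κ hκ0
  have hΔ'side : cX₂ * Y ^ l ≤ 2 * (q * Δ') / (D₀ * S) := by
    have := hside 1 one_pos
    rw [one_mul, one_mul] at this
    rw [hSJΔ']; exact this
  obtain ⟨R, hR⟩ : ∃ R : ℝ, PX * (2 * (q * Δ) / (D₀ * S)) = R := ⟨_, rfl⟩
  obtain ⟨R', hR'⟩ : ∃ R' : ℝ, PX * (2 * (q * Δ') / (D₀ * S)) = R' := ⟨_, rfl⟩
  obtain ⟨ϱ, hϱ⟩ : ∃ ϱ : ℝ, PX * (q / (D₀ * S)) = ϱ := ⟨_, rfl⟩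
  have hϱ0 : 0 < ϱ := by rw [← hϱ]; positivity
  have hRϱ : R / (2 * Δ) = ϱ := by rw [← hR, ← hϱ]; field_simp
  have hR'ϱ : R' / (2 * Δ') = ϱ := by rw [← hR', ← hϱ]; field_simp
  have hR0 : 0 < R := by rw [← hR]; positivity
  have hR'0 : 0 < R' := by rw [← hR']; positivity
  have hϱlow : c₀ * V' ≤ (A * Θ') * ϱ := by
    have h1 : (A * Θ') * ϱ = PX * Λ a₀.1 * (η * H / (g₀ * S)) := by
      rw [← hϱ, ← hD₀, ← hAq]; field_simp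
    rw [h1, hc₀]
    have h2 : η / (Cg * Q₀) ≤ η * H / (g₀ * S) := by
      rw [div_le_div_iff₀ (by positivity) (by positivity)]
      have h4 : g₀ * S ≤ (Cg * H) * Q₀ := mul_le_mul hgcd hSQ (by linarith) (by positivity)
      have h5 := mul_le_mul_of_nonneg_left h4 hη0.le
      linarith
    have h3 := mul_le_mul hPXlow h2 (by positivity) (by positivity)
    refine le_trans (le_of_eq ?_) h3
    ring
  have hR'low : 2 * δ * c₀ * V' ≤ R' := by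
    have h1 : R' = 2 * δ * ((A * Θ') * ϱ) := by
      rw [div_eq_iff (by positivity)] at hR'ϱ
      rw [hR'ϱ, ← hΔ']; ring
    rw [h1]
    have := mul_le_mul_of_nonneg_left hϱlow (by positivity : 0 ≤ 2 * δ)
    linarith
  -- sizes of the sides
  have hYl : Y * Y ^ (l - 19) * Y ^ 9 ≤ Y ^ l := by
    rw [← pow_succ', ← pow_add]; exact pow_le_pow_right₀ hY1 (by omega)
  have hN'r : (1:ℝ) ≤ N' := by exact_mod_cast hN'1
  have z6 : (N':ℝ) ≤ τ * cX * Y := by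
    rw [div_le_iff₀ (by positivity)] at y6; linarith
  have z7 : 2 * (N':ℝ) ≤ τ * cX₂ * Y := by
    rw [div_le_iff₀ (by positivity)] at y7; linarith
  have hYYl : Y ≤ Y ^ l := by
    calc Y = Y ^ 1 := by ring
      _ ≤ Y ^ l := pow_le_pow_right₀ hY1 (by omega)
  have hKΔτ : ((K * 2 ^ T : ℕ) : ℝ) ≤ τ * Δ := by
    have h1 : δ * A * κ ≤ Δ := by
      rw [← hΔ, ← hΔ']
      have : δ * A * κ ≤ δ * A * κ * Θ' := le_mul_of_one_le_right (by positivity) hΘ'1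
      linarith
    have h2 : 1 ≤ τ * δ * Y := by
      rw [div_le_iff₀ (by positivity)] at y11; linarith
    have h3 : Y * Y ^ (l - 19) ≤ A * κ := by
      rw [hκ, mul_one_div, le_div_iff₀ (by positivity), ← hYA]
      refine hYl.trans (pow_le_pow_right₀ hY1 (by omega))
    have h4 : ((K * 2 ^ T : ℕ) : ℝ) ≤ τ * δ * (Y * Y ^ (l - 19)) := by
      have := mul_le_mul_of_nonneg_right h2 (by positivity : 0 ≤ Y ^ (l - 19))
      linarith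
    have h5 := mul_le_mul_of_nonneg_left h3 (by positivity : 0 ≤ τ * δ)
    have h6 := mul_le_mul_of_nonneg_left h1 hτ0.le
    linarith
  have hΔ'Δ : Δ ≤ Δ' := by
    rw [← hΔ]; exact mul_le_of_le_one_left hΔ'0.le hκ1
  have h1Δ' : 1 ≤ τ * Δ' := by
    have h1 : (1:ℝ) ≤ ((K * 2 ^ T : ℕ) : ℝ) := by
      have : 1 ≤ K * 2 ^ T := Nat.mul_pos hK0 (by positivity)
      exact_mod_cast this
    have h2 := mul_le_mul_of_nonneg_left hΔ'Δ hτ0.le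
    linarith
  refine class_coreM (N' := N') (K := K) (T := T) (κ := κ) (L := 2 * Y ^ l) (Lg := 2 * Y) (Δ := Δ)
    (Δ' := Δ') (Δ₀ := ρ * H * Θ') (ϱ := ϱ) (R := R) (R' := R') (D₀ := D₀) (X := X) hn hN₀ hN₀r hM hc
    hc' hc0 hDe hCt0 hCt hε hτ0
    hτ1 hb1 hb0 hτF hw1 hwτ hr1 hτ₂0 hτ₂1 hτ₂2 hτ₂3 hc₀0 hP hρ0 hρρ' hρ'2 hξ hξr hσ hD₀0 hΛ1 hs
    hκ0 ?_ ?_ (by positivity) ?_ hmemS (by rw [← hK, hWdef]) hK0 hΔ0 hΔ'0 ?_ ?_ hX
    (by rw [hPX, hqdef]; exact hR) (by rw [hPX, hqdef]; exact hR')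
    hRϱ hR'ϱ hR0 hR'0 ?_ ?_ ?_ ?_ hN'1 ?_ ?_ hKΔτ h1Δ' hA₂ hA' haA haA2 ?_
    (by rw [hV', hΘ']; exact hϱlow) ?_ ?_
  · -- κ L
    rw [hκ, one_div, inv_mul_eq_div, le_div_iff₀ (by positivity), one_mul]
    have : Y ^ 9 ≤ Y ^ l := pow_le_pow_right₀ hY1 (by omega)
    linarith [pow_pos hY0 l]
  · -- L and the main scale
    rw [hΛb]
    have h1 : (2 * Y ^ l) ^ 2 = 4 * Y ^ (l * 2) := by rw [mul_pow, ← pow_mul]; norm_num
    rw [h1]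
    have h2 : 4 * Y ^ (l * 2) ≤ Y ^ (2 * x + 2) := by
      have h3 : (4:ℝ) ≤ Y ^ 2 := by
        calc (4:ℝ) = 2 ^ 2 := by norm_num
          _ ≤ Y ^ 2 := pow_le_pow_left₀ (by norm_num) y1 2
      calc 4 * Y ^ (l * 2) ≤ Y ^ 2 * Y ^ (l * 2) := mul_le_mul_of_nonneg_right h3 (by positivity)
        _ = Y ^ (2 + l * 2) := by rw [pow_add]
        _ ≤ Y ^ (2 * x + 2) := pow_le_pow_right₀ hY1 (by omega)
    linarith
  · -- logarithms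
    intro s hs'
    apply log_bound hY0.le y3 s
    refine hs'.trans ?_
    rw [hΛb]
    have h1 : a * (2 * Y ^ (2 * x + 2)) ≤ (ru * Y ^ (x + 4)) * (2 * Y ^ (2 * x + 2)) :=
      mul_le_mul_of_nonneg_right haY (by positivity)
    have h2 := mul_le_mul_of_nonneg_left h1 (by positivity : (0:ℝ) ≤ 15 * (N₀:ℝ) ^ 2)
    have h3 : 15 * (N₀:ℝ) ^ 2 * ((ru * Y ^ (x + 4)) * (2 * Y ^ (2 * x + 2))) =
        30 * (N₀:ℝ) ^ 2 * ru * Y ^ (3 * x + 6) := by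
      rw [show 3 * x + 6 = (x + 4) + (2 * x + 2) by ring, pow_add]; ring
    linarith
  · rw [hqdef, hSJΔ]
    exact (mul_le_of_le_one_left (by positivity) hκ1).trans hρH
  · rw [hqdef, hSJΔ']; exact hρH
  · intro a'
    have h1 : cX * Y ^ l ≤ X a' :=
      (mul_le_mul_of_nonneg_left (hΛl a'.1) hcX0.le).trans (hXlow a')
    have h2 := mul_le_mul_of_nonneg_left h1 hτ0.le
    have h3 : 1 ≤ τ * cX * Y := by linarith
    have h4 : Y ^ (l - 19) ≤ τ * cX * Y ^ l := by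
      have h5 := mul_le_mul_of_nonneg_right h3 (by positivity : 0 ≤ Y ^ (l - 19))
      have h6 : Y * Y ^ (l - 19) ≤ Y ^ l := by
        refine le_trans ?_ hYl
        exact le_mul_of_one_le_right (by positivity) (one_le_pow₀ hY1)
      have h7 := mul_le_mul_of_nonneg_left h6 (by positivity : 0 ≤ τ * cX)
      linarith
    linarith
  · rw [hqdef]
    have h2 := mul_le_mul_of_nonneg_left hΔside hτ0.le
    refine le_trans ?_ h2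
    have h3 : 1 ≤ τ * cX₂ * Y := by linarith
    have h5 := mul_le_mul_of_nonneg_right h3 (by positivity : 0 ≤ Y ^ (l - 19))
    have h6 : Y * Y ^ (l - 19) ≤ κ * Y ^ l := by
      rw [hκ, one_div, inv_mul_eq_div, le_div_iff₀ (by positivity)]
      exact hYl
    have h7 := mul_le_mul_of_nonneg_left h6 (by positivity : 0 ≤ τ * cX₂)
    linarith
  · intro a'
    have h1 : cX * Y ^ l ≤ X a' :=
      (mul_le_mul_of_nonneg_left (hΛl a'.1) hcX0.le).trans (hXlow a')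
    have h2 := mul_le_mul_of_nonneg_left h1 hτ0.le
    have h3 := mul_le_mul_of_nonneg_left hYYl (by positivity : 0 ≤ τ * cX)
    linarith
  · rw [hqdef]
    have h2 := mul_le_mul_of_nonneg_left hΔ'side hτ0.le
    have h3 := mul_le_mul_of_nonneg_left hYYl (by positivity : 0 ≤ τ * cX₂)
    linarith
  · -- large primes
    have h1 : ∏ i, (6 * Λ i) ^ (n i + 1) = 6 ^ N₀ * V' := by
      have h2 : ∀ i, (6 * Λ i) ^ (n i + 1) = 6 ^ (n i + 1) * Λ i ^ (n i + 1) :=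
        fun i => mul_pow _ _ _
      rw [Finset.prod_congr rfl (fun i _ => h2 i), Finset.prod_mul_distrib,
        Finset.prod_pow_eq_pow_sum, hV', ← hN₀, Fintype.card_sigma]
      simp
    rw [h1, div_le_iff₀ (by linarith)]
    rw [div_le_iff₀ (by positivity)] at hN'
    have h2 := mul_le_mul_of_nonneg_right hN' hV'0.le
    have h3 := mul_le_mul_of_nonneg_left hR'low (by positivity : 0 ≤ τ * N')
    linarith
  · -- unbalanced vectors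
    intro U hU
    have h1 := unbal_cond (n := n) (b := b) (N₀ := N₀) (l := l) (x := x) (ru := ru) (m := m) hnb
      hN₀ hCu0 hCu y1 (by omega) (by omega) hcU0 y2 y8 hm1 hm2 hm3 U (by
        rw [ha, hΛ]; exact hU)
    rw [hΛ, hV', hcU] at h1
    refine h1.trans ?_
    have := mul_le_mul_of_nonneg_left hR'low hτ0.le
    linarith
  · refine y10.trans ?_
    rw [← hYA]
    calc Y = Y ^ 1 := by ring
      _ ≤ _ := pow_le_pow_right₀ hY1 (by omega)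
  · -- first error term
    rw [hΛb]
    have hθ := theta_bound (x := x) (ru := ru) (m := m) hY1 hm1 ha y5
    have hθ0 : 0 ≤ 1 + a ^ 2 / (2 * Y ^ (2 * x + 2)) * (1 + Real.log (2 * Y ^ (2 * x + 2))) := by
      have h1 : 0 ≤ Real.log (2 * Y ^ (2 * x + 2)) := by
        apply Real.log_nonneg
        have : 1 ≤ Y ^ (2 * x + 2) := one_le_pow₀ hY1
        linarith
      positivity
    have h1 := W_bound (l := l) (p := 2 * x + 2) (T := T) hY1 (by omega) (by omega) hθ0 hθ hT1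
    rw [hκ]
    have h2 := mul_le_mul_of_nonneg_left h1
      (by positivity : 0 ≤ 16 * Ct * 4 ^ M * (6 ^ N₀) ^ 2)
    refine h2.trans ?_
    rw [div_le_iff₀ (by positivity)] at y9
    have h3 : 16 * Ct * 4 ^ M * (6 ^ N₀) ^ 2 * (4 / Y) =
        64 * Ct * 4 ^ M * (6 ^ N₀) ^ 2 / Y := by ring
    rw [h3, div_le_iff₀ hY0]
    linarith
  · -- second error term
    rw [hV', hΘ']
    rw [div_le_iff₀ (by positivity)] at y12
    have h2 := mul_le_mul_of_nonneg_right y12 (by positivity : 0 ≤ A * Θ')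
    have h3 := mul_le_mul_of_nonneg_left hVΘ (by positivity : 0 ≤ ε * c₀ ^ 2)
    linarith

end Pool.Agent.Y716.M
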