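import Pool.Agent.Y716.M.ClassThm

/-!
# The class theorem, several blocks: constants
-/

namespace Pool.Agent.Y716.M

open Pool.Agent.Y716.Q Pool.Agent.Y510.M6 Pool.Agent.Y804.MC Filter

variable {r : ℕ}

theorem card_var_ge {n : Fin r → ℕ} {b i₁ : Fin r} (hi₁ : i₁ ≠ b) (hn : ∀ i, 1 ≤ n i)
    (hnb : 2 ≤ n b) : r + 3 ≤ Fintype.card (Var n) := by
  rw [Fintype.card_sigma]
  simp only [Fintype.card_fin]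
  rw [Finset.sum_add_distrib, Finset.sum_const, Finset.card_univ, Fintype.card_fin, smul_eq_mul,
    mul_one]
  have h1 : n b + ∑ i ∈ Finset.univ.erase b, n i = ∑ i, n i :=
    Finset.add_sum_erase _ _ (Finset.mem_univ b)
  have h2 : n i₁ ≤ ∑ i ∈ Finset.univ.erase b, n i :=
    Finset.single_le_sum (f := n) (fun i _ => Nat.zero_le _)
      (Finset.mem_erase.mpr ⟨hi₁, Finset.mem_univ _⟩)
  have h3 := hn i₁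
  omega

/-- The class theorem, several blocks. -/
theorem class_theoremM (n d : Fin r → ℕ) (b : Fin r) (hr : 2 ≤ r) (hd : ∀ i, 2 ≤ d i)
    (hn : ∀ i, 1 ≤ n i) (hnb : 2 ≤ n b) (hdb : d b ≤ n b) : ClassStmtM n d := by
  classical
  intro ε hε
  obtain ⟨De, hDe⟩ : ∃ De, ∑ i, d i = De + 2 := by
    have h1 : d b ≤ ∑ i, d i := Finset.single_le_sum (fun i _ => Nat.zero_le _) (Finset.mem_univ b)
    exact ⟨∑ i, d i - 2, by have := hd b; omega⟩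
  obtain ⟨i₁, hi₁⟩ : ∃ i₁ : Fin r, i₁ ≠ b := by
    haveI : Nontrivial (Fin r) := by
      apply Fintype.one_lt_card_iff_nontrivial.mp
      rw [Fintype.card_fin]; omega
    exact exists_ne b
  obtain ⟨N₀, hN₀⟩ : ∃ N₀, Fintype.card (Var n) = N₀ := ⟨_, rfl⟩
  have hN₀r : r + 3 ≤ N₀ := by rw [← hN₀]; exact card_var_ge hi₁ hn hnb
  obtain ⟨M, hM⟩ : ∃ M, (monsM n d).card = M := ⟨_, rfl⟩
  obtain ⟨D', hD'⟩ : ∃ D', Ds b d = D' := ⟨_, rfl⟩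
  obtain ⟨Ct, hCt0, hCt⟩ := exists_SMM n d b hr hnb hn De hDe
  obtain ⟨Cu, hCu0, hCu⟩ : ∃ Cu : ℝ, 0 < Cu ∧ UB (Fin (n b + 1)) Cu :=
    unbal_bound (Fin (n b + 1)) (by rw [Fintype.card_fin]; omega)
  obtain ⟨Cr, hCr1, hCr⟩ := Pool.Agent.Y77.M7.real_classM n d De hDe
  obtain ⟨Cf, hCf1, hCf⟩ := form_bounds (ι := Var n) (De + 1)
  obtain ⟨hC1, hC2⟩ := consts_pos n b De
  rw [hN₀] at hC1 hC2
  obtain ⟨c, hc⟩ : ∃ c, c1pt N₀ (De + 1) = c := ⟨_, rfl⟩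
  obtain ⟨c', hc'⟩ : ∃ c', C2 N₀ De = c' := ⟨_, rfl⟩
  rw [hc] at hC1
  rw [hc'] at hC2
  obtain ⟨τ, hτ0, hτ1, hb1, hb0, hτF⟩ := exists_tau N₀ (ε := ε / 2) (by positivity)
  refine ⟨⌈(r : ℝ) / τ⌉₊ + 1, by omega, ?_⟩
  intro w hw γ hγ hγ1 Q₀ hQ₀ η₀ hη₀
  have hw1 : 1 ≤ w := by omega
  have hwr : (1:ℝ) ≤ w := by exact_mod_cast hw1
  have hwτ : (r : ℝ) / (w : ℝ) ≤ τ := by
    have h1 : (r : ℝ) / τ ≤ w := by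
      refine (Nat.le_ceil _).trans ?_
      have : ⌈(r : ℝ) / τ⌉₊ ≤ w := by omega
      exact_mod_cast this
    rw [div_le_iff₀ hτ0] at h1
    rw [div_le_iff₀ (by linarith)]
    linarith
  have hQ₀r : (1:ℝ) ≤ Q₀ := by exact_mod_cast hQ₀
  -- constants
  have hCr0 : 0 < Cr := by linarith
  obtain ⟨ρ', hρ'⟩ : ∃ ρ' : ℝ, ρ' = min (τ * γ / (2 * Cr)) η₀ := ⟨_, rfl⟩
  have hρ'0 : 0 < ρ' := by rw [hρ']; exact lt_min (by positivity) hη₀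
  have hρ'η₀ : ρ' ≤ η₀ := by rw [hρ']; exact min_le_right _ _
  have hCρ' : Cr * ρ' ≤ τ * γ / 2 := by
    have h1 : ρ' ≤ τ * γ / (2 * Cr) := by rw [hρ']; exact min_le_left _ _
    have h2 := mul_le_mul_of_nonneg_left h1 hCr0.le
    refine h2.trans (le_of_eq ?_)
    field_simp
  have hρ'τ : ρ' ≤ τ / 2 := by
    have h1 : ρ' ≤ Cr * ρ' := le_mul_of_one_le_left hρ'0.le hCr1
    have h2 : τ * γ ≤ τ := mul_le_of_le_one_right hτ0.le hγ1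
    linarith
  have hρ'2 : ρ' ≤ 1 / 2 := by linarith
  obtain ⟨ρ, hρ⟩ : ∃ ρ : ℝ, ρ = γ * ρ' / (2 * Cr) := ⟨_, rfl⟩
  have hρ0 : 0 < ρ := by rw [hρ]; positivity
  have hCρ : Cr * ρ = γ * ρ' / 2 := by rw [hρ]; field_simp
  have hρρ' : ρ ≤ ρ' := by
    have h1 : ρ ≤ Cr * ρ := le_mul_of_one_le_left hρ0.le hCr1
    have h2 : γ * ρ' ≤ ρ' := mul_le_of_le_one_left hρ'0.le hγ1
    linarith
  obtain ⟨η, hη⟩ : ∃ η : ℝ, η = ρ / 2 := ⟨_, rfl⟩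
  have hη0 : 0 < η := by rw [hη]; positivity
  have hη1 : η ≤ 1 := by linarith
  have hηη₀ : η ≤ η₀ := by linarith
  obtain ⟨Cg, hCg⟩ : ∃ Cg : ℝ, Cg = Cf * ((De + 2) * 2) := ⟨_, rfl⟩
  have hCg0 : 0 < Cg := by rw [hCg]; positivity
  obtain ⟨τ₂, hτ₂0, hτ₂1, hτ₂2, hτ₂3⟩ := exists_ratio M hτ0
  obtain ⟨c₆, hc₆⟩ : ∃ c₆ : ℝ, c + c' * (1 + M * c) = c₆ := ⟨_, rfl⟩
  have hc6 : 6 ≤ c := by
    rw [← hc]; unfold c1pt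
    have h1 : (1:ℝ) ≤ (6 * N₀) ^ (De + 1) := by
      apply one_le_pow₀
      have h2 : 1 ≤ N₀ := by omega
      have : (1:ℝ) ≤ N₀ := by exact_mod_cast h2
      linarith
    linarith
  have hc₆c : c ≤ c₆ := by
    rw [← hc₆]
    have : 0 ≤ c' * (1 + M * c) := by positivity
    linarith
  have hc₆0 : 0 < c₆ := by linarith
  obtain ⟨δ, hδ⟩ : ∃ δ : ℝ, δ = τ₂ / (4 * c₆) := ⟨_, rfl⟩
  have hδ0 : 0 < δ := by rw [hδ]; positivity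
  have hδc : c₆ * δ = τ₂ / 4 := by rw [hδ]; field_simp
  have hδ1 : δ ≤ 1 := by
    rw [hδ, div_le_one (by positivity)]; linarith
  obtain ⟨cX, hcX⟩ : ∃ cX : ℝ, cX = 2 * ρ / Q₀ := ⟨_, rfl⟩
  have hcX0 : 0 < cX := by rw [hcX]; positivity
  obtain ⟨cX₂, hcX₂⟩ : ∃ cX₂ : ℝ, cX₂ = 2 * δ * η / (Cg * Q₀) := ⟨_, rfl⟩
  have hcX₂0 : 0 < cX₂ := by rw [hcX₂]; positivity
  obtain ⟨c₀, hc₀⟩ : ∃ c₀ : ℝ, c₀ = cX ^ (N₀ - 1) * (η / (Cg * Q₀)) := ⟨_, rfl⟩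
  have hc₀0 : 0 < c₀ := by rw [hc₀]; positivity
  obtain ⟨W, hW⟩ : ∃ W : ℕ, W = ∏ p ∈ (Finset.range (w + 1)).filter Nat.Prime, p := ⟨_, rfl⟩
  obtain ⟨l, hl⟩ : ∃ l : ℕ, l = 11 * W + 30 := ⟨_, rfl⟩
  obtain ⟨x, hx⟩ : ∃ x : ℕ, l * D' = x := ⟨_, rfl⟩
  obtain ⟨ru, hru⟩ : ∃ ru : ℕ, ru = 3 * x + 8 := ⟨_, rfl⟩
  obtain ⟨c₇, hc₇⟩ : ∃ c₇ : ℝ, 8 * (N₀:ℝ) + ru = c₇ := ⟨_, rfl⟩
  obtain ⟨c₉, hc₉⟩ : ∃ c₉ : ℝ, 16 * (N₀:ℝ) + ru + 3 * ru * c₇ = c₉ := ⟨_, rfl⟩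
  obtain ⟨N', hN'⟩ : ∃ N' : ℕ, N' = ⌈r * 6 ^ N₀ / (τ * (2 * δ * c₀))⌉₊ + 1 := ⟨_, rfl⟩
  have hN'1 : 1 ≤ N' := by omega
  have hN'r : r * 6 ^ N₀ / (τ * (2 * δ * c₀)) ≤ (N' : ℝ) := by
    rw [hN']
    push_cast
    have := Nat.le_ceil (r * 6 ^ N₀ / (τ * (2 * δ * c₀)))
    linarith
  obtain ⟨cU, hcU⟩ : ∃ cU : ℝ, cU = τ * (2 * δ * c₀) / 6 ^ N₀ := ⟨_, rfl⟩
  have hcU0 : 0 < cU := by rw [hcU]; positivity
  have hcU' : cU * 6 ^ N₀ = τ * (2 * δ * c₀) := by rw [hcU]; field_simp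
  -- the threshold for Y
  have hev : ∀ᶠ Y : ℝ in atTop, 2 ≤ Y ∧ 2 * ((n b + 1 : ℕ):ℝ) * ru + 3 ≤ Y ∧
      30 * (N₀:ℝ) ^ 2 * ru * Y ^ (3 * x + 6) < Real.exp Y ∧
      4 * (c₆ * c₇ + c' * c₉) / τ₂ ≤ Y ∧ 1 + (ru:ℝ) ^ 2 * (2 + (2 * x + 2 : ℕ)) ≤ Y ∧
      (N' : ℝ) / (τ * cX) ≤ Y ∧ 2 * (N' : ℝ) / (τ * cX₂) ≤ Y ∧
      Cu * 4 ^ (n b + 1) * (3 + (x - 1 : ℕ)) / cU ≤ Y ∧
      64 * Ct * 4 ^ M * (6 ^ N₀) ^ 2 / (ε * c₀ ^ 2) ≤ Y ∧ 1 + 1 / τ₂ ≤ Y ∧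
      1 / (τ * δ) ≤ Y ∧ 16 * Ct * 3 ^ M * 6 ^ N₀ / (ε * c₀ ^ 2) ≤ Y := by
    filter_upwards [eventually_ge_atTop (2:ℝ),
      eventually_ge_atTop (2 * ((n b + 1 : ℕ):ℝ) * ru + 3),
      eventually_exp (30 * (N₀:ℝ) ^ 2 * ru) (3 * x + 6),
      eventually_ge_atTop (4 * (c₆ * c₇ + c' * c₉) / τ₂),
      eventually_ge_atTop (1 + (ru:ℝ) ^ 2 * (2 + (2 * x + 2 : ℕ))),
      eventually_ge_atTop ((N' : ℝ) / (τ * cX)),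
      eventually_ge_atTop (2 * (N' : ℝ) / (τ * cX₂)),
      eventually_ge_atTop (Cu * 4 ^ (n b + 1) * (3 + (x - 1 : ℕ)) / cU),
      eventually_ge_atTop (64 * Ct * 4 ^ M * (6 ^ N₀) ^ 2 / (ε * c₀ ^ 2)),
      eventually_ge_atTop (1 + 1 / τ₂),
      eventually_ge_atTop (1 / (τ * δ)),
      eventually_ge_atTop (16 * Ct * 3 ^ M * 6 ^ N₀ / (ε * c₀ ^ 2))]
      with Y h1 h2 h3 h4 h5 h6 h7 h8 h9 h10 h11 h12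
    exact ⟨h1, h2, h3, h4, h5, h6, h7, h8, h9, h10, h11, h12⟩
  obtain ⟨Y₁, hY₁⟩ := Filter.eventually_atTop.mp hev
  obtain ⟨Y₀, hY₀⟩ : ∃ Y₀ : ℝ, Y₀ = max Y₁ 1 := ⟨_, rfl⟩
  have hY₀1 : 1 ≤ Y₀ := by rw [hY₀]; exact le_max_right _ _
  have hY₀Y₁ : Y₁ ≤ Y₀ := by rw [hY₀]; exact le_max_left _ _
  obtain ⟨α, hα⟩ : ∃ α : ℕ, x + 2 * l = α := ⟨_, rfl⟩
  have hα0 : α ≠ 0 := by omega
  refine ⟨η, hη0, hη1, hηη₀, Q₀ * Y₀ ^ α / η, ?_⟩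
  intro H hH fc S J xc v ξ a₀ hP hR hq
  obtain ⟨q, hqdef⟩ : ∃ q : ℕ, S * J = q := ⟨_, rfl⟩
  have hq1 : 1 ≤ q := by rw [← hqdef]; exact Nat.mul_pos hP.toP.hS hP.toP.hJ
  have hqr : (1:ℝ) ≤ q := by exact_mod_cast hq1
  have hqQ : (q:ℝ) ≤ Q₀ := by rw [← hqdef]; exact_mod_cast hq
  have hSq : (S:ℝ) ≤ Q₀ := by
    have : S ≤ S * J := Nat.le_mul_of_pos_right S hP.toP.hJ
    exact_mod_cast this.trans hq
  have hH0 : 0 < H := lt_of_lt_of_le (by positivity) hH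
  rw [hqdef]
  obtain ⟨A, hA⟩ : ∃ A : ℝ, η * H / q = A := ⟨_, rfl⟩
  rw [hA]
  have hAq : q * A = η * H := by rw [← hA]; field_simp
  have hA₀ : Y₀ ^ α ≤ A := by
    rw [div_le_iff₀ hη0] at hH
    have h1 : (q:ℝ) * Y₀ ^ α ≤ q * A := by
      rw [hAq]
      have : (q:ℝ) * Y₀ ^ α ≤ Q₀ * Y₀ ^ α := mul_le_mul_of_nonneg_right hqQ (by positivity)
      linarith
    exact le_of_mul_le_mul_left h1 (by linarith)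
  have hA0 : 0 < A := lt_of_lt_of_le (by positivity) hA₀
  obtain ⟨Y, hY⟩ : ∃ Y : ℝ, Y = A ^ ((α : ℝ)⁻¹) := ⟨_, rfl⟩
  have hYA : Y ^ α = A := by rw [hY]; exact Real.rpow_inv_natCast_pow hA0.le hα0
  have hYnn : 0 ≤ Y := by rw [hY]; positivity
  have hYY₀ : Y₀ ≤ Y := by
    rw [← hYA] at hA₀
    exact le_of_pow_le_pow_left₀ hα0 hYnn hA₀
  obtain ⟨y1, y2, y3, y4, y5, y6, y7, y8, y9, y10, y11, y12⟩ := hY₁ Y (hY₀Y₁.trans hYY₀)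
  clear hY₁ hev
  have hY1 : 1 ≤ Y := by linarith
  -- real data
  have hgcd : |MvPolynomial.aeval ξ (MvPolynomial.pderiv a₀ fc)| ≤ Cg * H := by
    have hF := (Pool.Agent.Y77.M7.isM_toF hR.hform hDe).pderiv a₀
    have h1 := (hCf _ _ hF.1 hF.2 1 (by norm_num)).1 ξ hR.hξ
    rw [one_pow, mul_one] at h1
    refine h1.trans (le_of_eq ?_)
    rw [hCg]; push_cast; ring
  have hR' : RDataM d H γ ρ fc ξ a₀ := by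
    refine ⟨hR.hform, hR.hξ, hR.hξr, hR.hfξ.trans ?_, hR.hgξ⟩
    apply mul_le_mul_of_nonneg_left _ (Nat.cast_nonneg _)
    apply mul_le_mul_of_nonneg_right _ hH0.le
    linarith
  have hCrr : Cr * (ρ' + ρ) ≤ τ * γ := by
    have h1 : γ * ρ' ≤ γ * (τ / 2) := mul_le_mul_of_nonneg_left hρ'τ hγ.le
    rw [mul_add, hCρ]
    have h2 : 0 < τ * γ := mul_pos hτ0 hγ
    linarith
  have hCrr2 : Cr * (ρ + ρ) ≤ γ * ρ' := by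
    rw [mul_add, hCρ]; linarith
  obtain ⟨σ, hσ, hslope⟩ := hCr H γ ρ τ ρ ρ' (Lam b Y l x) fc ξ a₀ hR' hH0 hγ hρ0 (by linarith)
    hτ0 hτ1 hρ0 hρρ' (by linarith) (fun i => by have := Lam_one (b := b) hY1 l x i; linarith)
    hCrr hCrr2
  have hgξ := hR.hgξ
  obtain ⟨g₀, hg₀⟩ : ∃ g₀ : ℝ, |MvPolynomial.aeval ξ (MvPolynomial.pderiv a₀ fc)| = g₀ := ⟨_, rfl⟩
  rw [hg₀] at hgcd hgξ hslope
  have hg₀0 : 0 < g₀ := lt_of_lt_of_le (by positivity) hgξ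
  obtain ⟨a, ha⟩ := class_Y (n := n) (d := d) (b := b) (i₁ := i₁) hi₁ (by omega) hd hn hnb hdb hDe
    hN₀ hN₀r hM hD' hc hc' hC1 hC2 hCt0 hCt hCu0 hCu hε hτ0 hτ1 hb1 hb0 hτF hw1 hwτ hW hτ₂0 hτ₂1
    hτ₂2 hτ₂3 hc₆ hl hx hru hc₇ hc₉ hδc hδ0 hδ1 hcX0 hcX₂0 hc₀0 hN'1 hN'r hcU' hcU0 y1 y2 y3 y4 y5
    y6 y7 y8 y9 y10 y11 y12 hP hρ0 hρρ' hρ'2 hR.hξ hR.hξr hσ hg₀0 hgcd hCg0 hH0 hη0 hη hSq
    (by rw [hqdef]; exact hAq) (by rw [hα]; exact hYA) hcX hcX₂ hc₀ hslope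
  refine le_trans ?_ ha
  have : ((formsM n d A).filter (fun g => ¬ ZeroNearM η₀ ξ S xc (mem' fc S J g))) ⊆
      ((formsM n d A).filter (fun g =>
        ¬ ZeroInM (testM b a (Lam b Y l x) ξ a₀ ρ ρ' S xc) (mem' fc S J g))) := by
    intro g hg
    rw [Finset.mem_filter] at hg ⊢
    refine ⟨hg.1, ?_⟩
    rintro ⟨z, hz, hz2⟩
    apply hg.2
    obtain ⟨hz', _, hz1, _⟩ := mem_testM.mp hz
    obtain ⟨hz3, hz4⟩ := mem_boxM.mp hz'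
    refine ⟨z, hz1, hz2, hz4, Lam b Y l x,
      fun i => by have := Lam_one (b := b) hY1 l x i; linarith, fun a' => ?_⟩
    have h0 : 0 < Lam b Y l x a'.1 := by
      have := Lam_one (b := b) hY1 l x a'.1
      linarith
    have h1 := hz3 a'
    have h2 : wd a₀ ρ ρ' a' ≤ η₀ := by
      unfold wd
      split_ifs
      · exact hρ'η₀
      · exact hρρ'.trans hρ'η₀
    have h3 := mul_le_mul_of_nonneg_left h2 h0.le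
    rw [abs_le]
    constructor
    · linarith [h1.1]
    · linarith [h1.2]
  exact_mod_cast Finset.card_le_card this

end Pool.Agent.Y716.M
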