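import Pool.Agent.Y716.M.Ker3
import Pool.Agent.Y716.Q.Moment

/-!
# Counting vectors block by block
-/

namespace Pool.Agent.Y716.M

open Pool.Agent.Y716.Q

variable {r : ℕ} {n : Fin r → ℕ}

/-- counting block by block -/
theorem card_le_prod (Y : Finset (Var n → ℤ)) (c : Fin r → ℝ)
    (h : ∀ i, ((Y.image (fun y => bl y i)).card : ℝ) ≤ c i) :
    (Y.card : ℝ) ≤ ∏ i, c i := by
  have h1 : Y.card ≤ (Fintype.piFinset (fun i => Y.image (fun y => bl y i))).card := by
    apply Finset.card_le_card_of_injOn (fun y => fun i => bl y i)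
    · intro y hy
      rw [Finset.mem_coe, Fintype.mem_piFinset]
      intro i
      exact Finset.mem_image_of_mem _ hy
    · intro y _ y' _ heq
      funext a
      obtain ⟨i, j⟩ := a
      exact congrFun (congrFun heq i) j
  rw [Fintype.card_piFinset] at h1
  have h2 : (Y.card : ℝ) ≤ ((∏ i, (Y.image (fun y => bl y i)).card : ℕ) : ℝ) := by exact_mod_cast h1
  refine h2.trans ?_
  rw [Nat.cast_prod]
  exact Finset.prod_le_prod (fun i _ => Nat.cast_nonneg _) (fun i _ => h i)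

/-- number of integral vectors in a box -/
theorem card_box_le {ι : Type*} [Fintype ι] {B : ℝ} (hB : 1 ≤ B) (U : Finset (ι → ℤ))
    (hU : ∀ x ∈ U, ∀ i, |(x i : ℝ)| ≤ B) : (U.card : ℝ) ≤ (3 * B) ^ Fintype.card ι := by
  classical
  have hsub : U ⊆ Fintype.piFinset (fun _ : ι => Finset.Icc (-(⌊B⌋₊ : ℤ)) ⌊B⌋₊) := by
    intro x hx
    rw [Fintype.mem_piFinset]
    intro i
    have h1 := hU x hx i
    have habs : |(x i : ℝ)| = ((x i).natAbs : ℝ) := by
      rw [Nat.cast_natAbs, Int.cast_abs]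
    rw [habs] at h1
    have h2 : (x i).natAbs ≤ ⌊B⌋₊ := Nat.le_floor h1
    rw [Finset.mem_Icc]
    omega
  have h1 := Finset.card_le_card hsub
  rw [Fintype.card_piFinset] at h1
  simp only [Int.card_Icc] at h1
  rw [Finset.prod_const, Finset.card_univ] at h1
  have h3 : ((⌊B⌋₊ : ℤ) + 1 - -(⌊B⌋₊ : ℤ)).toNat = 2 * ⌊B⌋₊ + 1 := by omega
  rw [h3] at h1
  have h4 : (U.card : ℝ) ≤ (((2 * ⌊B⌋₊ + 1) ^ Fintype.card ι : ℕ) : ℝ) := by exact_mod_cast h1
  refine h4.trans ?_
  push_cast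
  apply pow_le_pow_left₀ (by positivity)
  have := Nat.floor_le (by linarith : (0:ℝ) ≤ B)
  linarith

/-- the vector with the main block deleted -/
def rs (b : Fin r) (z : Var n → ℤ) : Var n → ℤ := fun a => if a.1 = b then 0 else z a

theorem bl_rs_self (b : Fin r) (z : Var n → ℤ) : bl (rs b z) b = 0 := by
  funext j; simp [bl, rs]

theorem bl_rs_ne {b i : Fin r} (h : i ≠ b) (z : Var n → ℤ) : bl (rs b z) i = bl z i := by
  funext j; simp [bl, rs, h]

theorem rs_ext {b : Fin r} {z z' : Var n → ℤ} (h1 : rs b z = rs b z') (h2 : bl z b = bl z' b) :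
    z = z' := by
  funext a
  obtain ⟨i, j⟩ := a
  by_cases hi : i = b
  · subst hi
    exact congrFun h2 j
  · have := congrFun (congrArg (fun x => bl x i) h1) j
    rw [bl_rs_ne hi, bl_rs_ne hi] at this
    exact this

open scoped Classical in
/-- bounding a sum over pairs by fibering over the blocks different from the main block -/
theorem fiber_tau (b : Fin r) (Ps : Finset ((Var n → ℤ) × (Var n → ℤ)))
    (τ : ((Fin (n b + 1) → ℤ) × (Fin (n b + 1) → ℤ)) → ℝ) {S₀ : ℝ} (hS₀ : 0 ≤ S₀)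
    (hT : ∀ Tl : Finset ((Fin (n b + 1) → ℤ) × (Fin (n b + 1) → ℤ)),
      (∀ q ∈ Tl, ∃ p ∈ Ps, q = (bl p.1 b, bl p.2 b)) → ∑ q ∈ Tl, τ q ≤ S₀)
    {m : ℝ} (hm : ((Ps.image (fun p => (rs b p.1, rs b p.2))).card : ℝ) ≤ m) :
    ∑ p ∈ Ps, τ (bl p.1 b, bl p.2 b) ≤ m * S₀ := by
  rw [← Finset.sum_fiberwise_of_maps_to (fun p hp => Finset.mem_image_of_mem
    (fun p => (rs b p.1, rs b p.2)) hp :
    ∀ p ∈ Ps, (rs b p.1, rs b p.2) ∈ Ps.image (fun p => (rs b p.1, rs b p.2)))]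
  have hterm : ∀ q ∈ Ps.image (fun p => (rs b p.1, rs b p.2)),
      ∑ p ∈ Ps.filter (fun p => (rs b p.1, rs b p.2) = q), τ (bl p.1 b, bl p.2 b) ≤ S₀ := by
    intro q hq
    have hinj : Set.InjOn (fun p : (Var n → ℤ) × (Var n → ℤ) => (bl p.1 b, bl p.2 b))
        (Ps.filter (fun p => (rs b p.1, rs b p.2) = q)) := by
      intro p hp p' hp' heq
      have e1 := (Finset.mem_filter.mp (Finset.mem_coe.mp hp)).2
      have e2 := (Finset.mem_filter.mp (Finset.mem_coe.mp hp')).2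
      have e3 := e1.trans e2.symm
      simp only [Prod.mk.injEq] at e3 heq
      exact Prod.ext (rs_ext e3.1 heq.1) (rs_ext e3.2 heq.2)
    rw [← Finset.sum_image (f := τ) hinj]
    apply hT
    intro q' hq'
    rw [Finset.mem_image] at hq'
    obtain ⟨p, hp, rfl⟩ := hq'
    exact ⟨p, (Finset.mem_filter.mp hp).1, rfl⟩
  refine (Finset.sum_le_sum hterm).trans ?_
  rw [Finset.sum_const, nsmul_eq_mul]
  exact mul_le_mul_of_nonneg_right hm hS₀

/-- number of pairs, fibering over the first component -/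
theorem card_pairs_le {α β : Type*} [DecidableEq α] [DecidableEq β] (Q : Finset (α × β))
    {m₁ m₂ : ℝ} (hm₂ : 0 ≤ m₂)
    (h1 : ((Q.image Prod.fst).card : ℝ) ≤ m₁)
    (h2 : ∀ x ∈ Q.image Prod.fst, (((Q.filter (fun q => q.1 = x)).image Prod.snd).card : ℝ) ≤ m₂) :
    (Q.card : ℝ) ≤ m₁ * m₂ := by
  have h3 : Q.card = ∑ x ∈ Q.image Prod.fst, (Q.filter (fun q => q.1 = x)).card :=
    Finset.card_eq_sum_card_fiberwise (fun q hq => Finset.mem_image_of_mem _ hq)
  rw [h3]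
  push_cast
  have h4 : ∀ x ∈ Q.image Prod.fst, ((Q.filter (fun q => q.1 = x)).card : ℝ) ≤ m₂ := by
    intro x hx
    refine le_trans (le_of_eq ?_) (h2 x hx)
    congr 1
    rw [Finset.card_image_of_injOn]
    intro p hp p' hp' heq
    have e1 := (Finset.mem_filter.mp (Finset.mem_coe.mp hp)).2
    have e2 := (Finset.mem_filter.mp (Finset.mem_coe.mp hp')).2
    exact Prod.ext (e1.trans e2.symm) heq
  refine (Finset.sum_le_sum h4).trans ?_
  rw [Finset.sum_const, nsmul_eq_mul]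
  exact mul_le_mul_of_nonneg_right h1 hm₂

end Pool.Agent.Y716.M
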