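import Pool.Agent.Y716.Q.Kernel

/-!
# The combinatorial part of the two-point lemma
-/

namespace Pool.Agent.Y716.M

open Pool.Agent.Y716.Q

variable {ι : Type*} [Fintype ι]

theorem kernel_comb {B a : ℝ} {x y : ι → ℤ} (hbx : Bal B a x) (hx : Sz B x)
    (hpx : Prim x) (hy : Sz B y) (ha : 1 ≤ a) (haB : a ≤ B)
    {g : ℤ} (hg0 : g ≠ 0) (hg : ∀ i j, g ∣ mn x y i j)
    (hgmax : ∀ D, (∀ i j, D ∣ mn x y i j) → D ∣ g) {μ : ℝ} (hμ0 : 0 < μ)
    (hμ : ∃ i j, μ ≤ |(mn x y i j : ℝ)|) {Lg : ℝ}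
    (hLg : ∀ s : ℕ, (s : ℝ) ≤ 15 * (Fintype.card ι) ^ 2 * a * B → (Nat.log 2 s : ℝ) ≤ Lg)
    {v : ℤ} (hv : g ∣ v) :
    ∃ (m : ℕ) (L₀ : ι → ℤ) (L : Fin m → ι → ℤ) (c₀ : ℤ) (c : Fin m → ℤ), (m : ℝ) ≤ Lg ∧
      (∀ i, |(L₀ i : ℝ)| ≤ 15 * Fintype.card ι * a) ∧
      (∀ j i, |(L j i : ℝ)| ≤ 15 * Fintype.card ι * a) ∧
      ∑ i, L₀ i * x i = 0 ∧ (∀ j, ∑ i, L j i * x i = 0) ∧
      c₀ * (∑ i, L₀ i * y i) + ∑ j, c j * (∑ i, L j i * y i) = v ∧
      |(c₀ : ℝ)| ≤ 8 * B * |(v : ℝ)| / (μ * a) + m * (15 * (Fintype.card ι) ^ 2 * a * B) ∧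
      ∀ j, |(c j : ℝ)| ≤ 15 * (Fintype.card ι) ^ 2 * a * B := by
  classical
  obtain ⟨r₀, hr₀⟩ := hx.2
  have hk1 : (1 : ℝ) ≤ Fintype.card ι := by
    have : 0 < Fintype.card ι := Fintype.card_pos_iff.mpr ⟨r₀⟩
    exact_mod_cast this
  obtain ⟨k, hk⟩ : ∃ k : ℝ, (Fintype.card ι : ℝ) = k := ⟨_, rfl⟩
  rw [hk] at hk1 hLg
  have hB : 1 ≤ B := ha.trans haB
  have hg1 : 1 ≤ |(g : ℝ)| := by
    have : 1 ≤ |g| := Int.one_le_abs hg0
    exact_mod_cast this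
  have hg1' : 0 < |(g : ℝ)| := by linarith
  obtain ⟨a₁, ha₁⟩ : ∃ a₁ : ℝ, 15 * k * a = a₁ := ⟨_, rfl⟩
  have ha₁0 : 0 ≤ a₁ := by rw [← ha₁]; positivity
  set V : Set ℤ := {w | ∃ l : ι → ℤ, (∀ i, |(l i : ℝ)| ≤ a₁) ∧ ∑ i, l i * x i = 0 ∧
    ∑ i, l i * y i = g * w} with hVdef
  -- upper bound
  have hVb : ∀ w ∈ V, |(w : ℝ)| ≤ k * (a₁ * B) := by
    rintro w ⟨l, hl1, hl2, hl3⟩
    have h1 := abs_dot_le hk hl1 hy.1 ha₁0
    rw [hl3] at h1
    push_cast at h1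
    rw [abs_mul] at h1
    have h2 : 0 ≤ |(w : ℝ)| := abs_nonneg _
    nlinarith
  have hVmem : ∀ l : ι → ℤ, (∀ i, |(l i : ℝ)| ≤ a₁) → ∑ i, l i * x i = 0 →
      ∃ w ∈ V, ∑ i, l i * y i = g * w := by
    intro l hl1 hl2
    obtain ⟨w, hw⟩ := dvd_dot_of_orth hpx hg hl2
    exact ⟨w, ⟨l, hl1, hl2, hw⟩, hw⟩
  -- the number of digits
  obtain ⟨N, hN1, hN2⟩ : ∃ N : ℕ, 2 * B ≤ 2 ^ N * a ∧ 2 ^ N * a ≤ 4 * B := by
    obtain ⟨n, hn1, hn2⟩ := exists_nat_pow_near (x := B / a) (y := (2 : ℝ))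
      (by rw [le_div_iff₀ (by linarith)]; linarith) (by norm_num)
    refine ⟨n + 2, ?_, ?_⟩
    · rw [div_lt_iff₀ (by linarith)] at hn2
      rw [pow_succ] at hn2 ⊢
      rw [pow_succ]
      linarith
    · rw [le_div_iff₀ (by linarith)] at hn1
      rw [pow_succ, pow_succ]
      linarith
  have hkos : ∀ i0 j0, ∃ W : ℕ → ℤ, (∀ j, W j ∈ V) ∧
      mn x y i0 j0 = g * ∑ j ∈ Finset.range (N + 1), 2 ^ j * W j := by
    intro i0 j0
    set l : ι → ℤ := fun i => (if i = j0 then x i0 else 0) - (if i = i0 then x j0 else 0) with hl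
    have hdot : ∀ z : ι → ℤ, ∑ i, l i * z i = x i0 * z j0 - x j0 * z i0 := by
      intro z
      have : ∀ i, l i * z i = (if i = j0 then x i0 * z i else 0) -
          (if i = i0 then x j0 * z i else 0) := by
        intro i
        rw [hl]
        simp only [sub_mul, ite_mul, zero_mul]
      simp only [this, Finset.sum_sub_distrib, Finset.sum_ite_eq', Finset.mem_univ, if_true]
    have hlx : ∑ i, l i * x i = 0 := by rw [hdot]; ring
    have hlb : ∀ i, |(l i : ℝ)| ≤ 2 * B := by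
      intro i
      rw [hl]
      push_cast
      refine (abs_sub _ _).trans ?_
      have h1 : |(if i = j0 then (x i0 : ℝ) else 0)| ≤ B := by
        split_ifs
        · exact hx.1 _
        · simpa using (by linarith : (0:ℝ) ≤ B)
      have h2 : |(if i = i0 then (x j0 : ℝ) else 0)| ≤ B := by
        split_ifs
        · exact hx.1 _
        · simpa using (by linarith : (0:ℝ) ≤ B)
      linarith
    obtain ⟨L, hL1, hL2, hL3⟩ := hbx.generation hx hB ha N l (fun i => by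
      refine (hlb i).trans (hN1.trans ?_)
      have : 0 ≤ 14 * (Fintype.card ι : ℝ) * a := by positivity
      linarith) hlx
    choose W hW1 hW2 using fun j => hVmem (L j) (fun i => by
      have := hL1 j i
      rwa [hk, ha₁] at this) (hL2 j)
    refine ⟨W, hW1, ?_⟩
    have h1 : mn x y i0 j0 = ∑ i, l i * y i := by rw [hdot]; rfl
    rw [h1, Finset.mul_sum]
    have h2 : ∀ i, l i * y i = ∑ j ∈ Finset.range (N + 1), 2 ^ j * (L j i * y i) := by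
      intro i
      rw [hL3 i, Finset.sum_mul]
      exact Finset.sum_congr rfl (fun j _ => by ring)
    simp only [h2]
    rw [Finset.sum_comm]
    refine Finset.sum_congr rfl (fun j _ => ?_)
    rw [← Finset.mul_sum, hW2 j]
    ring
  have hgcd : ∀ D : ℤ, (∀ w ∈ V, D ∣ w) → IsUnit D := by
    intro D hD
    have h1 : ∀ i j, g * D ∣ mn x y i j := by
      intro i j
      obtain ⟨W, hW1, hW2⟩ := hkos i j
      rw [hW2]
      exact mul_dvd_mul_left g (Finset.dvd_sum (fun k _ => Dvd.dvd.mul_left (hD _ (hW1 k)) _))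
    obtain ⟨c, hc⟩ := hgmax _ h1
    rw [isUnit_iff_exists_inv]
    refine ⟨c, ?_⟩
    have : g * (D * c) = g * 1 := by rw [mul_one, ← mul_assoc]; exact hc.symm
    exact mul_left_cancel₀ hg0 this
  -- maximal element
  have hfin : V.Finite := by
    have hsub : V ⊆ Set.Icc (-⌈k * (a₁ * B)⌉) ⌈k * (a₁ * B)⌉ := by
      intro w hw
      have h1 := abs_le.mp (hVb w hw)
      have h2 := Int.le_ceil (k * (a₁ * B))
      rw [Set.mem_Icc]
      constructor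
      · have : -(⌈k * (a₁ * B)⌉ : ℝ) ≤ (w : ℝ) := by linarith [h1.1]
        exact_mod_cast this
      · have : (w : ℝ) ≤ (⌈k * (a₁ * B)⌉ : ℝ) := by linarith [h1.2]
        exact_mod_cast this
    exact (Set.finite_Icc _ _).subset hsub
  have hne : hfin.toFinset.Nonempty :=
    ⟨0, by rw [Set.Finite.mem_toFinset]; exact ⟨fun _ => 0, fun _ => by simpa using ha₁0, by simp, by simp⟩⟩
  obtain ⟨s₀, hs₀, hmax⟩ := Finset.exists_max_image hfin.toFinset (fun s => |s|) hne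
  rw [Set.Finite.mem_toFinset] at hs₀
  have hmax' : ∀ s ∈ V, |s| ≤ |s₀| := fun s hs => hmax s (by rwa [Set.Finite.mem_toFinset])
  -- lower bound for s₀
  have hs₀low : μ * a ≤ 8 * B * (|(g : ℝ)| * |(s₀ : ℝ)|) := by
    obtain ⟨i0, j0, hij⟩ := hμ
    obtain ⟨W, hW1, hW2⟩ := hkos i0 j0
    have h1 : |(mn x y i0 j0 : ℝ)| ≤ |(g : ℝ)| * (2 ^ (N + 1) * |(s₀ : ℝ)|) := by
      rw [hW2]
      push_cast
      rw [abs_mul]
      apply mul_le_mul_of_nonneg_left _ (abs_nonneg _)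
      refine (Finset.abs_sum_le_sum_abs _ _).trans ?_
      have h2 : ∀ j ∈ Finset.range (N + 1), |(2 : ℝ) ^ j * (W j : ℝ)| ≤ 2 ^ j * |(s₀ : ℝ)| := by
        intro j _
        rw [abs_mul, abs_of_pos (by positivity : (0:ℝ) < 2 ^ j)]
        apply mul_le_mul_of_nonneg_left _ (by positivity)
        exact_mod_cast hmax' _ (hW1 j)
      refine (Finset.sum_le_sum h2).trans ?_
      rw [← Finset.sum_mul]
      apply mul_le_mul_of_nonneg_right _ (abs_nonneg _)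
      have h3 : ∑ j ∈ Finset.range (N + 1), (2 : ℝ) ^ j = 2 ^ (N + 1) - 1 := by
        rw [geom_sum_eq (by norm_num)]; norm_num
      rw [h3]; linarith
    have h4 : μ * a ≤ |(g : ℝ)| * (2 ^ (N + 1) * |(s₀ : ℝ)|) * a :=
      mul_le_mul_of_nonneg_right (hij.trans h1) (by linarith)
    have h5 : |(g : ℝ)| * (2 ^ (N + 1) * |(s₀ : ℝ)|) * a =
        2 * (2 ^ N * a) * (|(g : ℝ)| * |(s₀ : ℝ)|) := by
      rw [pow_succ]; ring
    rw [h5] at h4
    have h6 : 0 ≤ |(g : ℝ)| * |(s₀ : ℝ)| := by positivity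
    nlinarith
  have hs₀pos : 0 < |(s₀ : ℝ)| := by
    by_contra hcon
    have h0 : |(s₀ : ℝ)| = 0 := le_antisymm (not_lt.mp hcon) (abs_nonneg _)
    rw [h0, mul_zero, mul_zero] at hs₀low
    have : 0 < μ * a := by positivity
    linarith
  have hs₀0 : s₀ ≠ 0 := by
    intro h; rw [h] at hs₀pos; simp at hs₀pos
  have hs₀up := hVb s₀ hs₀
  obtain ⟨v', hv'⟩ := hv
  obtain ⟨n, t, c, c₀, hn, ht, hc, hvc, hc₀⟩ := exists_int_combo V s₀ hs₀ hs₀0 hmax' hgcd v'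
  have hnLg : (n : ℝ) ≤ Lg := by
    have h1 : (Nat.log 2 s₀.natAbs : ℝ) ≤ Lg := by
      apply hLg
      have : ((s₀.natAbs : ℕ) : ℝ) = |(s₀ : ℝ)| := by rw [Nat.cast_natAbs, Int.cast_abs]
      rw [this]
      refine hs₀up.trans (le_of_eq ?_)
      rw [← ha₁]; ring
    refine le_trans ?_ h1
    exact_mod_cast hn
  obtain ⟨L₀, hL₀1, hL₀2, hL₀3⟩ := hs₀
  choose L hL1 hL2 hL3 using ht
  have hs₀up' : |(s₀ : ℝ)| ≤ 15 * k ^ 2 * a * B := by
    refine hs₀up.trans (le_of_eq ?_)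
    rw [← ha₁]; ring
  refine ⟨n, L₀, L, c₀, c, hnLg, ?_, ?_, hL₀2, hL2, ?_, ?_, ?_⟩
  · intro i
    rw [hk, ha₁]; exact hL₀1 i
  · intro j i
    rw [hk, ha₁]; exact hL1 j i
  · rw [hL₀3, hv', hvc, mul_add, Finset.mul_sum]
    simp only [hL3]
    have : ∀ j, c j * (g * t j) = g * (c j * t j) := fun j => by ring
    simp only [this]
    ring
  · rw [hk]
    have h1 : |(c₀ : ℝ)| * |(s₀ : ℝ)| ≤ |(v' : ℝ)| + n * |(s₀ : ℝ)| ^ 2 := by
      exact_mod_cast hc₀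
    have h2 : |(v : ℝ)| = |(g : ℝ)| * |(v' : ℝ)| := by
      rw [hv']; push_cast; rw [abs_mul]
    have h3 : |(v' : ℝ)| ≤ (8 * B * |(v : ℝ)| / (μ * a)) * |(s₀ : ℝ)| := by
      rw [div_mul_eq_mul_div, le_div_iff₀ (by positivity), h2]
      have h5 := mul_le_mul_of_nonneg_left hs₀low (abs_nonneg (v' : ℝ))
      nlinarith
    have h4 : (n : ℝ) * |(s₀ : ℝ)| ^ 2 ≤ (n * (15 * k ^ 2 * a * B)) * |(s₀ : ℝ)| := by
      have h6 : (0:ℝ) ≤ n := Nat.cast_nonneg n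
      have h7 := mul_le_mul_of_nonneg_left hs₀up' (by positivity : 0 ≤ (n:ℝ) * |(s₀ : ℝ)|)
      nlinarith
    have h5 : |(c₀ : ℝ)| * |(s₀ : ℝ)| ≤ (8 * B * |(v : ℝ)| / (μ * a) +
        n * (15 * k ^ 2 * a * B)) * |(s₀ : ℝ)| := by
      rw [add_mul]
      linarith
    exact le_of_mul_le_mul_right h5 hs₀pos
  · intro j
    rw [hk]
    have h1 : |(c j : ℝ)| ≤ |(s₀ : ℝ)| := by exact_mod_cast hc j
    exact h1.trans hs₀up'

end Pool.Agent.Y716.M
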