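import Pool.Agent.Y716.M.Moment
import Pool.Agent.Y716.Q.CoreNum
import Pool.Agent.Y804.MC.Test

/-!
# The core of the class theorem, several blocks
-/

namespace Pool.Agent.Y716.M

open Pool.Agent.Y716.Q Pool.Agent.Y510.M6 Pool.Agent.Y804.MC

variable {r : ℕ}

open scoped Classical in
/-- the conclusion of the second moment computation -/
def SMM (n d : Fin r → ℕ) (b : Fin r) (De : ℕ) (Ct : ℝ) : Prop :=
  ∀ (w : ℕ) (_ : 1 ≤ w) (fc : MvPolynomial (Var n) ℤ) (S J : ℕ)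
    (xc : Var n → ℤ)
    (Λ : Fin r → ℝ) (ξ : Var n → ℝ) (a₀ : Var n) (ρ ρ' L a A A₂ Δ κ : ℝ)
    (_ : Scl b d (fun i => 2 * Λ i) L a) (_ : 0 < κ) (_ : 1 ≤ κ * L) (_ : 2 * L ^ 2 ≤ 2 * Λ b)
    (Lg : ℝ) (_ : 0 ≤ Lg)
    (_ : ∀ s : ℕ, (s : ℝ) ≤ 15 * (Fintype.card (Var n)) ^ 2 * a * (2 * Λ b) →
      (Nat.log 2 s : ℝ) ≤ Lg)
    (u : (Var n → ℤ) → ℤ)
    (_ : ∀ x ∈ boxM Λ ξ a₀ ρ ρ' S xc, MvPolynomial.eval x fc = -(((S * J : ℕ) : ℤ) * u x))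
    (T K : ℕ)
    (_ : K = (∏ p ∈ (Finset.range (w + 1)).filter Nat.Prime, p) ^ T)
    (_ : 0 ≤ Δ) (_ : K * (2 ^ T : ℕ) ≤ Δ)
    (_ : A + (c1pt (Fintype.card (Var n)) (De + 1) + C2 (Fintype.card (Var n)) De *
      (1 + (monsM n d).card * c1pt (Fintype.card (Var n)) (De + 1)) / κ) *
      (Δ / (∏ i, (2 * Λ i) ^ d i) + K * E1 (Fintype.card (Var n)) L a (Ds b d)) +
      C2 (Fintype.card (Var n)) De * E2 (Fintype.card (Var n)) L a Lg (Ds b d) ≤ A₂)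
    (_ : 2 * c1pt (Fintype.card (Var n)) (De + 1) * E1 (Fintype.card (Var n)) L a (Ds b d) ≤ A)
    (_ : 2 * C2 (Fintype.card (Var n)) De * E2 (Fintype.card (Var n)) L a Lg (Ds b d) ≤ A)
    (R₁ E : ℝ) (R₂ : ℕ → ℝ) (_ : ∀ D, 0 ≤ R₂ D) (_ : 0 ≤ E)
    (_ : ∀ g ∈ formsM n d A₂,
      ((locSetM Λ ξ a₀ ρ ρ' S J xc (mem' fc S J g) K 1 0 ((S * J : ℕ) * Δ)).card : ℝ) ≤ R₁)
    (_ : ∀ D : ℕ, 0 < D → D ≤ 2 ^ T → (∀ q : ℕ, q.Prime → q ≤ w → ¬ q ∣ D) →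
      ∀ g ∈ formsM n d A₂, ∀ ζ,
      ((locSetM Λ ξ a₀ ρ ρ' S J xc (mem' fc S J g) K D ζ ((S * J : ℕ) * Δ)).card : ℝ) ≤ R₂ D)
    (_ : ∀ D : ℕ, 0 < D → D ≤ 2 ^ T → (formsM n d A₂).card * (R₁ * ((D : ℝ) ^ r * R₂ D)) ≤
      (formsM n d A).card * (E * (1 / (D : ℝ) ^ 2)) *
        ((2 * Δ / K - 1) * (2 * Δ / (K * D) - 1))),
    ∑ p ∈ (testM b a Λ ξ a₀ ρ ρ' S xc) ×ˢ (testM b a Λ ξ a₀ ρ ρ' S xc), (c2M d A u p : ℝ) ≤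
      (formsM n d A).card * E * (1 + 1 / w) +
      Ct * (formsM n d (3 * A)).card * VolM n (fun i => 2 * Λ i) ^ 2 /
        (A * ∏ i, (2 * Λ i) ^ d i) ^ 2 *
        ((1 + a ^ 2 / (2 * Λ b) * (1 + Real.log (2 * Λ b))) * (1 / L ^ 2 + κ) +
          L ^ 2 / (2 * Λ b) ^ 2 + 1 / (κ * 2 ^ T)) +
      Ct * (formsM n d (2 * A)).card * (testM b a Λ ξ a₀ ρ ρ' S xc).card /
        (A * ∏ i, (2 * Λ i) ^ d i)

theorem exists_SMM (n d : Fin r → ℕ) (b : Fin r) (hr : 2 ≤ r) (hnb : 2 ≤ n b)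
    (hn : ∀ i, 1 ≤ n i) (De : ℕ) (hDe : ∑ i, d i = De + 2) :
    ∃ Ct : ℝ, 0 < Ct ∧ SMM n d b De Ct :=
  second_momentM n d b hr hnb hn De hDe

theorem core_EDM {k r : ℕ} (hk : r + 3 ≤ k) {τ R Δ G G₂ : ℝ} {K D : ℕ} (hK : 0 < K) (hD : 0 < D)
    (hτ0 : 0 < τ) (hτ1 : τ ≤ 1 / 2) (hR : 0 < R) (hΔ : 0 < Δ) (hG : 0 < G)
    (hG₂ : G₂ ≤ (1 + τ) * G) (h1 : ((K * D : ℕ) : ℝ) ≤ τ * Δ) :
    G₂ * (((1 + τ) ^ k / (1 - τ) * R / (K * ((1 : ℕ) : ℝ) ^ k)) *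
      ((D:ℝ) ^ r * ((1 + τ) ^ k / (1 - τ) * R / (K * (D : ℝ) ^ k)))) ≤
    G * (((1 + τ) ^ (2 * k + 1) / (1 - τ) ^ 4 * (R / (2 * Δ)) ^ 2) * (1 / (D : ℝ) ^ 2)) *
        ((2 * Δ / K - 1) * (2 * Δ / (K * D) - 1)) := by
  have hKr : (0:ℝ) < K := by exact_mod_cast hK
  have hDr : (0:ℝ) < D := by exact_mod_cast hD
  have hD1 : (1:ℝ) ≤ D := by exact_mod_cast hD
  have h1τ : 0 < 1 - τ := by linarith
  push_cast at h1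
  have hKD : (K : ℝ) ≤ K * D := le_mul_of_one_le_right hKr.le hD1
  have e1 : (1 - τ) * (2 * Δ / K) ≤ 2 * Δ / K - 1 := by
    have : 1 ≤ τ * (2 * Δ / K) := by
      rw [← mul_div_assoc, le_div_iff₀ hKr]
      have : 0 < τ * Δ := by positivity
      linarith
    linarith
  have e2 : (1 - τ) * (2 * Δ / (K * D)) ≤ 2 * Δ / (K * D) - 1 := by
    have : 1 ≤ τ * (2 * Δ / (K * D)) := by
      rw [← mul_div_assoc, le_div_iff₀ (by positivity)]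
      have : 0 < τ * Δ := by positivity
      linarith
    linarith
  have e3 := mul_le_mul e1 e2 (by positivity) (le_trans (by positivity) e1)
  have e4 := mul_le_mul_of_nonneg_left e3 (by positivity :
    0 ≤ G * (((1 + τ) ^ (2 * k + 1) / (1 - τ) ^ 4 * (R / (2 * Δ)) ^ 2) * (1 / (D : ℝ) ^ 2)))
  refine le_trans ?_ e4
  have e5 := mul_le_mul_of_nonneg_right hG₂ (by positivity :
    0 ≤ (((1 + τ) ^ k / (1 - τ) * R / (K * ((1 : ℕ) : ℝ) ^ k)) *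
      ((D:ℝ) ^ r * ((1 + τ) ^ k / (1 - τ) * R / (K * (D : ℝ) ^ k)))))
  refine e5.trans ?_
  obtain ⟨m, rfl⟩ : ∃ m, k = m + (r + 3) := ⟨k - (r + 3), by omega⟩
  have e6 : (1 + τ) * G * (((1 + τ) ^ (m + (r + 3)) / (1 - τ) * R /
      (K * ((1 : ℕ) : ℝ) ^ (m + (r + 3)))) *
      ((D:ℝ) ^ r * ((1 + τ) ^ (m + (r + 3)) / (1 - τ) * R / (K * (D : ℝ) ^ (m + (r + 3)))))) =
      (G * (1 + τ) ^ (2 * (m + (r + 3)) + 1) / (1 - τ) ^ 2 * R ^ 2 / (K ^ 2 * (D:ℝ) ^ 3)) *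
        (1 / (D:ℝ) ^ m) := by
    rw [show 2 * (m + (r + 3)) + 1 = (m + (r + 3)) + (m + (r + 3)) + 1 by ring,
      pow_succ (1 + τ) ((m + (r + 3)) + (m + (r + 3))),
      pow_add (1 + τ) (m + (r + 3)) (m + (r + 3)), pow_add (D:ℝ) m (r + 3), pow_add (D:ℝ) r 3]
    simp only [Nat.cast_one, one_pow, mul_one]
    field_simp
  have e7 : G * ((1 + τ) ^ (2 * (m + (r + 3)) + 1) / (1 - τ) ^ 4 * (R / (2 * Δ)) ^ 2 *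
      (1 / (D:ℝ) ^ 2)) * ((1 - τ) * (2 * Δ / K) * ((1 - τ) * (2 * Δ / (K * D)))) =
      (G * (1 + τ) ^ (2 * (m + (r + 3)) + 1) / (1 - τ) ^ 2 * R ^ 2 / (K ^ 2 * (D:ℝ) ^ 3)) * 1 := by
    field_simp
  rw [e6, e7]
  apply mul_le_mul_of_nonneg_left _ (by positivity)
  rw [div_le_one (by positivity)]
  exact one_le_pow₀ hD1

theorem card_formsM_upper {n : Fin r → ℕ} (d : Fin r → ℕ) {A R c : ℝ} (hA : 1 ≤ A) (hR : 0 ≤ R)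
    (hc : 0 ≤ c) (h : 2 * R + 1 ≤ c * (2 * A - 1)) :
    ((formsM n d R).card : ℝ) ≤ c ^ (monsM n d).card * (formsM n d A).card := by
  rw [card_formsM d hR, card_formsM d (by linarith)]
  push_cast
  rw [← mul_pow]
  apply pow_le_pow_left₀ (by positivity)
  have h1 := Nat.floor_le hR
  have h2 := Nat.sub_one_lt_floor A
  nlinarith

theorem card_formsM_lower {n : Fin r → ℕ} (d : Fin r → ℕ) {A R c : ℝ} (hA : 0 ≤ A) (hR : 0 ≤ R)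
    (hc : 0 ≤ c) (h : c * (2 * A + 1) ≤ 2 * R - 1) :
    c ^ (monsM n d).card * ((formsM n d A).card : ℝ) ≤ (formsM n d R).card := by
  rw [card_formsM d hR, card_formsM d hA]
  push_cast
  rw [← mul_pow]
  apply pow_le_pow_left₀ (by positivity)
  have h1 := Nat.floor_le hA
  have h2 := Nat.sub_one_lt_floor R
  nlinarith

theorem card_formsM_pos {n : Fin r → ℕ} (d : Fin r → ℕ) {A : ℝ} (hA : 0 ≤ A) :
    0 < (formsM n d A).card := by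
  rw [card_formsM d hA]; positivity

/-- first error term -/
theorem core_t1M {Ct G G₃ M₄ V6 V' N6 AΘ AΘ' W ε c₀ ϱ β : ℝ} (hCt : 0 < Ct) (hG : 0 < G)
    (hG₃ : G₃ ≤ M₄ * G) (hM₄ : 0 < M₄) (hV : V6 = N6 * V') (hV' : 0 < V') (hN6 : 0 < N6)
    (hΘ : AΘ' ≤ AΘ) (hΘ' : 0 < AΘ') (hW0 : 0 ≤ W) (hϱ : c₀ * V' ≤ AΘ' * ϱ) (hβ : 1 / 2 ≤ β)
    (hε : 0 < ε) (hc₀ : 0 < c₀)
    (hW : 16 * Ct * M₄ * N6 ^ 2 * W ≤ ε * c₀ ^ 2) :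
    Ct * G₃ * V6 ^ 2 / AΘ ^ 2 * W ≤ ε / 4 * ((β * ϱ) ^ 2 * G) := by
  have hϱ0 : 0 < ϱ := by
    have h1 : 0 < AΘ' * ϱ := lt_of_lt_of_le (by positivity) hϱ
    exact (mul_pos_iff_of_pos_left hΘ').mp h1
  have h1 : Ct * G₃ * V6 ^ 2 / AΘ ^ 2 * W ≤ Ct * (M₄ * G) * V6 ^ 2 / AΘ' ^ 2 * W := by
    apply mul_le_mul_of_nonneg_right _ hW0
    apply div_le_div₀ (by positivity) _ (by positivity) _
    · apply mul_le_mul_of_nonneg_right _ (by positivity)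
      exact mul_le_mul_of_nonneg_left hG₃ hCt.le
    · exact pow_le_pow_left₀ hΘ'.le hΘ 2
  refine h1.trans ?_
  have h2 : (c₀ * V' / AΘ') ^ 2 ≤ ϱ ^ 2 := by
    apply pow_le_pow_left₀ (by positivity)
    rw [div_le_iff₀ hΘ']; linarith
  have h3 : 1 / 4 * ϱ ^ 2 ≤ (β * ϱ) ^ 2 := by
    have h4 : 1 / 2 * ϱ ≤ β * ϱ := mul_le_mul_of_nonneg_right hβ hϱ0.le
    have h5 := pow_le_pow_left₀ (by positivity) h4 2
    have h6 : (1 / 2 * ϱ) ^ 2 = 1 / 4 * ϱ ^ 2 := by ring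
    linarith
  have h4 : ε / 4 * ((1 / 4 * (c₀ * V' / AΘ') ^ 2) * G) ≤ ε / 4 * ((β * ϱ) ^ 2 * G) := by
    apply mul_le_mul_of_nonneg_left _ (by positivity)
    apply mul_le_mul_of_nonneg_right _ hG.le
    linarith
  refine le_trans ?_ h4
  have h5 : Ct * (M₄ * G) * V6 ^ 2 / AΘ' ^ 2 * W =
      (16 * Ct * M₄ * N6 ^ 2 * W) * (G * V' ^ 2 / AΘ' ^ 2 / 16) := by
    rw [hV]; ring
  have h6 : ε / 4 * ((1 / 4 * (c₀ * V' / AΘ') ^ 2) * G) =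
      (ε * c₀ ^ 2) * (G * V' ^ 2 / AΘ' ^ 2 / 16) := by
    rw [div_pow, mul_pow]; ring
  rw [h5, h6]
  exact mul_le_mul_of_nonneg_right hW (by positivity)

/-- second error term -/
theorem core_t2M {Ct G G₂ M₃ V' N6 AΘ AΘ' ε c₀ ϱ β Xc : ℝ} (hCt : 0 < Ct) (hG : 0 < G)
    (hG₂ : G₂ ≤ M₃ * G) (hG₂0 : 0 ≤ G₂) (hM₃ : 0 < M₃) (hX : Xc ≤ N6 * V') (hX0 : 0 ≤ Xc)
    (hV' : 0 < V') (hN6 : 0 < N6)
    (hΘ : AΘ' ≤ AΘ) (hΘ' : 0 < AΘ') (hϱ : c₀ * V' ≤ AΘ' * ϱ) (hβ : 1 / 2 ≤ β)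
    (hε : 0 < ε) (hc₀ : 0 < c₀)
    (hV : 16 * Ct * M₃ * N6 * AΘ' ≤ ε * c₀ ^ 2 * V') :
    Ct * G₂ * Xc / AΘ ≤ ε / 4 * ((β * ϱ) ^ 2 * G) := by
  have hϱ0 : 0 < ϱ := by
    have h1 : 0 < AΘ' * ϱ := lt_of_lt_of_le (by positivity) hϱ
    exact (mul_pos_iff_of_pos_left hΘ').mp h1
  have h1 : Ct * G₂ * Xc / AΘ ≤ Ct * (M₃ * G) * (N6 * V') / AΘ' := by
    apply div_le_div₀ (by positivity) _ hΘ' hΘ
    apply mul_le_mul _ hX hX0 (by positivity)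
    exact mul_le_mul_of_nonneg_left hG₂ hCt.le
  refine h1.trans ?_
  have h2 : (c₀ * V' / AΘ') ^ 2 ≤ ϱ ^ 2 := by
    apply pow_le_pow_left₀ (by positivity)
    rw [div_le_iff₀ hΘ']; linarith
  have h3 : 1 / 4 * ϱ ^ 2 ≤ (β * ϱ) ^ 2 := by
    have h4 : 1 / 2 * ϱ ≤ β * ϱ := mul_le_mul_of_nonneg_right hβ hϱ0.le
    have h5 := pow_le_pow_left₀ (by positivity) h4 2
    have h6 : (1 / 2 * ϱ) ^ 2 = 1 / 4 * ϱ ^ 2 := by ring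
    linarith
  have h4 : ε / 4 * ((1 / 4 * (c₀ * V' / AΘ') ^ 2) * G) ≤ ε / 4 * ((β * ϱ) ^ 2 * G) := by
    apply mul_le_mul_of_nonneg_left _ (by positivity)
    apply mul_le_mul_of_nonneg_right _ hG.le
    linarith
  refine le_trans ?_ h4
  have h5 : Ct * (M₃ * G) * (N6 * V') / AΘ' =
      (16 * Ct * M₃ * N6 * AΘ') * (G * V' / AΘ' ^ 2 / 16) := by
    field_simp
  have h6 : ε / 4 * ((1 / 4 * (c₀ * V' / AΘ') ^ 2) * G) =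
      (ε * c₀ ^ 2 * V') * (G * V' / AΘ' ^ 2 / 16) := by
    rw [div_pow, mul_pow]; ring
  rw [h5, h6]
  exact mul_le_mul_of_nonneg_right hV (by positivity)

end Pool.Agent.Y716.M
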