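import Pool.Agent.Y716.M.Core

/-!
# The core of the class theorem, several blocks: final assembly
-/

namespace Pool.Agent.Y716.M

open Pool.Agent.Y716.Q Pool.Agent.Y510.M6 Pool.Agent.Y804.MC

variable {r : ℕ}

open scoped Classical in
/-- The core of the class theorem. -/
theorem class_coreM {n d : Fin r → ℕ} {b : Fin r} (hn : ∀ i, 1 ≤ n i)
    {De : ℕ} {N₀ M : ℕ} (hN₀ : Fintype.card (Var n) = N₀) (hN₀r : r + 3 ≤ N₀)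
    (hM : (monsM n d).card = M)
    {c c' Ct : ℝ} (hc : c1pt N₀ (De + 1) = c) (hc' : C2 N₀ De = c') (hc0 : 0 < c)
    (hDe : ∑ i, d i = De + 2)
    (hCt0 : 0 < Ct) (hCt : SMM n d b De Ct)
    {ε τ τ₂ c₀ : ℝ} (hε : 0 < ε)
    (hτ0 : 0 < τ) (hτ1 : τ ≤ 1 / 2) (hb1 : 1 / 2 ≤ (1 - τ) / (1 + τ) * bfun N₀ τ)
    (hb0 : 0 < bfun N₀ τ) (hτF : (1 + τ) ^ (2 * N₀ + 1) / (1 - τ) ^ 4 * (1 + τ) ≤
      (1 + ε / 2) * ((1 - τ) / (1 + τ) * bfun N₀ τ) ^ 2)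
    {w : ℕ} (hw1 : 1 ≤ w) (hwτ : (r : ℝ) / (w : ℝ) ≤ τ) (hr1 : 1 ≤ r)
    (hτ₂0 : 0 < τ₂) (hτ₂1 : τ₂ ≤ 1 / 4) (hτ₂2 : (1 + 2 * τ₂) ^ M ≤ 1 + τ)
    (hτ₂3 : 1 - τ ≤ (1 - 2 * τ₂) ^ M) (hc₀ : 0 < c₀)
    {fc : MvPolynomial (Var n) ℤ} {S J : ℕ} {xc v : Var n → ℤ} {ξ : Var n → ℝ} {a₀ : Var n}
    {ρ ρ' σ D₀ Δ₀ L a A κ Lg Δ Δ' ϱ : ℝ} {Λ : Fin r → ℝ}
    (hP : PDataM w fc S J xc v) (hρ0 : 0 < ρ) (hρρ' : ρ ≤ ρ') (hρ'2 : ρ' ≤ 1 / 2)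
    (hξ : ∀ a, |ξ a| ≤ 1) (hξr : Norm1 ξ) (hσ : |σ| = 1) (hD₀0 : 0 < D₀)
    (hΛ : ∀ i, 1 ≤ Λ i) (hs : Scl b d (fun i => 2 * Λ i) L a) (hκ : 0 < κ) (hκL : 1 ≤ κ * L)
    (hLB : 2 * L ^ 2 ≤ 2 * Λ b) (hLg0 : 0 ≤ Lg)
    (hLg : ∀ s : ℕ, (s : ℝ) ≤ 15 * (N₀ : ℝ) ^ 2 * a * (2 * Λ b) → (Nat.log 2 s : ℝ) ≤ Lg)
    (hmemS : ∀ A₃ : ℝ, A₃ ≤ 2 * A → ∀ g ∈ formsM n d A₃,
      SlopeM σ ((1 - τ) * D₀) ((1 + τ) * D₀) Δ₀ Λ ξ a₀ ρ ρ' (mem' fc S J g))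
    {K T N' : ℕ} (hK : K = (∏ p ∈ (Finset.range (w + 1)).filter Nat.Prime, p) ^ T) (hK0 : 0 < K)
    (hΔ0 : 0 < Δ) (hΔ'0 : 0 < Δ') (hΔΔ₀ : ((S * J : ℕ) : ℝ) * Δ ≤ Δ₀)
    (hΔ'Δ₀ : ((S * J : ℕ) : ℝ) * Δ' ≤ Δ₀)
    {X : Var n → ℝ} (hX : ∀ a, X a = 2 * ρ * Λ a.1 / S)
    {R R' : ℝ} (hR : (∏ a ∈ Finset.univ.erase a₀, X a) *
      (2 * (((S * J : ℕ) : ℝ) * Δ) / (D₀ * S)) = R)
    (hR' : (∏ a ∈ Finset.univ.erase a₀, X a) *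
      (2 * (((S * J : ℕ) : ℝ) * Δ') / (D₀ * S)) = R')
    (hRϱ : R / (2 * Δ) = ϱ) (hR'ϱ : R' / (2 * Δ') = ϱ) (hR0 : 0 < R) (hR'0 : 0 < R')
    (hX1 : ∀ a, ((K * 2 ^ T : ℕ) : ℝ) ≤ τ * X a)
    (hX2 : ((K * 2 ^ T : ℕ) : ℝ) ≤ τ * (2 * (((S * J : ℕ) : ℝ) * Δ) / (D₀ * S)))
    (hX3 : ∀ a, (N' : ℝ) ≤ τ * X a)
    (hX4 : 2 * (N' : ℝ) ≤ τ * (2 * (((S * J : ℕ) : ℝ) * Δ') / (D₀ * S))) (hN'1 : 1 ≤ N')
    (h3 : r * (∏ i, (6 * Λ i) ^ (n i + 1)) / N' ≤ τ * R')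
    (h4 : ∀ U : Finset (Fin (n b + 1) → ℤ),
      (∀ x ∈ U, Sz (2 * Λ b) x ∧ Prim x ∧ ¬ Bal (2 * Λ b) a x) →
      (U.card : ℝ) * ∏ i ∈ Finset.univ.erase b, (6 * Λ i) ^ (n i + 1) ≤ τ * R')
    (hKΔ : ((K * 2 ^ T : ℕ) : ℝ) ≤ τ * Δ) (h1Δ' : 1 ≤ τ * Δ')
    (hA₂ : A + (c + c' * (1 + M * c) / κ) *
      (Δ / (∏ i, (2 * Λ i) ^ d i) + K * E1 N₀ L a (Ds b d)) +
      c' * E2 N₀ L a Lg (Ds b d) ≤ (1 + τ₂) * A)
    (hA' : (1 - τ₂) * A + c * (Δ' / (∏ i, (2 * Λ i) ^ d i) + E1 N₀ L a (Ds b d)) ≤ A)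
    (haA : 2 * c * E1 N₀ L a (Ds b d) ≤ A) (haA2 : 2 * c' * E2 N₀ L a Lg (Ds b d) ≤ A)
    (hA10 : 1 + 1 / τ₂ ≤ A)
    (hϱlow : c₀ * ∏ i, Λ i ^ (n i + 1) ≤ (A * ∏ i, Λ i ^ d i) * ϱ)
    (hW : 16 * Ct * 4 ^ M * (6 ^ N₀) ^ 2 *
      ((1 + a ^ 2 / (2 * Λ b) * (1 + Real.log (2 * Λ b))) * (1 / L ^ 2 + κ) +
          L ^ 2 / (2 * Λ b) ^ 2 + 1 / (κ * 2 ^ T)) ≤ ε * c₀ ^ 2)
    (hV : 16 * Ct * 3 ^ M * 6 ^ N₀ * (A * ∏ i, Λ i ^ d i) ≤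
      ε * c₀ ^ 2 * ∏ i, Λ i ^ (n i + 1)) :
    (((formsM n d A).filter (fun g =>
      ¬ ZeroInM (testM b a Λ ξ a₀ ρ ρ' S xc) (mem' fc S J g))).card : ℝ) ≤
      ε * (formsM n d A).card := by
  have hL := hs.hL
  have ha1 := hs.ha
  have hc'0 : 0 < c' := by rw [← hc', ← hN₀]; exact (consts_pos n b De).2
  have hE₁1 : 1 ≤ E1 N₀ L a (Ds b d) := E1_ge_one (by omega) hL (by linarith)
  have hAp : 0 < A := lt_of_lt_of_le (by positivity) haA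
  have hΛ0 : ∀ i, 0 < Λ i := fun i => by have := hΛ i; linarith
  have hwτ' : 1 / (w : ℝ) ≤ τ := by
    refine le_trans ?_ hwτ
    apply div_le_div_of_nonneg_right _ (Nat.cast_nonneg _)
    exact_mod_cast hr1
  -- the functions u
  have hdiv : ∀ x ∈ boxM Λ ξ a₀ ρ ρ' S xc, ∃ u : ℤ,
      MvPolynomial.eval x fc = -(((S * J : ℕ) : ℤ) * u) := by
    intro x hx
    obtain ⟨u, hu⟩ := hP.toP.class_dvd (mem_boxM.mp hx).2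
    exact ⟨-u, by rw [hu]; ring⟩
  choose! u hu using hdiv
  have hKr : (1:ℝ) ≤ K := by exact_mod_cast hK0
  have hKDle : ∀ D : ℕ, D ≤ 2 ^ T → ((K * D : ℕ) : ℝ) ≤ ((K * 2 ^ T : ℕ) : ℝ) := by
    intro D hD
    have : K * D ≤ K * 2 ^ T := Nat.mul_le_mul_left _ hD
    exact_mod_cast this
  -- card ratios
  obtain ⟨G, hG⟩ : ∃ G : ℝ, ((formsM n d A).card : ℝ) = G := ⟨_, rfl⟩
  have hG0 : 0 < G := by
    rw [← hG]
    exact_mod_cast card_formsM_pos (n := n) d hAp.le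
  have hA1 : 1 ≤ A := by
    have : 0 < 1 / τ₂ := by positivity
    linarith
  have hτA : 1 + τ₂ ≤ τ₂ * A := by
    have := mul_le_mul_of_nonneg_left hA10 hτ₂0.le
    rw [mul_add, mul_one, mul_one_div, div_self hτ₂0.ne'] at this
    linarith
  have hA4 : 4 ≤ A := by
    have h1 : (4:ℝ) ≤ 1 / τ₂ := by
      rw [le_div_iff₀ hτ₂0]; linarith
    linarith
  have hG₂ : ((formsM n d ((1 + τ₂) * A)).card : ℝ) ≤ (1 + τ) * G := by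
    have := card_formsM_upper (n := n) d (A := A) (R := (1 + τ₂) * A) (c := 1 + 2 * τ₂)
      hA1 (by positivity) (by positivity) (by linarith)
    rw [hM, hG] at this
    exact this.trans (mul_le_mul_of_nonneg_right hτ₂2 hG0.le)
  have hG' : (1 - τ) * G ≤ ((formsM n d ((1 - τ₂) * A)).card : ℝ) := by
    have := card_formsM_lower (n := n) d (A := A) (R := (1 - τ₂) * A) (c := 1 - 2 * τ₂)
      hAp.le (mul_nonneg (by linarith) hAp.le) (by linarith) (by linarith)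
    rw [hM, hG] at this
    exact (mul_le_mul_of_nonneg_right hτ₂3 hG0.le).trans this
  have hG3A : ((formsM n d (3 * A)).card : ℝ) ≤ 4 ^ M * G := by
    have := card_formsM_upper (n := n) d (A := A) (R := 3 * A) (c := 4)
      hA1 (by positivity) (by norm_num) (by linarith)
    rwa [hM, hG] at this
  have hG2A : ((formsM n d (2 * A)).card : ℝ) ≤ 3 ^ M * G := by
    have := card_formsM_upper (n := n) d (A := A) (R := 2 * A) (c := 3)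
      hA1 (by positivity) (by norm_num) (by linarith)
    rwa [hM, hG] at this
  -- local bounds
  have hloc : ∀ D : ℕ, 0 < D → D ≤ 2 ^ T → (∀ q : ℕ, q.Prime → q ≤ w → ¬ q ∣ D) →
      ∀ g ∈ formsM n d ((1 + τ₂) * A), ∀ ζ,
      ((locSetM Λ ξ a₀ ρ ρ' S J xc (mem' fc S J g) K D ζ (((S * J : ℕ) : ℝ) * Δ)).card : ℝ) ≤
        (1 + τ) ^ N₀ / (1 - τ) * R / (K * (D : ℝ) ^ N₀) := by
    intro D hD hDN hDw g hg ζ
    rw [← hR, ← hN₀]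
    exact loc_norm_leM hP hρ0.le (hρ0.le.trans hρρ') (fun i => (hΛ0 i).le) hτ0 hτ1 hD₀0 hσ
      (by positivity) hΔΔ₀
      (hmemS _ (mul_le_mul_of_nonneg_right (by linarith) hAp.le) g hg) hX rfl hK hD hDw
      (fun a => (hKDle D hDN).trans (hX1 a)) ((hKDle D hDN).trans hX2) ζ
  have hFpos : 0 ≤ (1 + τ) ^ N₀ / (1 - τ) * R := by
    have : 0 < 1 - τ := by linarith
    positivity
  have hSM := hCt w hw1 fc S J xc Λ ξ a₀ ρ ρ' L a A ((1 + τ₂) * A) Δ κ hs hκ hκL hLB Lg hLg0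
    (by rw [hN₀]; exact hLg) u hu T K hK hΔ0.le
    (by
      have h5 : τ * Δ ≤ Δ := mul_le_of_le_one_left hΔ0.le (by linarith)
      have h6 := hKΔ.trans h5
      push_cast at h6 ⊢
      exact h6)
    (by rw [hN₀, hM, hc, hc']; exact hA₂) (by rw [hN₀, hc]; exact haA)
    (by rw [hN₀, hc']; exact haA2)
    ((1 + τ) ^ N₀ / (1 - τ) * R / (K * ((1 : ℕ) : ℝ) ^ N₀))
    ((1 + τ) ^ (2 * N₀ + 1) / (1 - τ) ^ 4 * (R / (2 * Δ)) ^ 2)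
    (fun D => (1 + τ) ^ N₀ / (1 - τ) * R / (K * (D : ℝ) ^ N₀))
    (fun D => div_nonneg hFpos (by positivity))
    (by
      have : 0 < 1 - τ := by linarith
      positivity)
    (fun g hg => hloc 1 one_pos (Nat.one_le_two_pow) (fun q hq _ h => by
      have := Nat.dvd_one.mp h
      exact hq.one_lt.ne' this) g hg 0)
    hloc
    (by
      intro D hD hDN
      rw [hG]
      exact core_EDM hN₀r hK0 hD hτ0 hτ1 hR0 hΔ0 hG0 hG₂ ((hKDle D hDN).trans hKΔ))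
  -- first moment
  have htest : ∀ g ∈ formsM n d ((1 - τ₂) * A), bfun N₀ τ * R' ≤
      (((testM b a Λ ξ a₀ ρ ρ' S xc).filter (fun x =>
        |((MvPolynomial.eval x (mem' fc S J g) : ℤ) : ℝ)| ≤ (S * J : ℕ) * Δ')).card : ℝ) := by
    intro g hg
    have := test_lowerM (b := b) (a := a) hw1 hP (X := X) (N := N') hρ0.le hρρ' hρ'2 hΛ hn hτ0 hτ1
      hD₀0 hwτ hξ hξr hσ (Δ := ((S * J : ℕ) : ℝ) * Δ') (by positivity) hΔ'Δ₀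
      (hmemS _ (by
        have : τ₂ * A ≥ 0 := by positivity
        linarith) g hg) hX rfl hN'1 hX3 hX4 (by rw [hR']; exact h3)
      (by rw [hR']; exact h4)
    rw [hN₀, hR'] at this
    exact this
  have hϱ0 : 0 < ϱ := by rw [← hRϱ]; positivity
  have hβ0 : 0 < (1 - τ) / (1 + τ) * bfun N₀ τ := by linarith
  have hE₁0 : 0 < (1 - τ) / (1 + τ) * bfun N₀ τ * (R' / (2 * Δ')) := by
    rw [hR'ϱ]; exact mul_pos hβ0 hϱ0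
  obtain ⟨Θ, hΘ⟩ : ∃ Θ : ℝ, ∏ i, (2 * Λ i) ^ d i = Θ := ⟨_, rfl⟩
  have hΘ0 : 0 < Θ := by rw [← hΘ]; exact hs.theta_pos
  rw [hΘ] at hSM hA'
  have hcheb := chebyshevM (A := A) (A' := (1 - τ₂) * A) (d := d) hP.toP.hS hP.toP.hJ
    (testM b a Λ ξ a₀ ρ ρ' S xc) u (fun x hx => hu x (mem_testM.mp hx).1)
    (C := c) (Θ := Θ) (E := E1 N₀ L a (Ds b d))
    (by
      intro x hx
      have := ker1_gen (testM_tst hx) hs.hB hs.hBL hL ha1 (De + 1) d (by rw [hDe])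
      rw [hN₀, hc, hΘ] at this
      exact this) hc0.le hΘ0 (by linarith) hΔ'0.le hA' hE₁0.le htest
    (by rw [hG]; exact core_cheb hτ0 hb0 hR'0 hΔ'0 hG0 hG' hτ1 h1Δ')
  rw [hG] at hcheb hSM ⊢
  rw [hR'ϱ] at hcheb hE₁0
  rw [hRϱ] at hSM
  -- volume
  have hVol : VolM n (fun i => 2 * Λ i) = 6 ^ N₀ * ∏ i, Λ i ^ (n i + 1) := by
    unfold VolM
    have h1 : ∀ i, (3 * (2 * Λ i)) ^ (n i + 1) = 6 ^ (n i + 1) * Λ i ^ (n i + 1) := by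
      intro i
      rw [← mul_pow]; congr 1; ring
    rw [Finset.prod_congr rfl (fun i _ => h1 i), Finset.prod_mul_distrib,
      Finset.prod_pow_eq_pow_sum]
    congr 2
    rw [← hN₀, Fintype.card_sigma]
    simp
  obtain ⟨V', hV'⟩ : ∃ V' : ℝ, ∏ i, Λ i ^ (n i + 1) = V' := ⟨_, rfl⟩
  have hV'0 : 0 < V' := by
    rw [← hV']
    exact Finset.prod_pos (fun i _ => pow_pos (hΛ0 i) _)
  obtain ⟨Θ', hΘ'⟩ : ∃ Θ' : ℝ, ∏ i, Λ i ^ d i = Θ' := ⟨_, rfl⟩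
  have hΘ'0 : 0 < Θ' := by
    rw [← hΘ']
    exact Finset.prod_pos (fun i _ => pow_pos (hΛ0 i) _)
  have hΘΘ' : Θ' ≤ Θ := by
    rw [← hΘ, ← hΘ']
    apply Finset.prod_le_prod
    · intro i _; exact (pow_pos (hΛ0 i) _).le
    · intro i _
      exact pow_le_pow_left₀ (hΛ0 i).le (by linarith [hΛ0 i]) _
  rw [hV'] at hVol hϱlow hV
  rw [hΘ'] at hϱlow hV
  have hAΘ : A * Θ' ≤ A * Θ := mul_le_mul_of_nonneg_left hΘΘ' hAp.le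
  have hlog : 0 ≤ Real.log (2 * Λ b) := Real.log_nonneg (by linarith [hΛ b])
  have hΛb := hΛ0 b
  have hL0 : 0 < L := by linarith
  refine final_ineq hE₁0 hcheb hSM ?_ ?_ ?_
  · refine core_main (div_nonneg (by positivity) (pow_nonneg (by linarith) _)) hG0.le ?_ hτF
    linarith
  · rw [hVol]
    exact core_t1M hCt0 hG0 hG3A (by positivity) rfl hV'0 (by positivity) hAΘ (by positivity)
      (by positivity) hϱlow hb1 hε hc₀ hW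
  · refine core_t2M hCt0 hG0 hG2A (Nat.cast_nonneg _) (by positivity) (N6 := 6 ^ N₀) (V' := V') ?_
      (Nat.cast_nonneg _) hV'0 (by positivity) hAΘ (by positivity) hϱlow hb1 hε hc₀ hV
    rw [← hVol]
    apply card_box_M hs.hB
    intro z hz i j
    exact ((testM_tst hz).sz i).1 j

end Pool.Agent.Y716.M
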