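import Pool.Agent.Y716.M.Basic
import Pool.Agent.Y716.Q.RealClass
import Pool.Agent.Y716.Q.Loc

/-!
# Local data of classes of multihomogeneous forms, test sets
-/

namespace Pool.Agent.Y716.M

open Pool.Agent.Y716.Q

variable {r : ℕ} {n : Fin r → ℕ}

/-- the real box with scales `Λ` -/
def InBoxM (Λ : Fin r → ℝ) (ξ : Var n → ℝ) (a₀ : Var n) (ρ ρ' : ℝ) (x : Var n → ℝ) : Prop :=
  ∀ a, Λ a.1 * (ξ a - wd a₀ ρ ρ' a) ≤ x a ∧ x a ≤ Λ a.1 * (ξ a + wd a₀ ρ ρ' a)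

open scoped Classical in
/-- slope and end conditions for a form on the real box with scales `Λ` -/
def SlopeM (σ c₁ c₂ Δ : ℝ) (Λ : Fin r → ℝ) (ξ : Var n → ℝ) (a₀ : Var n) (ρ ρ' : ℝ)
    (f : MvPolynomial (Var n) ℤ) : Prop :=
  ∀ x : Var n → ℝ, InBoxM Λ ξ a₀ ρ ρ' x →
    (∀ s t : ℝ, Λ a₀.1 * (ξ a₀ - ρ') ≤ s → s ≤ t → t ≤ Λ a₀.1 * (ξ a₀ + ρ') →
      c₁ * (t - s) ≤ σ * MvPolynomial.aeval (Function.update x a₀ t) f -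
          σ * MvPolynomial.aeval (Function.update x a₀ s) f ∧
      σ * MvPolynomial.aeval (Function.update x a₀ t) f -
          σ * MvPolynomial.aeval (Function.update x a₀ s) f ≤ c₂ * (t - s)) ∧
    (σ * MvPolynomial.aeval (Function.update x a₀ (Λ a₀.1 * (ξ a₀ - ρ'))) f ≤ -Δ ∧
      Δ ≤ σ * MvPolynomial.aeval (Function.update x a₀ (Λ a₀.1 * (ξ a₀ + ρ'))) f)

/-- the real data of a class -/
structure RDataM (d : Fin r → ℕ) (H γ η : ℝ) (fc : MvPolynomial (Var n) ℤ) (ξ : Var n → ℝ)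
    (a₀ : Var n) : Prop where
  hform : IsM d (2 * H) fc
  hξ : ∀ a, |ξ a| ≤ 1
  hξr : Norm1 ξ
  hfξ : |MvPolynomial.aeval ξ fc| ≤ (monsM n d).card * (η * H)
  hgξ : γ * H ≤ |MvPolynomial.aeval ξ (MvPolynomial.pderiv a₀ fc)|

/-- the `p`-adic data of a class -/
structure PDataM (w : ℕ) (fc : MvPolynomial (Var n) ℤ) (S J : ℕ) (xc v : Var n → ℤ) : Prop where
  toP : PData w fc S J xc v
  hprimB : ∀ p : ℕ, p.Prime → p ≤ w → ∀ i : Fin r, ∃ j, ¬ (p : ℤ) ∣ xc ⟨i, j⟩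

open scoped Classical in
/-- the test box -/
noncomputable def boxM (Λ : Fin r → ℝ) (ξ : Var n → ℝ) (a₀ : Var n) (ρ ρ' : ℝ) (S : ℕ)
    (xc : Var n → ℤ) : Finset (Var n → ℤ) :=
  (Fintype.piFinset (fun a => ivl (Λ a.1 * (ξ a - wd a₀ ρ ρ' a))
    (Λ a.1 * (ξ a + wd a₀ ρ ρ' a)))).filter (fun x => ∀ a, (S : ℤ) ∣ x a - xc a)

theorem mem_boxM {Λ : Fin r → ℝ} {ξ : Var n → ℝ} {a₀ : Var n} {ρ ρ' : ℝ} {S : ℕ}
    {xc x : Var n → ℤ} :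
    x ∈ boxM Λ ξ a₀ ρ ρ' S xc ↔ InBoxM Λ ξ a₀ ρ ρ' (fun a => (x a : ℝ)) ∧
      ∀ a, (S : ℤ) ∣ x a - xc a := by
  classical
  unfold boxM InBoxM
  rw [Finset.mem_filter, Fintype.mem_piFinset]
  simp only [mem_ivl]

open scoped Classical in
/-- test vectors at which `f` is small at all places -/
noncomputable def locSetM (Λ : Fin r → ℝ) (ξ : Var n → ℝ) (a₀ : Var n) (ρ ρ' : ℝ) (S J : ℕ)
    (xc : Var n → ℤ) (f : MvPolynomial (Var n) ℤ) (K D : ℕ) (ζ : Var n → ℤ) (Δ : ℝ) :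
    Finset (Var n → ℤ) :=
  (boxM Λ ξ a₀ ρ ρ' S xc).filter (fun x => (∀ a, (D : ℤ) ∣ x a - ζ a) ∧
    ((S * J * K : ℕ) : ℤ) ∣ MvPolynomial.eval x f ∧ |((MvPolynomial.eval x f : ℤ) : ℝ)| ≤ Δ)

open scoped Classical in
/-- the test set; `b` is the main block -/
noncomputable def testM (b : Fin r) (a : ℝ) (Λ : Fin r → ℝ) (ξ : Var n → ℝ) (a₀ : Var n)
    (ρ ρ' : ℝ) (S : ℕ) (xc : Var n → ℤ) : Finset (Var n → ℤ) :=
  (boxM Λ ξ a₀ ρ ρ' S xc).filter (fun x => (∀ i, Sz (2 * Λ i) (bl x i)) ∧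
    (∀ i, Prim (bl x i)) ∧ Bal (2 * Λ b) a (bl x b))

theorem mem_testM {b : Fin r} {a : ℝ} {Λ : Fin r → ℝ} {ξ : Var n → ℝ} {a₀ : Var n}
    {ρ ρ' : ℝ} {S : ℕ} {xc x : Var n → ℤ} :
    x ∈ testM b a Λ ξ a₀ ρ ρ' S xc ↔ x ∈ boxM Λ ξ a₀ ρ ρ' S xc ∧
      (∀ i, Sz (2 * Λ i) (bl x i)) ∧ (∀ i, Prim (bl x i)) ∧ Bal (2 * Λ b) a (bl x b) := by
  classical
  unfold testM
  rw [Finset.mem_filter]

/-- one-point property of the vector `z` -/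
def Ker1 (d : Fin r → ℕ) (z : Var n → ℤ) (C Θ E : ℝ) : Prop :=
  ∀ u : ℤ, ∃ f : MvPolynomial (Var n) ℤ, IsM d (C * (|(u : ℝ)| / Θ + E)) f ∧
    MvPolynomial.eval z f = u

/-- two-point property of the vectors `z`, `w` -/
def Ker2 (d : Fin r → ℕ) (z w : Var n → ℤ) (G : ℤ) (C Θ E : ℝ) : Prop :=
  ∀ v : ℤ, G ∣ v → ∃ f : MvPolynomial (Var n) ℤ, IsM d (C * (|(v : ℝ)| / Θ + E)) f ∧
    MvPolynomial.eval z f = 0 ∧ MvPolynomial.eval w f = v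

open scoped Classical in
/-- number of `g` with prescribed values at both vectors -/
noncomputable def c2M (d : Fin r → ℕ) (A : ℝ) (u : (Var n → ℤ) → ℤ)
    (p : (Var n → ℤ) × (Var n → ℤ)) : ℕ :=
  ((formsM n d A).filter
    (fun g => MvPolynomial.eval p.1 g = u p.1 ∧ MvPolynomial.eval p.2 g = u p.2)).card

/-- `f` has a zero in `X` -/
def ZeroInM (X : Finset (Var n → ℤ)) (f : MvPolynomial (Var n) ℤ) : Prop :=
  ∃ x ∈ X, MvPolynomial.eval x f = 0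

/-- `f` has a zero, primitive in each block, close to `ξ` and to `xc` -/
def ZeroNearM (η₀ : ℝ) (ξ : Var n → ℝ) (S : ℕ) (xc : Var n → ℤ)
    (f : MvPolynomial (Var n) ℤ) : Prop :=
  ∃ x : Var n → ℤ, (∀ i, Prim (bl x i)) ∧ MvPolynomial.eval x f = 0 ∧
    (∀ a, (S : ℤ) ∣ x a - xc a) ∧
    ∃ Λ : Fin r → ℝ, (∀ i, 0 < Λ i) ∧ ∀ a, |(x a : ℝ) - Λ a.1 * ξ a| ≤ η₀ * Λ a.1

open scoped Classical in
/-- The statement of the class theorem: in a class with good local data almost all forms have a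
zero. -/
def ClassStmtM (n d : Fin r → ℕ) : Prop :=
  ∀ ε : ℝ, 0 < ε → ∃ w₀ : ℕ, 1 ≤ w₀ ∧ ∀ w, w₀ ≤ w → ∀ γ : ℝ, 0 < γ → γ ≤ 1 →
    ∀ Q₀ : ℕ, 1 ≤ Q₀ → ∀ η₀ : ℝ, 0 < η₀ → ∃ η : ℝ, 0 < η ∧ η ≤ 1 ∧ η ≤ η₀ ∧
    ∃ H₀ : ℝ, ∀ H : ℝ, H₀ ≤ H →
    ∀ (fc : MvPolynomial (Var n) ℤ) (S J : ℕ) (xc v : Var n → ℤ) (ξ : Var n → ℝ) (a₀ : Var n),
    PDataM w fc S J xc v → RDataM d H γ η fc ξ a₀ → S * J ≤ Q₀ →
    (((formsM n d (η * H / (S * J : ℕ))).filter (fun g =>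
      ¬ ZeroNearM η₀ ξ S xc (mem' fc S J g))).card : ℝ) ≤
      ε * (formsM n d (η * H / (S * J : ℕ))).card

end Pool.Agent.Y716.M
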