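import Mathlib

/-!
# Integral multihomogeneous forms with bounded coefficients
-/

namespace Pool.Agent.Y716.M

/-- number of polynomials with exponents in a given finite set and bounded coefficients -/
theorem card_poly_box {τ : Type*} (Ms : Finset (τ →₀ ℕ)) (F : Finset (MvPolynomial τ ℤ)) {R : ℝ}
    (hR : 0 ≤ R) (hF : ∀ f, f ∈ F ↔ (∀ s, f.coeff s ≠ 0 → s ∈ Ms) ∧
      ∀ s, |((f.coeff s : ℤ) : ℝ)| ≤ R) :
    F.card = (2 * ⌊R⌋₊ + 1) ^ Ms.card := by
  classical
  have hpi : (Fintype.piFinset (fun _ : Ms => Finset.Icc (-(⌊R⌋₊ : ℤ)) ⌊R⌋₊)).card =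
      (2 * ⌊R⌋₊ + 1) ^ Ms.card := by
    rw [Fintype.card_piFinset]
    simp only [Int.card_Icc]
    rw [Finset.prod_const, Finset.card_univ, Fintype.card_coe]
    congr 1
    omega
  have hkey : ∀ c : ℤ, |(c : ℝ)| ≤ R ↔ c ∈ Finset.Icc (-(⌊R⌋₊ : ℤ)) ⌊R⌋₊ := by
    intro c
    have habs : |(c : ℝ)| = (c.natAbs : ℝ) := by
      rw [Nat.cast_natAbs, Int.cast_abs]
    rw [Finset.mem_Icc, ← abs_le, habs, Int.abs_eq_natAbs]
    constructor
    · intro h
      have : c.natAbs ≤ ⌊R⌋₊ := Nat.le_floor h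
      exact_mod_cast this
    · intro h
      have h1 : c.natAbs ≤ ⌊R⌋₊ := by exact_mod_cast h
      have h2 := Nat.floor_le hR
      have h3 : ((c.natAbs : ℕ) : ℝ) ≤ (⌊R⌋₊ : ℝ) := by exact_mod_cast h1
      exact h3.trans h2
  rw [← hpi]
  apply Finset.card_bij (fun f _ (m : Ms) => f.coeff m.1)
  · intro f hf
    rw [Fintype.mem_piFinset]
    intro m
    rw [← hkey]
    exact ((hF f).mp hf).2 m.1
  · intro f hf g hg hfg
    apply MvPolynomial.ext
    intro m
    by_cases hm : m ∈ Ms
    · exact congrFun hfg ⟨m, hm⟩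
    · have h1 : ∀ h ∈ F, h.coeff m = 0 := by
        intro h hh
        by_contra hne
        exact hm (((hF h).mp hh).1 m hne)
      rw [h1 f hf, h1 g hg]
  · intro c hc
    rw [Fintype.mem_piFinset] at hc
    set f : MvPolynomial τ ℤ := ∑ m : Ms, MvPolynomial.monomial m.1 (c m) with hf
    have hco : ∀ m : τ →₀ ℕ, f.coeff m = if h : m ∈ Ms then c ⟨m, h⟩ else 0 := by
      intro m
      rw [hf, MvPolynomial.coeff_sum]
      simp only [MvPolynomial.coeff_monomial]
      split_ifs with h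
      · rw [Finset.sum_eq_single (⟨m, h⟩ : Ms)]
        · simp
        · intro b _ hb
          rw [if_neg]
          intro h'
          exact hb (Subtype.ext h')
        · intro h'; exact absurd (Finset.mem_univ _) h'
      · apply Finset.sum_eq_zero
        intro b _
        rw [if_neg]
        intro h'
        exact h (h' ▸ b.2)
    refine ⟨f, ?_, ?_⟩
    · rw [hF]
      refine ⟨?_, ?_⟩
      · intro s hs
        rw [hco] at hs
        by_cases h : s ∈ Ms
        · exact h
        · rw [dif_neg h] at hs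
          exact absurd rfl hs
      · intro m
        rw [hco]
        split_ifs with h
        · exact (hkey _).mpr (hc _)
        · simpa using hR
    · funext m
      rw [hco]
      simp

/-- the variables: blocks `i : Fin r`, the block `i` has `n i + 1` variables -/
abbrev Var {r : ℕ} (n : Fin r → ℕ) : Type := Σ i : Fin r, Fin (n i + 1)

/-- the block `i` of a vector -/
def bl {r : ℕ} {n : Fin r → ℕ} {α : Type*} (z : Var n → α) (i : Fin r) : Fin (n i + 1) → α :=
  fun j => z ⟨i, j⟩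

/-- `f` is homogeneous of degree `d i` in the block `i` of variables and all its coefficients have
absolute value `≤ R`. -/
def IsM {r : ℕ} {n : Fin r → ℕ} (d : Fin r → ℕ) (R : ℝ) (f : MvPolynomial (Var n) ℤ) : Prop :=
  (∀ s ∈ f.support, ∀ i : Fin r, ∑ j : Fin (n i + 1), s ⟨i, j⟩ = d i) ∧
    ∀ s, |((f.coeff s : ℤ) : ℝ)| ≤ R

section
variable {r : ℕ} {n : Fin r → ℕ}

open scoped Classical in
/-- the finite set of exponents of multidegree `d` -/
noncomputable def monsM (n : Fin r → ℕ) (d : Fin r → ℕ) : Finset (Var n →₀ ℕ) :=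
  Finset.filter (fun s : Var n →₀ ℕ => ∀ i : Fin r, ∑ j : Fin (n i + 1), s ⟨i, j⟩ = d i)
    (Finset.finsuppAntidiag (Finset.univ : Finset (Var n)) (∑ i, d i))

theorem mem_monsM {d : Fin r → ℕ} {s : Var n →₀ ℕ} :
    s ∈ monsM n d ↔ ∀ i : Fin r, ∑ j : Fin (n i + 1), s ⟨i, j⟩ = d i := by
  classical
  unfold monsM
  rw [Finset.mem_filter, Finset.mem_finsuppAntidiag]
  constructor
  · exact fun h => h.2
  · intro h
    refine ⟨⟨?_, Finset.subset_univ _⟩, h⟩
    rw [Fintype.sum_sigma]
    exact Finset.sum_congr rfl (fun i _ => h i)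

theorem IsM.mem_monsM {d : Fin r → ℕ} {R : ℝ} {f : MvPolynomial (Var n) ℤ} (hf : IsM d R f)
    {s : Var n →₀ ℕ} (hs : f.coeff s ≠ 0) : s ∈ monsM n d :=
  Pool.Agent.Y716.M.mem_monsM.mpr (hf.1 s (MvPolynomial.mem_support_iff.mpr hs))

theorem IsM.coeff_eq_zero {d : Fin r → ℕ} {R : ℝ} {f : MvPolynomial (Var n) ℤ} (hf : IsM d R f)
    {s : Var n →₀ ℕ} (hs : s ∉ monsM n d) : f.coeff s = 0 := by
  by_contra h
  exact hs (hf.mem_monsM h)

theorem finite_formsM (n d : Fin r → ℕ) (R : ℝ) :
    {f : MvPolynomial (Var n) ℤ | IsM d R f}.Finite := by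
  classical
  have : Finite {f : MvPolynomial (Var n) ℤ // IsM d R f} := by
    let φ : {f : MvPolynomial (Var n) ℤ // IsM d R f} → (monsM n d → Finset.Icc (-⌈R⌉) ⌈R⌉) :=
      fun f m => ⟨f.1.coeff m.1, by
        have h := f.2.2 m.1
        rw [abs_le] at h
        rw [Finset.mem_Icc]
        constructor
        · have : -(⌈R⌉ : ℝ) ≤ ((f.1.coeff m.1 : ℤ) : ℝ) := by
            have := Int.le_ceil R
            linarith [h.1]
          exact_mod_cast this
        · have : ((f.1.coeff m.1 : ℤ) : ℝ) ≤ (⌈R⌉ : ℝ) := h.2.trans (Int.le_ceil R)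
          exact_mod_cast this⟩
    apply Finite.of_injective φ
    intro f g hfg
    apply Subtype.ext
    apply MvPolynomial.ext
    intro m
    by_cases hm : m ∈ monsM n d
    · have := congrFun hfg ⟨m, hm⟩
      exact congrArg Subtype.val this
    · rw [f.2.coeff_eq_zero hm, g.2.coeff_eq_zero hm]
  exact Set.finite_coe_iff.mp this

/-- The finite set of integral forms of multidegree `d` with coefficients bounded by `R`. -/
noncomputable def formsM (n d : Fin r → ℕ) (R : ℝ) : Finset (MvPolynomial (Var n) ℤ) :=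
  (finite_formsM n d R).toFinset

theorem mem_formsM {d : Fin r → ℕ} {R : ℝ} {f : MvPolynomial (Var n) ℤ} :
    f ∈ formsM n d R ↔ IsM d R f := by
  simp [formsM]

/-- The number of forms. -/
theorem card_formsM (d : Fin r → ℕ) {R : ℝ} (hR : 0 ≤ R) :
    (formsM n d R).card = (2 * ⌊R⌋₊ + 1) ^ (monsM n d).card := by
  apply card_poly_box _ _ hR
  intro f
  rw [mem_formsM]
  constructor
  · intro h
    exact ⟨fun s hs => h.mem_monsM hs, h.2⟩
  · rintro ⟨h1, h2⟩
    refine ⟨fun s hs => ?_, h2⟩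
    exact Pool.Agent.Y716.M.mem_monsM.mp (h1 s (MvPolynomial.mem_support_iff.mp hs))

/-- every block of `x` has a coordinate equal to `1` -/
def Norm1 {α : Type*} [One α] (x : Var n → α) : Prop := ∀ i : Fin r, ∃ j, x ⟨i, j⟩ = 1

end

end Pool.Agent.Y716.M
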