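import Pool.Agent.Y716.M.Cnt
import Pool.Agent.Y510.M6.Port

/-!
# The contribution of pairs of test vectors in general position, several blocks
-/

namespace Pool.Agent.Y716.M

open Pool.Agent.Y716.Q Pool.Agent.Y510.M6

variable {r : ℕ} {n : Fin r → ℕ}

theorem testM_tst {b : Fin r} {a : ℝ} {Λ : Fin r → ℝ} {ξ : Var n → ℝ} {a₀ : Var n}
    {ρ ρ' : ℝ} {S : ℕ} {xc x : Var n → ℤ} (h : x ∈ testM b a Λ ξ a₀ ρ ρ' S xc) :
    Tst b (fun i => 2 * Λ i) a x := by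
  obtain ⟨_, h2, h3, h4⟩ := mem_testM.mp h
  exact ⟨h2, h3, h4⟩

/-- gcd data of a pair -/
def GoodPairM (b : Fin r) (w K N : ℕ) (L κ : ℝ) (p : (Var n → ℤ) × (Var n → ℤ)) (D : ℕ) : Prop :=
  ∃ g : ℤ, g ≠ 0 ∧ (∀ i, ∀ j j', (D : ℤ) ∣ mn (bl p.1 i) (bl p.2 i) j j') ∧
      (∀ D, (∀ q : MI n b, D ∣ mnr p.1 p.2 q) →
        (∀ i j, D ∣ mn (bl p.1 b) (bl p.2 b) i j) → D ∣ g) ∧
      (∃ q : MI n b, κ * L ^ 2 ≤ |(mnr p.1 p.2 q : ℝ)|) ∧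
      (∃ i j, mn (bl p.1 b) (bl p.2 b) i j ≠ 0) ∧
      0 < D ∧ D ≤ N ∧ g ∣ (K * D : ℤ) ∧ (∀ q : ℕ, q.Prime → q ≤ w → ¬ q ∣ D)

theorem mem_locSetM_of {fc : MvPolynomial (Var n) ℤ} {S J : ℕ} {xc : Var n → ℤ}
    {Λ : Fin r → ℝ} {ξ : Var n → ℝ} {a₀ : Var n} {ρ ρ' Δ : ℝ} {x : Var n → ℤ}
    (hx : x ∈ boxM Λ ξ a₀ ρ ρ' S xc)
    {g : MvPolynomial (Var n) ℤ} {u : ℤ} (hu : MvPolynomial.eval x fc = -(((S * J : ℕ) : ℤ) * u))
    {K D : ℕ} {ζ : Var n → ℤ} (hK : (K : ℤ) ∣ MvPolynomial.eval x g - u)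
    (hd : |((MvPolynomial.eval x g - u : ℤ) : ℝ)| ≤ Δ) (hD : ∀ a, (D : ℤ) ∣ x a - ζ a) :
    x ∈ locSetM Λ ξ a₀ ρ ρ' S J xc (mem' fc S J g) K D ζ ((S * J : ℕ) * Δ) := by
  classical
  unfold locSetM
  rw [Finset.mem_filter]
  have hev : MvPolynomial.eval x (mem' fc S J g) = ((S * J : ℕ) : ℤ) * (MvPolynomial.eval x g - u) := by
    unfold mem'
    rw [map_add, map_mul, MvPolynomial.eval_C, hu]; ring
  refine ⟨hx, hD, ?_, ?_⟩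
  · rw [hev, Nat.cast_mul (S * J) K]
    exact mul_dvd_mul_left _ hK
  · rw [hev, Int.cast_mul, abs_mul]
    have h1 : |(((S * J : ℕ) : ℤ) : ℝ)| = ((S * J : ℕ) : ℝ) := by
      rw [Int.cast_natCast, abs_of_nonneg (Nat.cast_nonneg _)]
    rw [h1]
    exact mul_le_mul_of_nonneg_left hd (Nat.cast_nonneg _)

theorem Ker2.mono_scale {d : Fin r → ℕ} {z w : Var n → ℤ} {G : ℤ} {C Θ Θ' E : ℝ}
    (h : Ker2 d z w G C Θ E) (hC : 0 ≤ C) (hΘ' : 0 < Θ') (hle : Θ' ≤ Θ) : Ker2 d z w G C Θ' E := by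
  intro v hv
  obtain ⟨f, h1, h2, h3⟩ := h v hv
  refine ⟨f, h1.mono ?_, h2, h3⟩
  apply mul_le_mul_of_nonneg_left _ hC
  have : |(v : ℝ)| / Θ ≤ |(v : ℝ)| / Θ' := div_le_div_of_nonneg_left (abs_nonneg _) hΘ' hle
  linarith

/-- the error E2 is nonnegative -/
theorem E2_nonneg {N : ℕ} {L a Lg : ℝ} {D : ℕ} (hL : 1 ≤ L) (ha : 1 ≤ a) (hLg : 0 ≤ Lg) :
    0 ≤ E2 N L a Lg D := by
  unfold E2 E1
  have h1 : 0 ≤ a / L ^ D := by positivity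
  have h2 : 0 ≤ 4 * (N:ℝ) * L := by positivity
  positivity

theorem E1_nonneg {N : ℕ} {L a : ℝ} {D : ℕ} (hL : 1 ≤ L) (ha : 1 ≤ a) :
    0 ≤ E1 N L a D := by
  unfold E1
  have h1 : 0 ≤ a / L ^ D := by positivity
  have h2 : 0 ≤ 4 * (N:ℝ) * L := by positivity
  positivity

open scoped Classical in
theorem good_sum_DM {b : Fin r} {d : Fin r → ℕ} {De : ℕ} (hDe : ∑ i, d i = De + 2) {w : ℕ}
    {fc : MvPolynomial (Var n) ℤ} {S J : ℕ} {xc : Var n → ℤ}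
    {Λ : Fin r → ℝ} {ξ : Var n → ℝ} {a₀ : Var n} {ρ ρ' L a A A₂ Δ κ : ℝ}
    (hs : Scl b d (fun i => 2 * Λ i) L a) (hκ : 0 < κ)
    {Lg : ℝ} (hLg0 : 0 ≤ Lg)
    (hLg : ∀ s : ℕ, (s : ℝ) ≤ 15 * (Fintype.card (Var n)) ^ 2 * a * (2 * Λ b) →
      (Nat.log 2 s : ℝ) ≤ Lg)
    (hC1 : 0 < c1pt (Fintype.card (Var n)) (De + 1)) (hC2 : 0 < C2 (Fintype.card (Var n)) De)
    (u : (Var n → ℤ) → ℤ)
    (hu : ∀ x ∈ boxM Λ ξ a₀ ρ ρ' S xc, MvPolynomial.eval x fc = -(((S * J : ℕ) : ℤ) * u x))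
    {K N D : ℕ} (hK : 0 < K) (hD : 0 < D) (hΔ : 0 ≤ Δ) (hΔK : K * D ≤ Δ)
    (hA : A + (c1pt (Fintype.card (Var n)) (De + 1) + C2 (Fintype.card (Var n)) De *
      (1 + (monsM n d).card * c1pt (Fintype.card (Var n)) (De + 1)) / κ) *
      (Δ / (∏ i, (2 * Λ i) ^ d i) + K * E1 (Fintype.card (Var n)) L a (Ds b d)) +
      C2 (Fintype.card (Var n)) De * E2 (Fintype.card (Var n)) L a Lg (Ds b d) ≤ A₂)
    {R₁ R₂ : ℝ} (hR₂ : 0 ≤ R₂)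
    (hL1 : ∀ g ∈ formsM n d A₂,
      ((locSetM Λ ξ a₀ ρ ρ' S J xc (mem' fc S J g) K 1 0 ((S * J : ℕ) * Δ)).card : ℝ) ≤ R₁)
    (hL2 : ∀ g ∈ formsM n d A₂, ∀ ζ,
      ((locSetM Λ ξ a₀ ρ ρ' S J xc (mem' fc S J g) K D ζ ((S * J : ℕ) * Δ)).card : ℝ) ≤ R₂)
    (Gd : Finset ((Var n → ℤ) × (Var n → ℤ)))
    (hGd : ∀ p ∈ Gd, p.1 ∈ testM b a Λ ξ a₀ ρ ρ' S xc ∧ p.2 ∈ testM b a Λ ξ a₀ ρ ρ' S xc ∧
      GoodPairM b w K N L κ p D) :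
    (∑ p ∈ Gd, (c2M d A u p : ℝ)) * ((2 * Δ / K - 1) * (2 * Δ / (K * D) - 1)) ≤
      (formsM n d A₂).card * (R₁ * ((D : ℝ) ^ r * R₂)) := by
  -- the residue multipliers
  have hlam : ∀ p ∈ Gd, ∃ c : Fin r → ℕ, (∀ i, c i < D) ∧
      ∀ a : Var n, (D : ℤ) ∣ p.2 a - c a.1 * p.1 a := by
    intro p hp
    obtain ⟨h1, h2, g, hg0, hg1, hg2, hg3, hg4, hg5, hg6, hg7, hg8⟩ := hGd p hp
    have h3 : ∀ i, ∃ c : ℕ, c < D ∧ ∀ j, (D : ℤ) ∣ bl p.2 i j - c * bl p.1 i j := fun i =>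
      exists_lambda ((testM_tst h1).pr i) hD (fun j j' => hg1 i j j')
    choose c hc1 hc2 using h3
    exact ⟨c, hc1, fun a => hc2 a.1 a.2⟩
  choose! lam hlam1 hlam2 using hlam
  set Δ₁ : ℝ := ((S * J : ℕ) : ℝ) * Δ with hΔ₁
  set Loc : MvPolynomial (Var n) ℤ → Finset (Var n → ℤ) := fun g =>
    locSetM Λ ξ a₀ ρ ρ' S J xc (mem' fc S J g) K 1 0 Δ₁ with hLoc
  set LocD : MvPolynomial (Var n) ℤ → (Var n → ℤ) → Finset (Var n → ℤ) := fun g ζ =>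
    locSetM Λ ξ a₀ ρ ρ' S J xc (mem' fc S J g) K D ζ Δ₁ with hLocD
  have hBp : ∀ i, (1:ℝ) ≤ 2 * Λ i := hs.hB
  have hA1 : ∀ p ∈ Gd, (c2M d A u p : ℝ) * ((2 * Δ / K - 1) * (2 * Δ / (K * D) - 1)) ≤
      (((formsM n d A₂).filter
        (fun g => p.1 ∈ Loc g ∧ p.2 ∈ LocD g (fun a => (lam p a.1 : ℤ) * p.1 a))).card : ℝ) := by
    intro p hp
    obtain ⟨h1, h2, g, hg0, hg1, hg2, ⟨q, hg3⟩, hg4, hg5, hg6, hg7, hg8⟩ := hGd p hp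
    have ht1 := testM_tst h1
    have ht2 := testM_tst h2
    have hq0 : mnr p.1 p.2 q ≠ 0 := by
      intro h
      rw [h] at hg3
      simp only [Int.cast_zero, abs_zero] at hg3
      have : 0 < κ * L ^ 2 := mul_pos hκ (pow_pos (by linarith [hs.hL]) 2)
      linarith
    have hk1 := ker1_gen ht1 hs.hB hs.hBL hs.hL hs.ha (De + 1) d (by rw [hDe])
    have hk2 := ker2_c hs ht1 ht2 hDe q hq0 hg4 (G := g) hg2 hLg0 hLg
    have hk2' := hk2.mono_scale hC2.le (Θ' := κ * ∏ i, (2 * Λ i) ^ d i)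
      (mul_pos hκ hs.theta_pos) (by
        rw [mul_comm κ]
        apply mul_le_mul_of_nonneg_left _ hs.theta_pos.le
        rw [le_div_iff₀ (pow_pos (by linarith [hs.hL]) 2)]
        exact hg3)
    have key := cnt2M_cond (M := (monsM n d).card) hk1 hk2' hC1 hC2 hs.theta_pos
      (E1_nonneg hs.hL hs.ha) (E2_nonneg hs.hL hs.ha hLg0) hκ (Nat.cast_nonneg _) (by
        intro f R hf
        exact Pool.Agent.Y510.M6.IsM.eval_leM (B := fun i => 2 * Λ i) hf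
          (fun i j => (ht2.sz i).1 j)) (u p.1) (u p.2)
      hK hD hg0 hg7 hΔ hΔK hA
    refine key.trans ?_
    have : ((formsM n d A₂).filter
      (fun f => ((K : ℤ) ∣ MvPolynomial.eval p.1 f - u p.1 ∧
        |((MvPolynomial.eval p.1 f - u p.1 : ℤ) : ℝ)| ≤ Δ) ∧
        ((K : ℤ) ∣ MvPolynomial.eval p.2 f - u p.2 ∧
        |((MvPolynomial.eval p.2 f - u p.2 : ℤ) : ℝ)| ≤ Δ))).card ≤ ((formsM n d A₂).filter
        (fun g => p.1 ∈ Loc g ∧ p.2 ∈ LocD g (fun a => (lam p a.1 : ℤ) * p.1 a))).card := by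
      apply Finset.card_le_card
      intro f hf
      rw [Finset.mem_filter] at hf ⊢
      obtain ⟨hf1, ⟨hf2, hf3⟩, hf4, hf5⟩ := hf
      have hx1 := (mem_testM.mp h1).1
      have hy1 := (mem_testM.mp h2).1
      refine ⟨hf1, ?_, ?_⟩
      · exact mem_locSetM_of hx1 (hu _ hx1) hf2 hf3 (fun a => by simp)
      · exact mem_locSetM_of hy1 (hu _ hy1) hf4 hf5 (hlam2 p hp)
    exact_mod_cast this
  have hB1 : ∑ p ∈ Gd, (((formsM n d A₂).filter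
      (fun g => p.1 ∈ Loc g ∧ p.2 ∈ LocD g (fun a => (lam p a.1 : ℤ) * p.1 a))).card : ℝ) =
      ∑ g ∈ formsM n d A₂, ((Gd.filter
        (fun p => p.1 ∈ Loc g ∧ p.2 ∈ LocD g (fun a => (lam p a.1 : ℤ) * p.1 a))).card : ℝ) := by
    simp only [Finset.card_filter, Nat.cast_sum]
    exact Finset.sum_comm
  have hB2 : ∀ g ∈ formsM n d A₂, ((Gd.filter
        (fun p => p.1 ∈ Loc g ∧ p.2 ∈ LocD g (fun a => (lam p a.1 : ℤ) * p.1 a))).card : ℝ) ≤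
        R₁ * ((D : ℝ) ^ r * R₂) := by
    intro g hg
    have hsub : (Gd.filter (fun p => p.1 ∈ Loc g ∧
        p.2 ∈ LocD g (fun a => (lam p a.1 : ℤ) * p.1 a))) ⊆
        ((Loc g) ×ˢ (Fintype.piFinset (fun _ : Fin r => Finset.range D))).biUnion
          (fun s => (LocD g (fun a => ((s.2 a.1 : ℕ) : ℤ) * s.1 a)).image (fun y => (s.1, y))) := by
      intro p hp
      rw [Finset.mem_filter] at hp
      rw [Finset.mem_biUnion]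
      refine ⟨(p.1, lam p), ?_, ?_⟩
      · rw [Finset.mem_product]
        refine ⟨hp.2.1, ?_⟩
        rw [Fintype.mem_piFinset]
        intro i
        exact Finset.mem_range.mpr (hlam1 p hp.1 i)
      · rw [Finset.mem_image]
        exact ⟨p.2, hp.2.2, rfl⟩
    have h1 := (Finset.card_le_card hsub).trans Finset.card_biUnion_le
    have h1' := (Nat.cast_le (α := ℝ)).mpr h1
    rw [Nat.cast_sum] at h1'
    refine h1'.trans ?_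
    have h2 : ∀ s ∈ (Loc g) ×ˢ (Fintype.piFinset (fun _ : Fin r => Finset.range D)),
        (((LocD g (fun a => ((s.2 a.1 : ℕ) : ℤ) * s.1 a)).image (fun y => (s.1, y))).card : ℝ) ≤
          R₂ := by
      intro s _
      refine le_trans ?_ (hL2 g hg (fun a => ((s.2 a.1 : ℕ) : ℤ) * s.1 a))
      exact_mod_cast Finset.card_image_le
    refine (Finset.sum_le_sum h2).trans ?_
    rw [Finset.sum_const, nsmul_eq_mul, Finset.card_product, Fintype.card_piFinset]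
    simp only [Finset.card_range, Finset.prod_const, Finset.card_univ, Fintype.card_fin]
    push_cast
    rw [mul_assoc]
    apply mul_le_mul_of_nonneg_right (hL1 g hg) (by positivity)
  rw [Finset.sum_mul]
  refine (Finset.sum_le_sum hA1).trans ?_
  rw [hB1]
  refine (Finset.sum_le_sum hB2).trans ?_
  rw [Finset.sum_const, nsmul_eq_mul]

open scoped Classical in
theorem good_sumM {b : Fin r} {d : Fin r → ℕ} {De : ℕ} (hDe : ∑ i, d i = De + 2) {w : ℕ}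
    (hw : 1 ≤ w)
    {fc : MvPolynomial (Var n) ℤ} {S J : ℕ} {xc : Var n → ℤ}
    {Λ : Fin r → ℝ} {ξ : Var n → ℝ} {a₀ : Var n} {ρ ρ' L a A A₂ Δ κ : ℝ}
    (hs : Scl b d (fun i => 2 * Λ i) L a) (hκ : 0 < κ)
    {Lg : ℝ} (hLg0 : 0 ≤ Lg)
    (hLg : ∀ s : ℕ, (s : ℝ) ≤ 15 * (Fintype.card (Var n)) ^ 2 * a * (2 * Λ b) →
      (Nat.log 2 s : ℝ) ≤ Lg)
    (hC1 : 0 < c1pt (Fintype.card (Var n)) (De + 1)) (hC2 : 0 < C2 (Fintype.card (Var n)) De)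
    (u : (Var n → ℤ) → ℤ)
    (hu : ∀ x ∈ boxM Λ ξ a₀ ρ ρ' S xc, MvPolynomial.eval x fc = -(((S * J : ℕ) : ℤ) * u x))
    {K N : ℕ} (hK : 0 < K) (hΔ : 0 ≤ Δ) (hΔK : K * N ≤ Δ)
    (hA : A + (c1pt (Fintype.card (Var n)) (De + 1) + C2 (Fintype.card (Var n)) De *
      (1 + (monsM n d).card * c1pt (Fintype.card (Var n)) (De + 1)) / κ) *
      (Δ / (∏ i, (2 * Λ i) ^ d i) + K * E1 (Fintype.card (Var n)) L a (Ds b d)) +
      C2 (Fintype.card (Var n)) De * E2 (Fintype.card (Var n)) L a Lg (Ds b d) ≤ A₂)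
    {R₁ E : ℝ} {R₂ : ℕ → ℝ} (hR₂ : ∀ D, 0 ≤ R₂ D) (hE : 0 ≤ E)
    (hL1 : ∀ g ∈ formsM n d A₂,
      ((locSetM Λ ξ a₀ ρ ρ' S J xc (mem' fc S J g) K 1 0 ((S * J : ℕ) * Δ)).card : ℝ) ≤ R₁)
    (hL2 : ∀ D : ℕ, 0 < D → D ≤ N → (∀ q : ℕ, q.Prime → q ≤ w → ¬ q ∣ D) →
      ∀ g ∈ formsM n d A₂, ∀ ζ,
      ((locSetM Λ ξ a₀ ρ ρ' S J xc (mem' fc S J g) K D ζ ((S * J : ℕ) * Δ)).card : ℝ) ≤ R₂ D)
    (hED : ∀ D : ℕ, 0 < D → D ≤ N → (formsM n d A₂).card * (R₁ * ((D : ℝ) ^ r * R₂ D)) ≤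
      (formsM n d A).card * (E * (1 / (D : ℝ) ^ 2)) *
        ((2 * Δ / K - 1) * (2 * Δ / (K * D) - 1)))
    (Gd : Finset ((Var n → ℤ) × (Var n → ℤ)))
    (hGd : ∀ p ∈ Gd, p.1 ∈ testM b a Λ ξ a₀ ρ ρ' S xc ∧ p.2 ∈ testM b a Λ ξ a₀ ρ ρ' S xc ∧
      ∃ D, GoodPairM b w K N L κ p D) :
    ∑ p ∈ Gd, (c2M d A u p : ℝ) ≤ (formsM n d A).card * E * (1 + 1 / w) := by
  choose! Df hDf using fun p hp => (hGd p hp).2.2
  set 𝒟 := Gd.image Df with h𝒟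
  have hKr : (1:ℝ) ≤ K := by exact_mod_cast hK
  have h𝒟p : ∀ D ∈ 𝒟, 0 < D ∧ D ≤ N ∧ (∀ q : ℕ, q.Prime → q ≤ w → ¬ q ∣ D) := by
    intro D hD
    obtain ⟨p, hp, rfl⟩ := Finset.mem_image.mp hD
    obtain ⟨g, hg0, hg1, hg2, hg3, hg4, hg5, hg6, hg7, hg8⟩ := hDf p hp
    exact ⟨hg5, hg6, hg8⟩
  rw [← Finset.sum_fiberwise_of_maps_to (fun p hp => Finset.mem_image_of_mem Df hp :
    ∀ p ∈ Gd, Df p ∈ 𝒟)]
  have hterm : ∀ D ∈ 𝒟, ∑ p ∈ Gd.filter (fun p => Df p = D), (c2M d A u p : ℝ) ≤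
      (formsM n d A).card * E * (1 / (D : ℝ) ^ 2) := by
    intro D hD
    obtain ⟨hD1, hD2, hD3⟩ := h𝒟p D hD
    have hD1r : (1:ℝ) ≤ D := by exact_mod_cast hD1
    have hKD : (K:ℝ) * D ≤ Δ := by
      have h0 : (D:ℝ) ≤ N := by exact_mod_cast hD2
      have h1 := mul_le_mul_of_nonneg_left h0 (by linarith : (0:ℝ) ≤ K)
      linarith
    have key := good_sum_DM hDe hs hκ hLg0 hLg hC1 hC2 u hu hK hD1 hΔ hKD hA (hR₂ D) hL1
      (hL2 D hD1 hD2 hD3) (Gd.filter (fun p => Df p = D)) (by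
        intro p hp
        rw [Finset.mem_filter] at hp
        have h1 := hGd p hp.1
        refine ⟨h1.1, h1.2.1, ?_⟩
        rw [← hp.2]
        exact hDf p hp.1)
    have key2 := key.trans (hED D hD1 hD2)
    have hpos1 : 0 < 2 * Δ / K - 1 := by
      rw [sub_pos, lt_div_iff₀ (by linarith)]
      have h0 : (K:ℝ) ≤ K * D := le_mul_of_one_le_right (by linarith) hD1r
      linarith
    have hpos2 : 0 < 2 * Δ / (K * D) - 1 := by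
      rw [sub_pos, lt_div_iff₀ (by positivity)]
      have : 0 < (K:ℝ) * D := by positivity
      linarith
    have := le_of_mul_le_mul_right key2 (mul_pos hpos1 hpos2)
    refine this.trans (le_of_eq ?_)
    ring
  refine (Finset.sum_le_sum hterm).trans ?_
  rw [← Finset.mul_sum]
  apply mul_le_mul_of_nonneg_left _ (by positivity)
  exact sum_D_bound hw 𝒟 (fun D hD => ⟨(h𝒟p D hD).2.1, one_or_gt (h𝒟p D hD).1 (h𝒟p D hD).2.2⟩)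

end Pool.Agent.Y716.M
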