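import Pool.Agent.Y716.M.Data
import Pool.Agent.Y716.M.Comb

/-!
# One-point and two-point properties of test vectors
-/

namespace Pool.Agent.Y716.M

open Pool.Agent.Y716.Q

variable {r : ℕ} {n : Fin r → ℕ}

/-- properties of a test vector -/
structure Tst (b : Fin r) (B : Fin r → ℝ) (a : ℝ) (z : Var n → ℤ) : Prop where
  sz : ∀ i, Sz (B i) (bl z i)
  pr : ∀ i, Prim (bl z i)
  bal : Bal (B b) a (bl z b)

/-- properties of the scales -/
structure Scl (b : Fin r) (d : Fin r → ℕ) (B : Fin r → ℝ) (L a : ℝ) : Prop where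
  hB : ∀ i, 1 ≤ B i
  hBL : ∀ i, i ≠ b → B i = L
  hL : 1 ≤ L
  ha : 1 ≤ a
  haB : a ≤ B b
  hdb : 2 ≤ d b
  hd : ∀ i, 1 ≤ d i
  hDs : 2 ≤ Ds b d

/-- the error in the one-point property -/
noncomputable def E1 (N : ℕ) (L a : ℝ) (D : ℕ) : ℝ := 4 * N * L + a / L ^ D

/-- the error in the two-point property -/
noncomputable def E2 (N : ℕ) (L a Lg : ℝ) (D : ℕ) : ℝ :=
  4 * N * L ^ 2 + a + (1 + Lg) * (a * E1 N L a D)

theorem ker1_gen {b : Fin r} {B : Fin r → ℝ} {L a : ℝ} {z : Var n → ℤ} (hz : Tst b B a z)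
    (hB : ∀ i, 1 ≤ B i) (hBL : ∀ i, i ≠ b → B i = L) (hL : 1 ≤ L) (ha : 1 ≤ a)
    (D : ℕ) (d : Fin r → ℕ) (hD : ∑ i, d i = D + 1) :
    Ker1 d z (c1pt (Fintype.card (Var n)) D) (∏ i, B i ^ d i)
      (E1 (Fintype.card (Var n)) L a (Ds b d)) := by
  classical
  intro u
  have hN1 : (1:ℝ) ≤ Fintype.card (Var n) := by
    have h1 := card_block_le (n := n) b
    have : 1 ≤ Fintype.card (Var n) := by omega
    exact_mod_cast this
  have hΘ : 0 < ∏ i, B i ^ d i := Finset.prod_pos (fun i _ => pow_pos (by linarith [hB i]) _)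
  have hq : 0 ≤ |(u : ℝ)| / ∏ i, B i ^ d i := by positivity
  have hLD : 0 < L ^ Ds b d := by positivity
  have haL : 0 ≤ a / L ^ Ds b d := by positivity
  have hNL : 0 ≤ 4 * (Fintype.card (Var n) : ℝ) * L := by positivity
  have h4 : 1 ≤ 4 * (Fintype.card (Var n) : ℝ) * L := by nlinarith
  apply onepointM (b := b) (B := B) (av := fun i => if i = b then a else 4 * (n i + 1 : ℕ) * L)
    (L := L) hz.sz _ hB hBL D d hD
  · intro i hi
    simp only [if_neg hi]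
    unfold E1
    have h1 : (4 * ((n i + 1 : ℕ) : ℝ)) * L ≤ (4 * (Fintype.card (Var n) : ℝ)) * L := by
      apply mul_le_mul_of_nonneg_right _ (by linarith)
      have : ((n i + 1 : ℕ) : ℝ) ≤ (Fintype.card (Var n) : ℝ) := by
        exact_mod_cast card_block_le i
      linarith
    linarith
  · unfold E1; linarith
  · intro _
    simp only [if_true]
    unfold E1
    rw [add_mul, add_mul]
    have h1 : a / L ^ Ds b d * L ^ Ds b d = a := div_mul_cancel₀ _ hLD.ne'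
    have h2 : 0 ≤ |(u : ℝ)| / (∏ i, B i ^ d i) * L ^ Ds b d := by positivity
    have h3 : 0 ≤ 4 * (Fintype.card (Var n) : ℝ) * L * L ^ Ds b d := by positivity
    linarith
  · unfold E1
    rw [add_mul, div_mul_cancel₀ _ hΘ.ne']
    have : 0 ≤ (4 * (Fintype.card (Var n) : ℝ) * L + a / L ^ Ds b d) * ∏ i, B i ^ d i := by
      positivity
    linarith
  · intro i
    by_cases hi : i = b
    · subst hi
      simp only [if_true]
      exact hz.bal
    · simp only [if_neg hi]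
      rw [hBL i hi]
      have h1 := prim_bal hL (hz.pr i) (by rw [← hBL i hi]; exact hz.sz i)
      rw [Fintype.card_fin] at h1
      exact h1

theorem Scl.theta_pos {b : Fin r} {d : Fin r → ℕ} {B : Fin r → ℝ} {L a : ℝ}
    (h : Scl b d B L a) : 0 < ∏ i, B i ^ d i :=
  Finset.prod_pos (fun i _ => pow_pos (by linarith [h.hB i]) _)

theorem Scl.theta_ge {b : Fin r} {d : Fin r → ℕ} {B : Fin r → ℝ} {L a : ℝ}
    (h : Scl b d B L a) : L ^ Ds b d * B b ^ 2 ≤ ∏ i, B i ^ d i := by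
  rw [← prod_pow_ge (b := b) h.hB h.hBL]
  apply mul_le_mul_of_nonneg_left _ (by have := h.hL; positivity)
  exact pow_le_pow_right₀ (h.hB b) h.hdb

theorem Scl.theta_ge' {b : Fin r} {d : Fin r → ℕ} {B : Fin r → ℝ} {L a : ℝ}
    (h : Scl b d B L a) : L ^ 2 * B b ^ 2 ≤ ∏ i, B i ^ d i := by
  refine le_trans ?_ h.theta_ge
  apply mul_le_mul_of_nonneg_right _ (by positivity)
  exact pow_le_pow_right₀ h.hL h.hDs

/-- constant of the kernel in the main block -/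
noncomputable def Cx (N D : ℕ) : ℝ := 465 * N ^ 4 * c1pt N D

/-- Separation in the main block. -/
theorem ker2_x {b : Fin r} {d : Fin r → ℕ} {B : Fin r → ℝ} {L a : ℝ} {z w : Var n → ℤ}
    (hs : Scl b d B L a) (hz : Tst b B a z) (hw : Tst b B a w) {D : ℕ}
    (hD : ∑ i, d i = D + 2)
    {g : ℤ} (hg0 : g ≠ 0) (hg : ∀ i j, g ∣ mn (bl z b) (bl w b) i j)
    (hgmax : ∀ D, (∀ i j, D ∣ mn (bl z b) (bl w b) i j) → D ∣ g) {μ : ℝ} (hμ0 : 0 < μ)
    (hμ : ∃ i j, μ ≤ |(mn (bl z b) (bl w b) i j : ℝ)|) {Lg : ℝ}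
    (hLg : ∀ s : ℕ, (s : ℝ) ≤ 15 * (Fintype.card (Var n)) ^ 2 * a * B b →
      (Nat.log 2 s : ℝ) ≤ Lg) :
    Ker2 d z w g (Cx (Fintype.card (Var n)) D) ((∏ i, B i ^ d i) * (μ / B b ^ 2))
      ((1 + Lg) * (a * E1 (Fintype.card (Var n)) L a (Ds b d))) := by
  classical
  intro v hv
  obtain ⟨N, hN⟩ : ∃ N : ℕ, N = Fintype.card (Var n) := ⟨_, rfl⟩
  have hbN : n b + 1 ≤ N := by rw [hN]; exact card_block_le b
  have hbNr : ((n b + 1 : ℕ) : ℝ) ≤ N := by exact_mod_cast hbN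
  have hN1 : (1:ℝ) ≤ N := by
    have : 1 ≤ N := by omega
    exact_mod_cast this
  have ha := hs.ha
  have hBb := hs.hB b
  have hL := hs.hL
  have hLg' : ∀ s : ℕ, (s : ℝ) ≤ 15 * (Fintype.card (Fin (n b + 1))) ^ 2 * a * B b →
      (Nat.log 2 s : ℝ) ≤ Lg := by
    intro s h
    apply hLg
    refine h.trans ?_
    rw [Fintype.card_fin, ← hN]
    have h1 : (((n b + 1 : ℕ) : ℝ)) ^ 2 ≤ (N : ℝ) ^ 2 := pow_le_pow_left₀ (by positivity) hbNr 2
    apply mul_le_mul_of_nonneg_right _ (by linarith)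
    apply mul_le_mul_of_nonneg_right _ (by linarith)
    linarith
  obtain ⟨m, L₀, Lj, c₀, cj, hm, hL₀, hLj, hL₀z, hLjz, hval, hc₀, hcj⟩ :=
    kernel_comb hz.bal (hz.sz b) (hz.pr b) (hw.sz b) ha hs.haB hg0 hg hgmax hμ0 hμ hLg' hv
  rw [Fintype.card_fin] at hL₀ hLj hc₀ hcj
  have hdb : 0 < d b := by have := hs.hdb; omega
  have hsum : ∑ i, dn d b i = D + 1 := by have := sum_dn hdb; omega
  have hk1 := ker1_gen hw hs.hB hs.hBL hL ha D (dn d b) hsum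
  rw [Ds_dn_self, ← hN] at hk1
  rw [← hN]
  obtain ⟨C, hC⟩ : ∃ C : ℝ, c1pt N D = C := ⟨_, rfl⟩
  have hC0 : 0 ≤ C := by rw [← hC]; exact c1pt_nonneg _ _
  obtain ⟨E, hE⟩ : ∃ E : ℝ, E1 N L a (Ds b d) = E := ⟨_, rfl⟩
  rw [hC, hE] at hk1
  rw [hE]
  obtain ⟨Θ, hΘ⟩ : ∃ Θ : ℝ, ∏ i, B i ^ d i = Θ := ⟨_, rfl⟩
  obtain ⟨Θ', hΘ'⟩ : ∃ Θ' : ℝ, ∏ i, B i ^ dn d b i = Θ' := ⟨_, rfl⟩
  have hΘΘ' : B b * Θ' = Θ := by rw [← hΘ, ← hΘ', prod_dn hdb]
  rw [hΘ'] at hk1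
  rw [hΘ]
  have hΘ0 : 0 < Θ := by rw [← hΘ]; exact hs.theta_pos
  have hB0 : 0 < B b := by linarith
  have hΘ'0 : 0 < Θ' := by
    have : 0 < B b * Θ' := by rw [hΘΘ']; exact hΘ0
    exact (pos_iff_pos_of_mul_pos this).mp hB0
  have hLD : 0 < L ^ Ds b d := by positivity
  have hΘge : L ^ Ds b d * B b ^ 2 ≤ Θ := by rw [← hΘ]; exact hs.theta_ge
  have haLE : a / L ^ Ds b d ≤ E := by
    rw [← hE]; unfold E1
    have : 0 ≤ 4 * (N : ℝ) * L := by positivity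
    linarith
  have hE0 : 0 < E := lt_of_lt_of_le (by positivity) haLE
  choose h hh1 hh2 using hk1
  -- quotient bounds
  have hq : ∀ c X : ℝ, 0 ≤ X → c ≤ X * (B b) → c / Θ' ≤ X * (B b ^ 2 / Θ) := by
    intro c X hX hc
    rw [div_le_iff₀ hΘ'0]
    have h1 : X * (B b ^ 2 / Θ) * Θ' = X * B b := by
      rw [← hΘΘ']; field_simp
    rw [h1]; exact hc
  have hBΘ : B b ^ 2 / Θ ≤ 1 / L ^ Ds b d := by
    rw [div_le_div_iff₀ hΘ0 hLD]; linarith
  have hcjb : ∀ j, |(cj j : ℝ)| / Θ' ≤ 15 * N ^ 2 * E := by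
    intro j
    have h1 := hq |(cj j : ℝ)| (15 * N ^ 2 * a) (by positivity) (by
      refine (hcj j).trans ?_
      have h2 : (((n b + 1 : ℕ) : ℝ)) ^ 2 ≤ (N : ℝ) ^ 2 := pow_le_pow_left₀ (by positivity) hbNr 2
      apply mul_le_mul_of_nonneg_right _ hB0.le
      apply mul_le_mul_of_nonneg_right _ (by linarith)
      linarith)
    refine h1.trans ?_
    have h2 := mul_le_mul_of_nonneg_left hBΘ (by positivity : (0:ℝ) ≤ 15 * N ^ 2 * a)
    refine h2.trans ?_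
    have h3 : 15 * (N:ℝ) ^ 2 * a * (1 / L ^ Ds b d) = 15 * N ^ 2 * (a / L ^ Ds b d) := by ring
    rw [h3]
    exact mul_le_mul_of_nonneg_left haLE (by positivity)
  have hc₀b : |(c₀ : ℝ)| / Θ' ≤ 8 * |(v : ℝ)| * (B b ^ 2 / Θ) / (μ * a) + m * (15 * N ^ 2 * E) := by
    have h1 := hq |(c₀ : ℝ)| (8 * |(v : ℝ)| / (μ * a) + m * (15 * N ^ 2 * a)) (by positivity) (by
      refine hc₀.trans ?_
      have h2 : (((n b + 1 : ℕ) : ℝ)) ^ 2 ≤ (N : ℝ) ^ 2 := pow_le_pow_left₀ (by positivity) hbNr 2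
      have h3 : (15 * (((n b + 1 : ℕ) : ℝ)) ^ 2 * a * B b) ≤ (15 * N ^ 2 * a) * B b := by
        apply mul_le_mul_of_nonneg_right _ hB0.le
        apply mul_le_mul_of_nonneg_right _ (by linarith)
        linarith
      have h4 := mul_le_mul_of_nonneg_left h3 (Nat.cast_nonneg (α := ℝ) m)
      rw [add_mul]
      have h5 : 8 * B b * |(v : ℝ)| / (μ * a) = 8 * |(v : ℝ)| / (μ * a) * B b := by ring
      linarith)
    refine h1.trans ?_
    rw [add_mul]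
    have h2 : (m:ℝ) * (15 * N ^ 2 * a) * (B b ^ 2 / Θ) ≤ m * (15 * N ^ 2 * E) := by
      have h2 := mul_le_mul_of_nonneg_left hBΘ (by positivity : (0:ℝ) ≤ m * (15 * N ^ 2 * a))
      refine h2.trans ?_
      have h3 : (m:ℝ) * (15 * (N:ℝ) ^ 2 * a) * (1 / L ^ Ds b d) =
          m * (15 * N ^ 2 * (a / L ^ Ds b d)) := by ring
      rw [h3]
      apply mul_le_mul_of_nonneg_left _ (Nat.cast_nonneg m)
      exact mul_le_mul_of_nonneg_left haLE (by positivity)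
    have h3 : 8 * |(v : ℝ)| / (μ * a) * (B b ^ 2 / Θ) =
        8 * |(v : ℝ)| * (B b ^ 2 / Θ) / (μ * a) := by ring
    linarith
  have ha₁ : ∀ l : Fin (n b + 1) → ℤ, (∀ i, |(l i : ℝ)| ≤ 15 * ((n b + 1 : ℕ) : ℝ) * a) →
      ∀ i, |(l i : ℝ)| ≤ 15 * N * a := by
    intro l hl i
    refine (hl i).trans ?_
    apply mul_le_mul_of_nonneg_right _ (by linarith)
    linarith
  have h15 : (0:ℝ) ≤ 15 * N * a := by positivity
  have hf0 := linb_mul_isM hdb (ha₁ _ hL₀) h15 (hh1 c₀)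
  have hfj : ∀ j, IsM d (Fintype.card (Var n) * (15 * N * a *
      (C * (|(cj j : ℝ)| / Θ' + E)))) (linb b (Lj j) * h (cj j)) :=
    fun j => linb_mul_isM hdb (ha₁ _ (hLj j)) h15 (hh1 (cj j))
  have hfs := IsM.sum Finset.univ _ _ (fun j (_ : j ∈ Finset.univ) => hfj j)
  refine ⟨linb b L₀ * h c₀ + ∑ j, linb b (Lj j) * h (cj j), ?_, ?_, ?_⟩
  · refine (hf0.add hfs).mono ?_
    rw [← hN]
    have e1 : (N:ℝ) * (15 * N * a * (C * (|(c₀ : ℝ)| / Θ' + E))) ≤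
        (N:ℝ) * (15 * N * a * (C * (8 * |(v : ℝ)| * (B b ^ 2 / Θ) / (μ * a) +
          m * (15 * N ^ 2 * E) + E))) := by
      apply mul_le_mul_of_nonneg_left _ (by linarith)
      apply mul_le_mul_of_nonneg_left _ h15
      apply mul_le_mul_of_nonneg_left _ hC0
      linarith
    have e2 : ∑ j : Fin m, (N:ℝ) * (15 * N * a * (C * (|(cj j : ℝ)| / Θ' + E))) ≤
        m * ((N:ℝ) * (15 * N * a * (C * (15 * N ^ 2 * E + E)))) := by
      have : ∑ j : Fin m, (N:ℝ) * (15 * N * a * (C * (|(cj j : ℝ)| / Θ' + E))) ≤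
          ∑ _j : Fin m, (N:ℝ) * (15 * N * a * (C * (15 * N ^ 2 * E + E))) := by
        refine Finset.sum_le_sum (fun j _ => ?_)
        apply mul_le_mul_of_nonneg_left _ (by linarith)
        apply mul_le_mul_of_nonneg_left _ h15
        apply mul_le_mul_of_nonneg_left _ hC0
        linarith [hcjb j]
      rwa [Finset.sum_const, Finset.card_univ, Fintype.card_fin, nsmul_eq_mul] at this
    refine (add_le_add e1 e2).trans ?_
    unfold Cx
    rw [hC]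
    obtain ⟨ν, hν⟩ : ∃ ν, |(v : ℝ)| / (Θ * (μ / B b ^ 2)) = ν := ⟨_, rfl⟩
    have hν0 : 0 ≤ ν := by rw [← hν]; positivity
    have hν2 : 8 * |(v : ℝ)| * (B b ^ 2 / Θ) / (μ * a) = 8 * ν / a := by
      rw [← hν]; field_simp
    rw [hν, hν2]
    have e3 : (N:ℝ) * (15 * N * a * (C * (8 * ν / a + m * (15 * N ^ 2 * E) + E))) +
        m * (N * (15 * N * a * (C * (15 * N ^ 2 * E + E)))) =
        120 * N ^ 2 * C * ν + 15 * N ^ 2 * C * (a * E) * (m * (30 * N ^ 2 + 1) + 1) := by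
      field_simp
      ring
    rw [e3]
    have hN2 : 1 ≤ (N:ℝ) ^ 2 := one_le_pow₀ hN1
    have e4 : 120 * (N:ℝ) ^ 2 * C * ν ≤ 465 * N ^ 4 * C * ν := by
      apply mul_le_mul_of_nonneg_right _ hν0
      apply mul_le_mul_of_nonneg_right _ hC0
      nlinarith
    have hm0 : (0:ℝ) ≤ m := Nat.cast_nonneg m
    have e5 : m * (30 * (N:ℝ) ^ 2 + 1) + 1 ≤ 31 * N ^ 2 * (1 + Lg) := by
      nlinarith
    have e6 : 15 * (N:ℝ) ^ 2 * C * (a * E) * (m * (30 * N ^ 2 + 1) + 1) ≤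
        15 * N ^ 2 * C * (a * E) * (31 * N ^ 2 * (1 + Lg)) :=
      mul_le_mul_of_nonneg_left e5 (by positivity)
    have e7 : 465 * (N:ℝ) ^ 4 * C * (ν + (1 + Lg) * (a * E)) =
        465 * N ^ 4 * C * ν + 15 * N ^ 2 * C * (a * E) * (31 * N ^ 2 * (1 + Lg)) := by ring
    rw [e7]
    linarith
  · rw [map_add, map_mul, eval_linb, hL₀z, zero_mul, zero_add, map_sum]
    apply Finset.sum_eq_zero
    intro j _
    rw [map_mul, eval_linb, hLjz j, zero_mul]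
  · rw [map_add, map_mul, eval_linb, hh2, map_sum, ← hval]
    have : ∀ j, MvPolynomial.eval w (linb b (Lj j) * h (cj j)) =
        cj j * ∑ i, Lj j i * bl w b i := by
      intro j
      rw [map_mul, eval_linb, hh2]; ring
    simp only [this]
    ring

end Pool.Agent.Y716.M
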