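import Pool.Agent.Y716.M.Ker

/-!
# Two-point properties: separation outside of the main block
-/

namespace Pool.Agent.Y716.M

open Pool.Agent.Y716.Q

/-- Integer combinations with small coefficients outside of a given index. -/
theorem combo_star {I : Type*} [Fintype I] (m : I → ℤ) (s : I) (hs : m s ≠ 0) {G v : ℤ}
    (hG : ∀ D, (∀ i, D ∣ m i) → D ∣ G) (hv : G ∣ v) :
    ∃ c : I → ℤ, ∑ i, c i * m i = v ∧ (∀ i, i ≠ s → |(c i : ℝ)| ≤ |(m s : ℝ)|) ∧
      |(c s : ℝ)| * |(m s : ℝ)| ≤ |(v : ℝ)| + |(m s : ℝ)| * ∑ i, |(m i : ℝ)| := by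
  classical
  obtain ⟨g, hg⟩ := (IsPrincipalIdealRing.principal (Ideal.span (Set.range m))).principal
  have hgd : ∀ i, g ∣ m i := by
    intro i
    have : m i ∈ Ideal.span (Set.range m) := Ideal.subset_span ⟨i, rfl⟩
    rw [hg] at this
    exact Ideal.mem_span_singleton.mp this
  have hgv : v ∈ Ideal.span (Set.range m) := by
    rw [hg]
    exact Ideal.mem_span_singleton.mpr ((hG g hgd).trans hv)
  rw [Ideal.mem_span_range_iff_exists_fun] at hgv
  obtain ⟨c', hc'⟩ := hgv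
  set cs : ℤ := c' s + ∑ i ∈ Finset.univ.erase s, (c' i / m s) * m i with hcs
  set c : I → ℤ := fun i => if i = s then cs else c' i % m s with hc
  have hsum : ∑ i, c i * m i = v := by
    rw [← Finset.sum_erase_add _ _ (Finset.mem_univ s), ← hc',
      ← Finset.sum_erase_add _ (fun i => c' i * m i) (Finset.mem_univ s)]
    have h1 : ∑ i ∈ Finset.univ.erase s, c i * m i =
        ∑ i ∈ Finset.univ.erase s, (c' i % m s) * m i := by
      refine Finset.sum_congr rfl (fun i hi => ?_)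
      rw [hc]
      simp only [if_neg (Finset.ne_of_mem_erase hi)]
    have h2 : c s = cs := by rw [hc]; simp
    rw [h1, h2, hcs, add_mul, Finset.sum_mul]
    have h3 : ∑ i ∈ Finset.univ.erase s, c' i * m i =
        ∑ i ∈ Finset.univ.erase s, (c' i % m s) * m i +
        ∑ i ∈ Finset.univ.erase s, (c' i / m s) * m i * m s := by
      rw [← Finset.sum_add_distrib]
      refine Finset.sum_congr rfl (fun i _ => ?_)
      have := Int.mul_ediv_add_emod (c' i) (m s)
      linear_combination (-(m i)) * this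
    rw [h3]; ring
  have hmod : ∀ i, i ≠ s → |(c i : ℝ)| ≤ |(m s : ℝ)| := by
    intro i hi
    have h0 : c i = c' i % m s := by rw [hc]; simp only [if_neg hi]
    rw [h0]
    have h2 := Int.emod_nonneg (c' i) hs
    have h3 := Int.emod_lt_abs (c' i) hs
    have : |c' i % m s| ≤ |m s| := by rw [abs_of_nonneg h2]; exact h3.le
    exact_mod_cast this
  refine ⟨c, hsum, hmod, ?_⟩
  have h5 : (c s : ℝ) * (m s : ℝ) = (v : ℝ) - ∑ i ∈ Finset.univ.erase s, (c i : ℝ) * (m i : ℝ) := by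
    have h6 : ∑ i ∈ Finset.univ.erase s, c i * m i + c s * m s = v := by
      rw [Finset.sum_erase_add _ _ (Finset.mem_univ s)]; exact hsum
    have : ((∑ i ∈ Finset.univ.erase s, c i * m i + c s * m s : ℤ) : ℝ) = (v : ℝ) := by
      rw [h6]
    push_cast at this
    linarith
  rw [← abs_mul, h5]
  refine (abs_sub _ _).trans ?_
  apply add_le_add le_rfl
  refine (Finset.abs_sum_le_sum_abs _ _).trans ?_
  rw [Finset.mul_sum]
  calc ∑ i ∈ Finset.univ.erase s, |(c i : ℝ) * (m i : ℝ)| ≤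
      ∑ i ∈ Finset.univ.erase s, |(m s : ℝ)| * |(m i : ℝ)| := by
        refine Finset.sum_le_sum (fun i hi => ?_)
        rw [abs_mul]
        exact mul_le_mul_of_nonneg_right (hmod i (Finset.ne_of_mem_erase hi)) (abs_nonneg _)
    _ ≤ ∑ i, |(m s : ℝ)| * |(m i : ℝ)| :=
        Finset.sum_le_sum_of_subset_of_nonneg (Finset.erase_subset _ _)
          (fun _ _ _ => by positivity)

variable {r : ℕ} {n : Fin r → ℕ}

/-- the index set of the minors outside of the main block -/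
abbrev MI (n : Fin r → ℕ) (b : Fin r) : Type :=
  Σ i : {i : Fin r // i ≠ b}, Fin (n i.1 + 1) × Fin (n i.1 + 1)

/-- the minors outside of the main block -/
def mnr {b : Fin r} (z w : Var n → ℤ) (p : MI n b) : ℤ :=
  mn (bl z p.1.1) (bl w p.1.1) p.2.1 p.2.2

theorem card_MI_le (b : Fin r) : Fintype.card (MI n b) ≤ Fintype.card (Var n) ^ 2 := by
  have h : Fintype.card (MI n b) ≤ Fintype.card (Var n × Var n) :=
    Fintype.card_le_of_injective
      (fun p : MI n b => ((⟨p.1.1, p.2.1⟩ : Var n), (⟨p.1.1, p.2.2⟩ : Var n))) (by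
        rintro ⟨⟨i, hi⟩, j, j'⟩ ⟨⟨l, hl⟩, t, t'⟩ h
        simp only [Prod.mk.injEq, Sigma.mk.injEq] at h
        obtain ⟨⟨h1, h2⟩, h3, h4⟩ := h
        subst h1
        have h2' := eq_of_heq h2
        have h4' := eq_of_heq h4
        subst h2'
        subst h4'
        rfl)
  rw [Fintype.card_prod] at h
  rw [sq]; exact h

/-- the linear form attached to a minor -/
def lmn {ι : Type*} [DecidableEq ι] (x : ι → ℤ) (j j' : ι) : ι → ℤ :=
  fun t => (if t = j' then x j else 0) - (if t = j then x j' else 0)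

theorem lmn_dot {ι : Type*} [Fintype ι] [DecidableEq ι] (x y : ι → ℤ) (j j' : ι) :
    ∑ t, lmn x j j' t * y t = mn x y j j' := by
  unfold lmn mn
  simp only [sub_mul, ite_mul, zero_mul, Finset.sum_sub_distrib, Finset.sum_ite_eq',
    Finset.mem_univ, if_true]

theorem lmn_le {ι : Type*} [DecidableEq ι] {x : ι → ℤ} {L : ℝ} (hL : 0 ≤ L)
    (hx : ∀ i, |(x i : ℝ)| ≤ L) (j j' t : ι) : |(lmn x j j' t : ℝ)| ≤ 2 * L := by
  unfold lmn
  push_cast
  refine (abs_sub _ _).trans ?_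
  have h1 : |(if t = j' then (x j : ℝ) else 0)| ≤ L := by
    split_ifs
    · exact hx _
    · simpa using hL
  have h2 : |(if t = j then (x j' : ℝ) else 0)| ≤ L := by
    split_ifs
    · exact hx _
    · simpa using hL
  linarith

theorem mn_le {ι : Type*} {x y : ι → ℤ} {L : ℝ} (hL : 0 ≤ L)
    (hx : ∀ i, |(x i : ℝ)| ≤ L) (hy : ∀ i, |(y i : ℝ)| ≤ L) (j j' : ι) :
    |(mn x y j j' : ℝ)| ≤ 2 * L ^ 2 := by
  unfold mn
  push_cast
  refine (abs_sub _ _).trans ?_
  rw [abs_mul, abs_mul]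
  have e1 : |(x j : ℝ)| * |(y j' : ℝ)| ≤ L * L := mul_le_mul (hx j) (hy j') (abs_nonneg _) hL
  have e2 : |(x j' : ℝ)| * |(y j : ℝ)| ≤ L * L := mul_le_mul (hx j') (hy j) (abs_nonneg _) hL
  linarith [sq L]

/-- constant of the kernel outside of the main block -/
noncomputable def Cs (N D : ℕ) : ℝ := 20 * N ^ 4 * c1pt N D

/-- Separation outside of the main block. -/
theorem ker2_s {b : Fin r} {d : Fin r → ℕ} {B : Fin r → ℝ} {L a : ℝ} {z w : Var n → ℤ}
    (hs : Scl b d B L a) (hz : Tst b B a z) (hw : Tst b B a w) {D : ℕ}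
    (hD : ∑ i, d i = D + 2) (p : MI n b) (hp : mnr z w p ≠ 0)
    {G : ℤ} (hG : ∀ D, (∀ q : MI n b, D ∣ mnr z w q) → D ∣ G) :
    Ker2 d z w G (Cs (Fintype.card (Var n)) D)
      ((∏ i, B i ^ d i) * (|(mnr z w p : ℝ)| / L ^ 2))
      (L * (4 * Fintype.card (Var n) * L) + a) := by
  classical
  intro v hv
  obtain ⟨N, hN⟩ : ∃ N : ℕ, N = Fintype.card (Var n) := ⟨_, rfl⟩
  have hN1 : (1:ℝ) ≤ N := by
    have h1 := card_block_le (n := n) b
    have : 1 ≤ N := by omega
    exact_mod_cast this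
  have ha := hs.ha
  have hL := hs.hL
  have hL0 : 0 < L := by linarith
  obtain ⟨c, hc1, hc2, hc3⟩ := combo_star (mnr z w) p hp hG hv
  obtain ⟨M, hM⟩ : ∃ M : ℝ, |(mnr z w p : ℝ)| = M := ⟨_, rfl⟩
  rw [hM] at hc2 hc3 ⊢
  have hM0 : 0 < M := by
    rw [← hM]
    have : (mnr z w p : ℝ) ≠ 0 := by exact_mod_cast hp
    positivity
  obtain ⟨Θ, hΘ⟩ : ∃ Θ : ℝ, ∏ i, B i ^ d i = Θ := ⟨_, rfl⟩
  rw [hΘ]
  have hΘ0 : 0 < Θ := by rw [← hΘ]; exact hs.theta_pos
  have hΘge : L ^ 2 * B b ^ 2 ≤ Θ := by rw [← hΘ]; exact hs.theta_ge'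
  have hBb := hs.hB b
  have hΘL : L ^ 2 ≤ Θ := by
    refine le_trans ?_ hΘge
    exact le_mul_of_one_le_right (by positivity) (one_le_pow₀ hBb)
  have hmn : ∀ q : MI n b, |(mnr z w q : ℝ)| ≤ 2 * L ^ 2 := by
    intro q
    unfold mnr
    apply mn_le hL0.le
    · rw [← hs.hBL q.1.1 q.1.2]; exact (hz.sz q.1.1).1
    · rw [← hs.hBL q.1.1 q.1.2]; exact (hw.sz q.1.1).1
  have hML : M ≤ 2 * L ^ 2 := by rw [← hM]; exact hmn p
  obtain ⟨C, hC⟩ : ∃ C : ℝ, c1pt N D = C := ⟨_, rfl⟩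
  have hC0 : 0 ≤ C := by rw [← hC]; exact c1pt_nonneg _ _
  -- one-point forms
  have hone : ∀ q : MI n b, ∃ h : MvPolynomial (Var n) ℤ,
      IsM (dn d q.1.1) (C * (|(c q : ℝ)| * L / Θ + (4 * N * L + a / L))) h ∧
      MvPolynomial.eval w h = c q := by
    intro q
    have hdq : 0 < d q.1.1 := by have := hs.hd q.1.1; omega
    have hsum : ∑ i, dn d q.1.1 i = D + 1 := by have := sum_dn hdq; omega
    have hk1 := ker1_gen hw hs.hB hs.hBL hL ha D (dn d q.1.1) hsum (c q)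
    obtain ⟨h, h1, h2⟩ := hk1
    refine ⟨h, h1.mono ?_, h2⟩
    rw [← hN, hC]
    apply mul_le_mul_of_nonneg_left _ hC0
    have hprod := prod_dn (B := B) hdq
    rw [hs.hBL q.1.1 q.1.2, hΘ] at hprod
    have hΘ'0 : 0 < ∏ i, B i ^ dn d q.1.1 i :=
      Finset.prod_pos (fun i _ => pow_pos (by linarith [hs.hB i]) _)
    have e1 : |(c q : ℝ)| / ∏ i, B i ^ dn d q.1.1 i = |(c q : ℝ)| * L / Θ := by
      rw [← hprod]; field_simp
    rw [e1]
    apply add_le_add le_rfl
    unfold E1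
    apply add_le_add le_rfl
    have h3 := Ds_dn q.1.2 hdq
    have h4 := hs.hDs
    have h5 : 1 ≤ Ds b (dn d q.1.1) := by omega
    apply div_le_div_of_nonneg_left (by linarith) hL0
    calc L = L ^ 1 := by ring
      _ ≤ L ^ Ds b (dn d q.1.1) := pow_le_pow_right₀ hL h5
  choose h hh1 hh2 using hone
  have hterm : ∀ q : MI n b, IsM d (N * ((2 * L) *
      (C * (|(c q : ℝ)| * L / Θ + (4 * N * L + a / L)))))
      (linb q.1.1 (lmn (bl z q.1.1) q.2.1 q.2.2) * h q) := by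
    intro q
    have hdq : 0 < d q.1.1 := by have := hs.hd q.1.1; omega
    have := linb_mul_isM (l := lmn (bl z q.1.1) q.2.1 q.2.2) (a := 2 * L) hdq (by
      intro j
      apply lmn_le hL0.le
      rw [← hs.hBL q.1.1 q.1.2]; exact (hz.sz q.1.1).1) (by linarith) (hh1 q)
    rw [← hN] at this
    exact this
  have hf := IsM.sum Finset.univ _ _ (fun q (_ : q ∈ Finset.univ) => hterm q)
  refine ⟨∑ q, linb q.1.1 (lmn (bl z q.1.1) q.2.1 q.2.2) * h q, hf.mono ?_, ?_, ?_⟩
  · rw [← hN]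
    -- bound of each term
    obtain ⟨T, hT⟩ : ∃ T : ℝ, 4 * N * L + a / L = T := ⟨_, rfl⟩
    rw [hT]
    have hT0 : 0 < T := by rw [← hT]; positivity
    have hcard : (Fintype.card (MI n b) : ℝ) ≤ (N : ℝ) ^ 2 := by
      have h1 := card_MI_le (n := n) b
      rw [← hN] at h1
      exact_mod_cast h1
    have hSig : ∑ q : MI n b, |(mnr z w q : ℝ)| ≤ N ^ 2 * (2 * L ^ 2) := by
      have : ∑ q : MI n b, |(mnr z w q : ℝ)| ≤ ∑ _q : MI n b, 2 * L ^ 2 :=
        Finset.sum_le_sum (fun q _ => hmn q)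
      rw [Finset.sum_const, Finset.card_univ, nsmul_eq_mul] at this
      exact this.trans (mul_le_mul_of_nonneg_right hcard (by positivity))
    have hcp : |(c p : ℝ)| ≤ |(v : ℝ)| / M + N ^ 2 * (2 * L ^ 2) := by
      have h1 : |(c p : ℝ)| * M ≤ (|(v : ℝ)| / M + N ^ 2 * (2 * L ^ 2)) * M := by
        refine hc3.trans ?_
        rw [add_mul, div_mul_cancel₀ _ hM0.ne']
        have := mul_le_mul_of_nonneg_left hSig hM0.le
        linarith
      exact le_of_mul_le_mul_right h1 hM0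
    have hcq : ∀ q : MI n b, |(c q : ℝ)| ≤ (if q = p then |(v : ℝ)| / M else 0) +
        N ^ 2 * (2 * L ^ 2) := by
      intro q
      split_ifs with hq
      · rw [hq]; exact hcp
      · rw [zero_add]
        refine (hc2 q hq).trans (hML.trans ?_)
        exact le_mul_of_one_le_left (by positivity) (one_le_pow₀ hN1)
    have hb : ∀ q : MI n b, |(c q : ℝ)| * L / Θ ≤
        (if q = p then |(v : ℝ)| * L / (Θ * M) else 0) + 2 * N ^ 2 * L := by
      intro q
      have h1 := mul_le_mul_of_nonneg_right (hcq q) (by positivity : 0 ≤ L / Θ)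
      have h2 : |(c q : ℝ)| * L / Θ = |(c q : ℝ)| * (L / Θ) := by ring
      rw [h2]
      refine h1.trans ?_
      rw [add_mul]
      apply add_le_add
      · split_ifs
        · apply le_of_eq; field_simp
        · rw [zero_mul]
      · have h3 : (N:ℝ) ^ 2 * (2 * L ^ 2) * (L / Θ) = 2 * N ^ 2 * L * (L ^ 2 / Θ) := by ring
        rw [h3]
        apply mul_le_of_le_one_right (by positivity)
        rw [div_le_one hΘ0]; exact hΘL
    have hsumb : ∑ q : MI n b, (N:ℝ) * ((2 * L) * (C * (|(c q : ℝ)| * L / Θ + T))) ≤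
        ∑ q : MI n b, ((N:ℝ) * ((2 * L) * (C * ((if q = p then |(v : ℝ)| * L / (Θ * M) else 0) +
          (2 * N ^ 2 * L + T))))) := by
      refine Finset.sum_le_sum (fun q _ => ?_)
      apply mul_le_mul_of_nonneg_left _ (by linarith)
      apply mul_le_mul_of_nonneg_left _ (by linarith)
      apply mul_le_mul_of_nonneg_left _ hC0
      linarith [hb q]
    refine hsumb.trans ?_
    have h6 : ∑ q : MI n b, ((N:ℝ) * ((2 * L) * (C * ((if q = p then |(v : ℝ)| * L / (Θ * M) else 0) +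
          (2 * N ^ 2 * L + T))))) = (N:ℝ) * ((2 * L) * (C * (|(v : ℝ)| * L / (Θ * M)))) +
          Fintype.card (MI n b) * ((N:ℝ) * ((2 * L) * (C * (2 * N ^ 2 * L + T)))) := by
      have : ∀ q : MI n b, ((N:ℝ) * ((2 * L) * (C * ((if q = p then |(v : ℝ)| * L / (Θ * M) else 0) +
          (2 * N ^ 2 * L + T))))) = (if q = p then (N:ℝ) * ((2 * L) * (C * (|(v : ℝ)| * L / (Θ * M))))
          else 0) + (N:ℝ) * ((2 * L) * (C * (2 * N ^ 2 * L + T))) := by
        intro q
        split_ifs <;> ring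
      simp only [this]
      rw [Finset.sum_add_distrib, Finset.sum_ite_eq' Finset.univ p, if_pos (Finset.mem_univ _),
        Finset.sum_const, Finset.card_univ, nsmul_eq_mul]
    rw [h6]
    have h7 : (Fintype.card (MI n b) : ℝ) * ((N:ℝ) * ((2 * L) * (C * (2 * N ^ 2 * L + T)))) ≤
        N ^ 2 * ((N:ℝ) * ((2 * L) * (C * (2 * N ^ 2 * L + T)))) :=
      mul_le_mul_of_nonneg_right hcard (by positivity)
    refine (add_le_add le_rfl h7).trans ?_
    unfold Cs
    rw [hC]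
    obtain ⟨ν, hν⟩ : ∃ ν, |(v : ℝ)| / (Θ * (M / L ^ 2)) = ν := ⟨_, rfl⟩
    have hν0 : 0 ≤ ν := by rw [← hν]; positivity
    have hν2 : (N:ℝ) * ((2 * L) * (C * (|(v : ℝ)| * L / (Θ * M)))) = 2 * N * C * ν := by
      rw [← hν]; field_simp
    rw [hν, hν2, ← hT]
    have hN2 : 1 ≤ (N:ℝ) ^ 2 := one_le_pow₀ hN1
    have hN3 : 1 ≤ (N:ℝ) ^ 3 := one_le_pow₀ hN1
    have e1 : 2 * (N:ℝ) * C * ν ≤ 20 * N ^ 4 * C * ν := by
      have h8 : 0 ≤ (N:ℝ) * C * ν := by positivity
      have h9 := mul_le_mul_of_nonneg_right hN3 h8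
      have h10 : 20 * (N:ℝ) ^ 4 * C * ν = 20 * ((N:ℝ) ^ 3 * (N * C * ν)) := by ring
      rw [h10]; linarith
    have e2 : (N:ℝ) ^ 2 * (N * ((2 * L) * (C * (2 * N ^ 2 * L + (4 * N * L + a / L))))) ≤
        20 * N ^ 4 * C * (L * (4 * N * L) + a) := by
      have h8 : (N:ℝ) ^ 2 * (N * ((2 * L) * (C * (2 * N ^ 2 * L + (4 * N * L + a / L))))) =
          N ^ 3 * C * (4 * N ^ 2 * L ^ 2 + 8 * (N * L ^ 2) + 2 * a) := by
        field_simp
        ring
      have h9 : 20 * (N:ℝ) ^ 4 * C * (L * (4 * N * L) + a) =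
          N ^ 3 * C * (80 * N ^ 2 * L ^ 2 + 20 * N * a) := by ring
      rw [h8, h9]
      apply mul_le_mul_of_nonneg_left _ (by positivity)
      have h10 : (N:ℝ) * L ^ 2 ≤ N ^ 2 * L ^ 2 := by
        apply mul_le_mul_of_nonneg_right _ (by positivity)
        nlinarith
      have h11 : a ≤ N * a := le_mul_of_one_le_left (by linarith) hN1
      have h12 : 0 ≤ (N:ℝ) ^ 2 * L ^ 2 := by positivity
      nlinarith
    rw [mul_add]
    linarith
  · rw [map_sum]
    apply Finset.sum_eq_zero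
    intro q _
    rw [map_mul, eval_linb, lmn_dot]
    have : mn (bl z q.1.1) (bl z q.1.1) q.2.1 q.2.2 = 0 := by unfold mn; ring
    rw [this, zero_mul]
  · rw [map_sum, ← hc1]
    refine Finset.sum_congr rfl (fun q _ => ?_)
    rw [map_mul, eval_linb, lmn_dot, hh2]
    unfold mnr
    ring

end Pool.Agent.Y716.M
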