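import Pool.Agent.Y716.M.Ker2
import Pool.Agent.Y716.Q.Good

/-!
# Two-point properties: the full index
-/

namespace Pool.Agent.Y716.M

open Pool.Agent.Y716.Q

variable {r : ℕ} {n : Fin r → ℕ}

theorem Ker2.mono {d : Fin r → ℕ} {z w : Var n → ℤ} {G : ℤ} {C C' Θ E E' : ℝ}
    (h : Ker2 d z w G C Θ E) (hC : C ≤ C') (hE : E ≤ E') (hΘ : 0 < Θ) (hE0 : 0 ≤ E)
    (hC0 : 0 ≤ C) : Ker2 d z w G C' Θ E' := by
  intro v hv
  obtain ⟨f, h1, h2, h3⟩ := h v hv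
  refine ⟨f, h1.mono ?_, h2, h3⟩
  have h4 : 0 ≤ |(v : ℝ)| / Θ := by positivity
  apply mul_le_mul hC (by linarith) (by linarith) (by linarith)

/-- common constant of the two-point properties -/
noncomputable def C2 (N D : ℕ) : ℝ := 3 * (Cs N D + Cx N D)

theorem Cs_nonneg (N D : ℕ) : 0 ≤ Cs N D := by
  unfold Cs
  have := c1pt_nonneg N D
  positivity

theorem Cx_nonneg (N D : ℕ) : 0 ≤ Cx N D := by
  unfold Cx
  have := c1pt_nonneg N D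
  positivity

theorem E1_ge_one {N : ℕ} {L a : ℝ} {D : ℕ} (hN : 1 ≤ N) (hL : 1 ≤ L) (ha : 0 ≤ a) :
    1 ≤ E1 N L a D := by
  unfold E1
  have h1 : (1:ℝ) ≤ N := by exact_mod_cast hN
  have h2 : 0 ≤ a / L ^ D := by positivity
  nlinarith

/-- Separation in the main block, common constants. -/
theorem ker2_x' {b : Fin r} {d : Fin r → ℕ} {B : Fin r → ℝ} {L a : ℝ} {z w : Var n → ℤ}
    (hs : Scl b d B L a) (hz : Tst b B a z) (hw : Tst b B a w) {D : ℕ}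
    (hD : ∑ i, d i = D + 2)
    {g : ℤ} (hg0 : g ≠ 0) (hg : ∀ i j, g ∣ mn (bl z b) (bl w b) i j)
    (hgmax : ∀ D, (∀ i j, D ∣ mn (bl z b) (bl w b) i j) → D ∣ g) {μ : ℝ} (hμ0 : 0 < μ)
    (hμ : ∃ i j, μ ≤ |(mn (bl z b) (bl w b) i j : ℝ)|) {Lg : ℝ} (hLg0 : 0 ≤ Lg)
    (hLg : ∀ s : ℕ, (s : ℝ) ≤ 15 * (Fintype.card (Var n)) ^ 2 * a * B b →
      (Nat.log 2 s : ℝ) ≤ Lg) :
    Ker2 d z w g (C2 (Fintype.card (Var n)) D) ((∏ i, B i ^ d i) * (μ / B b ^ 2))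
      (E2 (Fintype.card (Var n)) L a Lg (Ds b d)) := by
  have hN : 1 ≤ Fintype.card (Var n) := by
    have := card_block_le (n := n) b
    omega
  have hE1 := E1_ge_one (D := Ds b d) hN hs.hL (by linarith [hs.ha] : (0:ℝ) ≤ a)
  have hBb := hs.hB b
  have ha := hs.ha
  have hL := hs.hL
  refine (ker2_x hs hz hw hD hg0 hg hgmax hμ0 hμ hLg).mono ?_ ?_ ?_ ?_ (Cx_nonneg _ _)
  · unfold C2
    have h1 := Cs_nonneg (Fintype.card (Var n)) D
    have h2 := Cx_nonneg (Fintype.card (Var n)) D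
    linarith
  · unfold E2
    have : 0 ≤ 4 * (Fintype.card (Var n) : ℝ) * L ^ 2 := by positivity
    linarith
  · exact mul_pos hs.theta_pos (by positivity)
  · have : 0 ≤ a * E1 (Fintype.card (Var n)) L a (Ds b d) := mul_nonneg (by linarith) (by linarith)
    exact mul_nonneg (by linarith) this

/-- Separation outside of the main block, common constants. -/
theorem ker2_s' {b : Fin r} {d : Fin r → ℕ} {B : Fin r → ℝ} {L a : ℝ} {z w : Var n → ℤ}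
    (hs : Scl b d B L a) (hz : Tst b B a z) (hw : Tst b B a w) {D : ℕ}
    (hD : ∑ i, d i = D + 2) (p : MI n b) (hp : mnr z w p ≠ 0)
    {G : ℤ} (hG : ∀ D, (∀ q : MI n b, D ∣ mnr z w q) → D ∣ G) {Lg : ℝ} (hLg0 : 0 ≤ Lg) :
    Ker2 d z w G (C2 (Fintype.card (Var n)) D)
      ((∏ i, B i ^ d i) * (|(mnr z w p : ℝ)| / L ^ 2))
      (E2 (Fintype.card (Var n)) L a Lg (Ds b d)) := by
  have hN : 1 ≤ Fintype.card (Var n) := by
    have := card_block_le (n := n) b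
    omega
  have hE1 := E1_ge_one (D := Ds b d) hN hs.hL (by linarith [hs.ha] : (0:ℝ) ≤ a)
  have ha := hs.ha
  have hL := hs.hL
  have hp' : 0 < |(mnr z w p : ℝ)| := by
    have : (mnr z w p : ℝ) ≠ 0 := by exact_mod_cast hp
    positivity
  refine (ker2_s hs hz hw hD p hp hG).mono ?_ ?_ ?_ ?_ (Cs_nonneg _ _)
  · unfold C2
    have h1 := Cs_nonneg (Fintype.card (Var n)) D
    have h2 := Cx_nonneg (Fintype.card (Var n)) D
    linarith
  · unfold E2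
    have h0 : 0 ≤ a * E1 (Fintype.card (Var n)) L a (Ds b d) := mul_nonneg (by linarith) (by linarith)
    have h1 : 0 ≤ (1 + Lg) * (a * E1 (Fintype.card (Var n)) L a (Ds b d)) :=
      mul_nonneg (by linarith) h0
    have h2 : L * (4 * (Fintype.card (Var n) : ℝ) * L) = 4 * (Fintype.card (Var n) : ℝ) * L ^ 2 := by
      ring
    linarith
  · exact mul_pos hs.theta_pos (by positivity)
  · positivity

/-- Two-point property with the full index. -/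
theorem ker2_c {b : Fin r} {d : Fin r → ℕ} {B : Fin r → ℝ} {L a : ℝ} {z w : Var n → ℤ}
    (hs : Scl b d B L a) (hz : Tst b B a z) (hw : Tst b B a w) {D : ℕ}
    (hD : ∑ i, d i = D + 2) (p : MI n b) (hp : mnr z w p ≠ 0)
    (hnp : ∃ i j, mn (bl z b) (bl w b) i j ≠ 0)
    {G : ℤ} (hG : ∀ D, (∀ q : MI n b, D ∣ mnr z w q) →
      (∀ i j, D ∣ mn (bl z b) (bl w b) i j) → D ∣ G) {Lg : ℝ} (hLg0 : 0 ≤ Lg)
    (hLg : ∀ s : ℕ, (s : ℝ) ≤ 15 * (Fintype.card (Var n)) ^ 2 * a * B b →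
      (Nat.log 2 s : ℝ) ≤ Lg) :
    Ker2 d z w G (C2 (Fintype.card (Var n)) D)
      ((∏ i, B i ^ d i) * (|(mnr z w p : ℝ)| / L ^ 2))
      (E2 (Fintype.card (Var n)) L a Lg (Ds b d)) := by
  classical
  intro v hv
  have hNN : 1 ≤ Fintype.card (Var n) := by
    have := card_block_le (n := n) b
    omega
  obtain ⟨N, hN⟩ : ∃ N : ℕ, N = Fintype.card (Var n) := ⟨_, rfl⟩
  have hE1 := E1_ge_one (D := Ds b d) hNN hs.hL (by linarith [hs.ha] : (0:ℝ) ≤ a)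
  have ha := hs.ha
  have hL := hs.hL
  have hBb := hs.hB b
  have hL0 : 0 < L := by linarith
  -- data of the main block
  obtain ⟨g, μ, hg0, hg1, hg2, hμ0, hμ1, hμ2, hgμ⟩ : ∃ (g : ℤ) (μ : ℝ), g ≠ 0 ∧
      (∀ i j, g ∣ mn (bl z b) (bl w b) i j) ∧
      (∀ D, (∀ i j, D ∣ mn (bl z b) (bl w b) i j) → D ∣ g) ∧ 0 < μ ∧
      (∃ i j, μ ≤ |(mn (bl z b) (bl w b) i j : ℝ)|) ∧
      (∀ i j, |(mn (bl z b) (bl w b) i j : ℝ)| ≤ μ) ∧ |(g : ℝ)| ≤ μ :=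
    exists_gcd_data hnp
  -- gcd of the other minors
  obtain ⟨G', hG'⟩ := (IsPrincipalIdealRing.principal
    (Ideal.span (Set.range (mnr (b := b) z w)))).principal
  have hG'd : ∀ q : MI n b, G' ∣ mnr z w q := by
    intro q
    have : mnr z w q ∈ Ideal.span (Set.range (mnr (b := b) z w)) := Ideal.subset_span ⟨q, rfl⟩
    rw [hG'] at this
    exact Ideal.mem_span_singleton.mp this
  have hG'max : ∀ D, (∀ q : MI n b, D ∣ mnr z w q) → D ∣ G' := by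
    intro D hD
    have h1 : G' ∈ Ideal.span (Set.range (mnr (b := b) z w)) := by
      rw [hG']; exact Ideal.mem_span_singleton_self G'
    have h2 : Ideal.span (Set.range (mnr (b := b) z w)) ≤ Ideal.span {D} := by
      rw [Ideal.span_le]
      rintro _ ⟨p, rfl⟩
      exact Ideal.mem_span_singleton.mpr (hD p)
    exact Ideal.mem_span_singleton.mp (h2 h1)
  have hG'0 : G' ≠ 0 := by
    intro h
    have := hG'd p
    rw [h, zero_dvd_iff] at this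
    exact hp this
  obtain ⟨M, hM⟩ : ∃ M : ℝ, |(mnr z w p : ℝ)| = M := ⟨_, rfl⟩
  have hM0 : 0 < M := by
    rw [← hM]
    have : (mnr z w p : ℝ) ≠ 0 := by exact_mod_cast hp
    positivity
  have hG'M : |(G' : ℝ)| ≤ M := by
    rw [← hM]
    have := Int.le_of_dvd (abs_pos.mpr hp) ((dvd_abs _ _).mpr ((abs_dvd _ _).mpr (hG'd p)))
    exact_mod_cast this
  have hML : M ≤ 2 * L ^ 2 := by
    rw [← hM]
    unfold mnr
    apply mn_le hL0.le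
    · rw [← hs.hBL p.1.1 p.1.2]; exact (hz.sz p.1.1).1
    · rw [← hs.hBL p.1.1 p.1.2]; exact (hw.sz p.1.1).1
  have hμB : μ ≤ 2 * B b ^ 2 := by
    obtain ⟨i, j, hij⟩ := hμ1
    exact hij.trans (mn_le (by linarith) (hz.sz b).1 (hw.sz b).1 i j)
  -- decomposition of v
  have hgcd : (Int.gcd G' g : ℤ) ∣ G := by
    apply hG
    · intro q
      exact (Int.gcd_dvd_left G' g).trans (hG'd q)
    · intro i j
      exact (Int.gcd_dvd_right G' g).trans (hg1 i j)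
  obtain ⟨e, he⟩ := hgcd.trans hv
  have hbz := Int.gcd_eq_gcd_ab G' g
  obtain ⟨β₀, hβ₀⟩ : ∃ β₀ : ℤ, β₀ = Int.gcdB G' g * e := ⟨_, rfl⟩
  obtain ⟨α₀, hα₀⟩ : ∃ α₀ : ℤ, α₀ = Int.gcdA G' g * e := ⟨_, rfl⟩
  have hv0 : v = G' * α₀ + g * β₀ := by
    rw [he, hbz, hα₀, hβ₀]; ring
  obtain ⟨β, hβ⟩ : ∃ β : ℤ, β = β₀ % G' := ⟨_, rfl⟩
  obtain ⟨α, hα⟩ : ∃ α : ℤ, α = α₀ + g * (β₀ / G') := ⟨_, rfl⟩
  have hv1 : v = G' * α + g * β := by
    have := Int.mul_ediv_add_emod β₀ G'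
    rw [hα, hβ, hv0]
    linear_combination (-g) * this
  have hβb : |(β : ℝ)| ≤ |(G' : ℝ)| := by
    rw [hβ]
    have h2 := Int.emod_nonneg β₀ hG'0
    have h3 := Int.emod_lt_abs β₀ hG'0
    have : |β₀ % G'| ≤ |G'| := by rw [abs_of_nonneg h2]; exact h3.le
    exact_mod_cast this
  obtain ⟨f₁, hf1, hf2, hf3⟩ := ker2_x hs hz hw hD hg0 hg1 hg2 hμ0 hμ1 hLg (g * β) ⟨β, rfl⟩
  obtain ⟨f₂, hf4, hf5, hf6⟩ := ker2_s hs hz hw hD p hp hG'max (G' * α) ⟨α, rfl⟩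
  rw [hM] at hf4 ⊢
  rw [← hN] at hf1 hf4 ⊢
  obtain ⟨Θ, hΘ⟩ : ∃ Θ : ℝ, ∏ i, B i ^ d i = Θ := ⟨_, rfl⟩
  rw [hΘ] at hf1 hf4 ⊢
  have hΘ0 : 0 < Θ := by rw [← hΘ]; exact hs.theta_pos
  have hΘge : L ^ 2 * B b ^ 2 ≤ Θ := by rw [← hΘ]; exact hs.theta_ge'
  have hcs := Cs_nonneg N D
  have hcx := Cx_nonneg N D
  rw [← hN] at hE1
  refine ⟨f₁ + f₂, (hf1.add hf4).mono ?_, by rw [map_add, hf2, hf5, add_zero], by
    rw [map_add, hf3, hf6, hv1]; ring⟩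
  have hgβ : |((g * β : ℤ) : ℝ)| ≤ M * μ := by
    push_cast
    rw [abs_mul, mul_comm]
    exact mul_le_mul (hβb.trans hG'M) hgμ (abs_nonneg _) hM0.le
  -- first part
  have e1 : |((g * β : ℤ) : ℝ)| / (Θ * (μ / B b ^ 2)) ≤ 2 := by
    rw [div_le_iff₀ (by positivity)]
    refine hgβ.trans ?_
    have h1 : 2 * (Θ * (μ / B b ^ 2)) = (2 * Θ / B b ^ 2) * μ := by ring
    rw [h1]
    apply mul_le_mul_of_nonneg_right _ hμ0.le
    rw [le_div_iff₀ (by positivity)]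
    calc M * B b ^ 2 ≤ (2 * L ^ 2) * B b ^ 2 := mul_le_mul_of_nonneg_right hML (by positivity)
      _ = 2 * (L ^ 2 * B b ^ 2) := by ring
      _ ≤ 2 * Θ := by linarith
  -- second part
  obtain ⟨ν, hν⟩ : ∃ ν : ℝ, |(v : ℝ)| / (Θ * (M / L ^ 2)) = ν := ⟨_, rfl⟩
  have hν0 : 0 ≤ ν := by rw [← hν]; positivity
  have e2 : |((G' * α : ℤ) : ℝ)| / (Θ * (M / L ^ 2)) ≤ ν + 2 := by
    have h1 : ((G' * α : ℤ) : ℝ) = (v : ℝ) - ((g * β : ℤ) : ℝ) := by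
      rw [hv1]; push_cast; ring
    have h2 : |((G' * α : ℤ) : ℝ)| ≤ |(v : ℝ)| + M * μ := by
      rw [h1]; exact (abs_sub _ _).trans (add_le_add le_rfl hgβ)
    have h3 := div_le_div_of_nonneg_right h2 (by positivity : 0 ≤ Θ * (M / L ^ 2))
    refine h3.trans ?_
    rw [add_div, hν]
    apply add_le_add le_rfl
    rw [div_le_iff₀ (by positivity)]
    have h4 : 2 * (Θ * (M / L ^ 2)) = M * (2 * Θ / L ^ 2) := by ring
    rw [h4]
    apply mul_le_mul_of_nonneg_left _ hM0.le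
    rw [le_div_iff₀ (by positivity)]
    calc μ * L ^ 2 ≤ (2 * B b ^ 2) * L ^ 2 := mul_le_mul_of_nonneg_right hμB (by positivity)
      _ = 2 * (L ^ 2 * B b ^ 2) := by ring
      _ ≤ 2 * Θ := by linarith
  rw [hν]
  obtain ⟨X, hX⟩ : ∃ X : ℝ, (1 + Lg) * (a * E1 N L a (Ds b d)) = X := ⟨_, rfl⟩
  have hX1 : 1 ≤ X := by
    rw [← hX]
    have h1 : 1 ≤ a * E1 N L a (Ds b d) := one_le_mul_of_one_le_of_one_le ha hE1
    nlinarith
  unfold C2 E2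
  rw [hX]
  have h1 : Cx N D * (|((g * β : ℤ) : ℝ)| / (Θ * (μ / B b ^ 2)) + X) ≤ Cx N D * (3 * X) :=
    mul_le_mul_of_nonneg_left (by linarith) hcx
  have hNr : (0:ℝ) ≤ N := Nat.cast_nonneg _
  obtain ⟨Y, hY⟩ : ∃ Y : ℝ, L * (4 * (N : ℝ) * L) + a = Y := ⟨_, rfl⟩
  have hY2 : 4 * (N:ℝ) * L ^ 2 + a = Y := by rw [← hY]; ring
  have hY1 : 1 ≤ Y := by
    rw [← hY2]
    have : 0 ≤ 4 * (N:ℝ) * L ^ 2 := by positivity
    linarith
  rw [hY, hY2]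
  have h2 : Cs N D * (|((G' * α : ℤ) : ℝ)| / (Θ * (M / L ^ 2)) + Y) ≤
      Cs N D * (3 * (ν + Y + X)) :=
    mul_le_mul_of_nonneg_left (by linarith) hcs
  have h3 : Cx N D * (3 * X) ≤ Cx N D * (3 * (ν + Y + X)) :=
    mul_le_mul_of_nonneg_left (by linarith) hcx
  have h4 : 3 * (Cs N D + Cx N D) * (ν + (Y + X)) =
      Cs N D * (3 * (ν + Y + X)) + Cx N D * (3 * (ν + Y + X)) := by ring
  rw [h4]
  linarith

end Pool.Agent.Y716.M
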