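import Pool.Agent.Y716.M.Tail2

/-!
# The second moment, several blocks
-/

namespace Pool.Agent.Y716.M

open Pool.Agent.Y716.Q Pool.Agent.Y510.M6

variable {r : ℕ} {n : Fin r → ℕ}

open scoped Classical in
/-- sum over pairs with large gcd -/
theorem sum_P3b {b : Fin r} {B : Fin r → ℝ} {L a Cd : ℝ} (hB : ∀ i, 1 ≤ B i)
    (hBL : ∀ i, i ≠ b → B i = L) (hL : 1 ≤ L) (hn : ∀ i, 1 ≤ n i) (hnb : 2 ≤ n b) (hCd0 : 0 < Cd)
    (hLB : 2 * L ^ 2 ≤ B b)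
    (hCd : ∀ i, ∀ (s : Fin (n i + 1) → ℤ), Sz L s → Prim s → ∀ (G : ℕ), 1 ≤ G →
      ∀ U : Finset (Fin (n i + 1) → ℤ),
      (∀ t ∈ U, (∀ j, |(t j : ℝ)| ≤ L) ∧ (∀ j j', (G : ℤ) ∣ mn s t j j') ∧
        ∃ j j', mn s t j j' ≠ 0) → (U.card : ℝ) * G ≤ Cd * L ^ (n i + 1))
    {N : ℕ} (hN : 1 ≤ N) (Ps : Finset ((Var n → ℤ) × (Var n → ℤ)))
    (G : (Var n → ℤ) × (Var n → ℤ) → ℤ)
    (hPs : ∀ p ∈ Ps, Tst b B a p.1 ∧ Tst b B a p.2 ∧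
      (∀ i j j', G p ∣ mn (bl p.1 i) (bl p.2 i) j j') ∧ (∃ q : MI n b, mnr p.1 p.2 q ≠ 0) ∧
      N < (G p).natAbs) :
    ∑ p ∈ Ps, |(G p : ℝ)| ≤ r * (VolM n B * (VolM n B * Cd)) * (1 / N) := by
  have hV0 : 0 ≤ VolM n B := Finset.prod_nonneg (fun i _ => by
    have := hB i
    positivity)
  obtain ⟨M, hM⟩ : ∃ M : ℕ, M = ⌊2 * L ^ 2⌋₊ := ⟨_, rfl⟩
  -- size of the gcd
  have hGM : ∀ p ∈ Ps, (G p).natAbs ≤ M := by
    intro p hp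
    obtain ⟨h1, h2, h3, ⟨q, hq⟩, h4⟩ := hPs p hp
    rw [hM]
    apply Nat.le_floor
    have h5 : G p ∣ mnr p.1 p.2 q := h3 q.1 q.2.1 q.2.2
    have h6 := Int.le_of_dvd (abs_pos.mpr hq) ((dvd_abs _ _).mpr ((abs_dvd _ _).mpr h5))
    have h7 : |(mnr p.1 p.2 q : ℝ)| ≤ 2 * L ^ 2 := by
      unfold mnr
      apply mn_le (by linarith)
      · rw [← hBL q.1 q.1.2]; exact (h1.sz q.1).1
      · rw [← hBL q.1 q.1.2]; exact (h2.sz q.1).1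
    have h8 : (((G p).natAbs : ℕ) : ℝ) = |(G p : ℝ)| := by
      rw [Nat.cast_natAbs, Int.cast_abs]
    rw [h8]
    refine le_trans ?_ h7
    exact_mod_cast h6
  have hmaps : ∀ p ∈ Ps, (G p).natAbs ∈ Finset.Ioc N M := by
    intro p hp
    rw [Finset.mem_Ioc]
    exact ⟨(hPs p hp).2.2.2.2, hGM p hp⟩
  rw [← Finset.sum_fiberwise_of_maps_to hmaps]
  have hterm : ∀ m ∈ Finset.Ioc N M,
      ∑ p ∈ Ps.filter (fun p => (G p).natAbs = m), |(G p : ℝ)| ≤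
      r * (VolM n B * (VolM n B * Cd)) * (1 / (m : ℝ) ^ 2) := by
    intro m hm
    rw [Finset.mem_Ioc] at hm
    have hm1 : 1 ≤ m := by omega
    have hmr : (1:ℝ) ≤ m := by exact_mod_cast hm1
    have h1 : ∀ p ∈ Ps.filter (fun p => (G p).natAbs = m), |(G p : ℝ)| = m := by
      intro p hp
      rw [Finset.mem_filter] at hp
      rw [← hp.2, Nat.cast_natAbs, Int.cast_abs]
    rw [Finset.sum_congr rfl h1, Finset.sum_const, nsmul_eq_mul]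
    have hmB : (m : ℝ) ≤ B b := by
      refine le_trans ?_ hLB
      have h2 : (m : ℝ) ≤ M := by exact_mod_cast hm.2
      refine h2.trans ?_
      rw [hM]
      exact Nat.floor_le (by positivity)
    have h2 := card_P3b hB hBL hL hn hCd0 hCd hm1 hmB (Ps.filter (fun p => (G p).natAbs = m)) (by
      intro p hp
      rw [Finset.mem_filter] at hp
      obtain ⟨h1, h2, h3, h4, h5⟩ := hPs p hp.1
      refine ⟨h1, h2, ?_, h4⟩
      intro i j j'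
      rw [← hp.2]
      exact Int.natAbs_dvd.mpr (h3 i j j'))
    have h3 := mul_le_mul_of_nonneg_right h2 (by linarith : (0:ℝ) ≤ m)
    refine h3.trans ?_
    obtain ⟨k, hk⟩ : ∃ k, n b = k + 2 := ⟨n b - 2, by omega⟩
    rw [hk]
    have h4 : (r:ℝ) * (VolM n B * (VolM n B * Cd / (m : ℝ) ^ (k + 2 + 1))) * m =
        r * (VolM n B * (VolM n B * Cd)) * (1 / (m : ℝ) ^ (k + 2)) := by
      rw [pow_succ (m:ℝ) (k + 2)]
      field_simp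
    rw [h4]
    apply mul_le_mul_of_nonneg_left _ (by positivity)
    apply one_div_le_one_div_of_le (by positivity)
    exact pow_le_pow_right₀ hmr (by omega)
  refine (Finset.sum_le_sum hterm).trans ?_
  rw [← Finset.mul_sum]
  apply mul_le_mul_of_nonneg_left _ (by positivity)
  exact sum_inv_sq N M hN

open scoped Classical in
/-- summing a function over all pairs, given bounds for the various types of pairs -/
theorem pairs_sum {b : Fin r} {B : Fin r → ℝ} {L a κ Cd : ℝ} (hB : ∀ i, 1 ≤ B i)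
    (hBL : ∀ i, i ≠ b → B i = L) (hL : 1 ≤ L) (hn : ∀ i, 1 ≤ n i) (hnb : 2 ≤ n b) (hCd0 : 0 < Cd)
    (hLB : 2 * L ^ 2 ≤ B b) {i₁ : Fin r} (hi₁ : i₁ ≠ b) (hκ : 0 < κ) (hκL : 1 ≤ κ * L)
    (hCd : ∀ i, ∀ (s : Fin (n i + 1) → ℤ), Sz L s → Prim s → ∀ (G : ℕ), 1 ≤ G →
      ∀ U : Finset (Fin (n i + 1) → ℤ),
      (∀ t ∈ U, (∀ j, |(t j : ℝ)| ≤ L) ∧ (∀ j j', (G : ℤ) ∣ mn s t j j') ∧
        ∃ j j', mn s t j j' ≠ 0) → (U.card : ℝ) * G ≤ Cd * L ^ (n i + 1))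
    {S₀ : ℝ} (hS₀ : 0 ≤ S₀) (htau : TauB (n b + 1) (B b) a S₀)
    {N : ℕ} (hN : 1 ≤ N) (X : Finset (Var n → ℤ)) (hX : ∀ z ∈ X, Tst b B a z)
    (f : (Var n → ℤ) × (Var n → ℤ) → ℝ) {α β Mg : ℝ} (hα : 0 ≤ α) (hβ : 0 ≤ β)
    (h0 : ∀ z ∈ X, ∀ w ∈ X, f (z, w) ≤ β)
    (hx : ∀ z ∈ X, ∀ w ∈ X, ∀ (g : ℤ) (μ : ℝ), g ≠ 0 → (∀ i j, g ∣ mn (bl z b) (bl w b) i j) →
      (∀ D, (∀ i j, D ∣ mn (bl z b) (bl w b) i j) → D ∣ g) → 0 < μ →
      (∃ i j, μ ≤ |(mn (bl z b) (bl w b) i j : ℝ)|) → f (z, w) ≤ α * (B b ^ 2 * |(g : ℝ)| / μ))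
    (hsm : ∀ z ∈ X, ∀ w ∈ X, ∀ (q : MI n b) (G : ℤ), mnr z w q ≠ 0 → G ≠ 0 →
      (∀ D, (∀ q : MI n b, D ∣ mnr z w q) → D ∣ G) → |(G : ℝ)| ≤ |(mnr z w q : ℝ)| →
      f (z, w) ≤ α * L ^ 2)
    (hc : ∀ z ∈ X, ∀ w ∈ X, ∀ (q : MI n b) (G : ℤ), κ * L ^ 2 ≤ |(mnr z w q : ℝ)| → G ≠ 0 →
      (∃ i j, mn (bl z b) (bl w b) i j ≠ 0) →
      (∀ D, (∀ q : MI n b, D ∣ mnr z w q) → (∀ i j, D ∣ mn (bl z b) (bl w b) i j) → D ∣ G) →
      f (z, w) ≤ α / κ * |(G : ℝ)|)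
    (hgood : ∀ Gd : Finset ((Var n → ℤ) × (Var n → ℤ)), (∀ p ∈ Gd, p.1 ∈ X ∧ p.2 ∈ X ∧
      ∃ (q : MI n b) (G : ℤ), κ * L ^ 2 ≤ |(mnr p.1 p.2 q : ℝ)| ∧ G ≠ 0 ∧
      (∃ i j, mn (bl p.1 b) (bl p.2 b) i j ≠ 0) ∧
      (∀ i j j', G ∣ mn (bl p.1 i) (bl p.2 i) j j') ∧
      (∀ D, (∀ q : MI n b, D ∣ mnr p.1 p.2 q) →
        (∀ i j, D ∣ mn (bl p.1 b) (bl p.2 b) i j) → D ∣ G) ∧ G.natAbs ≤ N) →
      ∑ p ∈ Gd, f p ≤ Mg) :
    ∑ p ∈ X ×ˢ X, f p ≤ Mg + α * ((∏ i, cV n b B i) * 2 ^ r * S₀ +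
      (∏ i, cV n b B i) * (3 * κ * ∏ i, cV n b B i) * S₀ +
      L ^ 2 * (VolM n B * (2 * ∏ i, cV n b B i)) +
      1 / κ * (r * (VolM n B * (VolM n B * Cd)) * (1 / N))) + β * (X.card * 2 ^ r) := by
  -- data of the main block
  have hdata : ∀ q : (Fin (n b + 1) → ℤ) × (Fin (n b + 1) → ℤ), (∃ i j, mn q.1 q.2 i j ≠ 0) →
      ∃ (g : ℤ) (μ : ℝ), g ≠ 0 ∧ (∀ i j, g ∣ mn q.1 q.2 i j) ∧
      (∀ D, (∀ i j, D ∣ mn q.1 q.2 i j) → D ∣ g) ∧ 0 < μ ∧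
      (∃ i j, μ ≤ |(mn q.1 q.2 i j : ℝ)|) ∧
      (∀ i j, |(mn q.1 q.2 i j : ℝ)| ≤ μ) ∧ |(g : ℝ)| ≤ μ := fun q hq => exists_gcd_data hq
  choose! gf μf hg0 hg1 hg2 hg3 hg4 hg5 hg6 using hdata
  choose Gf hGf1 hGf2 using fun p : (Var n → ℤ) × (Var n → ℤ) => exists_G b p.1 p.2
  obtain ⟨τ, hτ⟩ : ∃ τ : (Fin (n b + 1) → ℤ) × (Fin (n b + 1) → ℤ) → ℝ,
      τ = fun q => B b ^ 2 * |(gf q : ℝ)| / μf q := ⟨_, rfl⟩
  have hL0 : 0 < L := by linarith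
  -- classification
  obtain ⟨Sz0, hSz0⟩ : ∃ P : (Var n → ℤ) × (Var n → ℤ) → Prop,
      P = fun p => ∀ q : MI n b, mnr p.1 p.2 q = 0 := ⟨_, rfl⟩
  obtain ⟨M0, hM0⟩ : ∃ P : (Var n → ℤ) × (Var n → ℤ) → Prop,
      P = fun p => ∀ i j, mn (bl p.1 b) (bl p.2 b) i j = 0 := ⟨_, rfl⟩
  obtain ⟨Sm, hSm⟩ : ∃ P : (Var n → ℤ) × (Var n → ℤ) → Prop,
      P = fun p => ∀ q : MI n b, |(mnr p.1 p.2 q : ℝ)| ≤ κ * L ^ 2 := ⟨_, rfl⟩
  obtain ⟨Gs, hGs⟩ : ∃ P : (Var n → ℤ) × (Var n → ℤ) → Prop,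
      P = fun p => (Gf p).natAbs ≤ N := ⟨_, rfl⟩
  obtain ⟨XX, hXX⟩ : ∃ XX, XX = X ×ˢ X := ⟨_, rfl⟩
  have hmem : ∀ p ∈ XX, p.1 ∈ X ∧ p.2 ∈ X := by
    intro p hp
    rw [hXX, Finset.mem_product] at hp
    exact hp
  have hsum : ∑ p ∈ XX, f p =
      (∑ p ∈ XX.filter (fun p => Sz0 p ∧ M0 p), f p +
        ∑ p ∈ XX.filter (fun p => Sz0 p ∧ ¬ M0 p), f p) +
      (∑ p ∈ XX.filter (fun p => ¬ Sz0 p ∧ M0 p), f p +
        (∑ p ∈ XX.filter (fun p => ¬ Sz0 p ∧ ¬ M0 p ∧ Sm p), f p +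
          (∑ p ∈ XX.filter (fun p => ¬ Sz0 p ∧ ¬ M0 p ∧ ¬ Sm p ∧ Gs p), f p +
            ∑ p ∈ XX.filter (fun p => ¬ Sz0 p ∧ ¬ M0 p ∧ ¬ Sm p ∧ ¬ Gs p), f p))) := by
    rw [← Finset.sum_filter_add_sum_filter_not XX Sz0,
      ← Finset.sum_filter_add_sum_filter_not (XX.filter Sz0) M0,
      ← Finset.sum_filter_add_sum_filter_not (XX.filter (fun p => ¬ Sz0 p)) M0,
      ← Finset.sum_filter_add_sum_filter_not
        ((XX.filter (fun p => ¬ Sz0 p)).filter (fun p => ¬ M0 p)) Sm,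
      ← Finset.sum_filter_add_sum_filter_not
        (((XX.filter (fun p => ¬ Sz0 p)).filter (fun p => ¬ M0 p)).filter (fun p => ¬ Sm p)) Gs]
    simp only [Finset.filter_filter, and_assoc]
  rw [← hXX, hsum]
  -- all the minors vanish
  have hP0 : ∑ p ∈ XX.filter (fun p => Sz0 p ∧ M0 p), f p ≤ β * (X.card * 2 ^ r) := by
    have h1 : ∀ p ∈ XX.filter (fun p => Sz0 p ∧ M0 p), f p ≤ β := by
      intro p hp
      rw [Finset.mem_filter] at hp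
      obtain ⟨h2, h3⟩ := hmem p hp.1
      exact h0 p.1 h2 p.2 h3
    refine (Finset.sum_le_sum h1).trans ?_
    rw [Finset.sum_const, nsmul_eq_mul, mul_comm]
    apply mul_le_mul_of_nonneg_left _ hβ
    apply card_P0 hB hX
    intro p hp
    rw [Finset.mem_filter, hSz0, hM0] at hp
    obtain ⟨h2, h3, h4⟩ := hp
    refine ⟨(hmem p h2).1, (hmem p h2).2, ?_⟩
    intro i j j'
    by_cases hi : i = b
    · subst hi; exact h4 j j'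
    · exact h3 ⟨⟨i, hi⟩, j, j'⟩
  -- reduction to τ
  have hτle : ∀ p ∈ XX, ¬ M0 p → f p ≤ α * τ (bl p.1 b, bl p.2 b) := by
    intro p hp hM
    obtain ⟨h2, h3⟩ := hmem p hp
    rw [hM0] at hM
    push Not at hM
    rw [hτ]
    exact hx p.1 h2 p.2 h3 (gf (bl p.1 b, bl p.2 b)) (μf (bl p.1 b, bl p.2 b))
      (hg0 (bl p.1 b, bl p.2 b) hM) (hg1 (bl p.1 b, bl p.2 b) hM)
      (hg2 (bl p.1 b, bl p.2 b) hM) (hg3 (bl p.1 b, bl p.2 b) hM)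
      (hg4 (bl p.1 b, bl p.2 b) hM)
  have hτsum : ∀ Ps : Finset ((Var n → ℤ) × (Var n → ℤ)), (∀ p ∈ Ps, p ∈ XX ∧ ¬ M0 p) →
      ∀ m : ℝ, ((Ps.image (fun p => (rs b p.1, rs b p.2))).card : ℝ) ≤ m →
      ∑ p ∈ Ps, f p ≤ α * (m * S₀) := by
    intro Ps hPs m hm
    have h1 : ∑ p ∈ Ps, f p ≤ ∑ p ∈ Ps, α * τ (bl p.1 b, bl p.2 b) :=
      Finset.sum_le_sum (fun p hp => hτle p (hPs p hp).1 (hPs p hp).2)
    refine h1.trans ?_
    rw [← Finset.mul_sum]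
    apply mul_le_mul_of_nonneg_left _ hα
    apply fiber_tau b Ps τ hS₀ _ hm
    intro Tl hTl
    apply htau
    intro q hq
    obtain ⟨p, hp, rfl⟩ := hTl q hq
    obtain ⟨h2, h3⟩ := hmem p (hPs p hp).1
    have hM := (hPs p hp).2
    rw [hM0] at hM
    push Not at hM
    refine ⟨(hX _ h2).sz b, (hX _ h2).pr b, (hX _ h2).bal, ((hX _ h3).sz b).1, hM,
      gf _, μf _, hg1 _ hM, hg5 _ hM, ?_⟩
    rw [hτ]
    exact le_of_eq (div_mul_cancel₀ _ (hg3 _ hM).ne')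
  have hP1 : ∑ p ∈ XX.filter (fun p => Sz0 p ∧ ¬ M0 p), f p ≤
      α * ((∏ i, cV n b B i) * 2 ^ r * S₀) := by
    apply hτsum
    · intro p hp
      rw [Finset.mem_filter] at hp
      exact ⟨hp.1, hp.2.2⟩
    · apply card_P1 (a := a) hB
      intro p hp
      rw [Finset.mem_filter, hSz0] at hp
      obtain ⟨h2, h3⟩ := hmem p hp.1
      exact ⟨hX _ h2, hX _ h3, hp.2.1⟩
  have hP2 : ∑ p ∈ XX.filter (fun p => ¬ Sz0 p ∧ M0 p), f p ≤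
      α * (L ^ 2 * (VolM n B * (2 * ∏ i, cV n b B i))) := by
    have h1 : ∀ p ∈ XX.filter (fun p => ¬ Sz0 p ∧ M0 p), f p ≤ α * L ^ 2 := by
      intro p hp
      rw [Finset.mem_filter, hSz0] at hp
      obtain ⟨h2, h3⟩ := hmem p hp.1
      have h4 := hp.2.1
      push Not at h4
      obtain ⟨q₀, hq₀⟩ := h4
      -- gcd of the minors outside of the main block
      obtain ⟨g, hg⟩ := (IsPrincipalIdealRing.principal
        (Ideal.span (Set.range (mnr (b := b) p.1 p.2)))).principal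
      have hgd : ∀ q : MI n b, g ∣ mnr p.1 p.2 q := by
        intro q
        have : mnr p.1 p.2 q ∈ Ideal.span (Set.range (mnr (b := b) p.1 p.2)) :=
          Ideal.subset_span ⟨q, rfl⟩
        rw [hg] at this
        exact Ideal.mem_span_singleton.mp this
      have hgmax : ∀ D, (∀ q : MI n b, D ∣ mnr p.1 p.2 q) → D ∣ g := by
        intro D hD
        have h1 : g ∈ Ideal.span (Set.range (mnr (b := b) p.1 p.2)) := by
          rw [hg]; exact Ideal.mem_span_singleton_self g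
        have h2 : Ideal.span (Set.range (mnr (b := b) p.1 p.2)) ≤ Ideal.span {D} := by
          rw [Ideal.span_le]
          rintro _ ⟨q, rfl⟩
          exact Ideal.mem_span_singleton.mpr (hD q)
        exact Ideal.mem_span_singleton.mp (h2 h1)
      have hg0' : g ≠ 0 := by
        intro h
        have := hgd q₀
        rw [h, zero_dvd_iff] at this
        exact hq₀ this
      refine hsm p.1 h2 p.2 h3 q₀ g hq₀ hg0' hgmax ?_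
      have := Int.le_of_dvd (abs_pos.mpr hq₀) ((dvd_abs _ _).mpr ((abs_dvd _ _).mpr (hgd q₀)))
      exact_mod_cast this
    refine (Finset.sum_le_sum h1).trans ?_
    rw [Finset.sum_const, nsmul_eq_mul]
    have h2 := card_P2 (a := a) (b := b) hB (XX.filter (fun p => ¬ Sz0 p ∧ M0 p)) (by
      intro p hp
      rw [Finset.mem_filter, hM0] at hp
      obtain ⟨h2, h3⟩ := hmem p hp.1
      exact ⟨hX _ h2, hX _ h3, hp.2.2⟩)
    have h3 := mul_le_mul_of_nonneg_right h2 (by positivity : 0 ≤ α * L ^ 2)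
    linarith
  have hP3 : ∑ p ∈ XX.filter (fun p => ¬ Sz0 p ∧ ¬ M0 p ∧ Sm p), f p ≤
      α * ((∏ i, cV n b B i) * (3 * κ * ∏ i, cV n b B i) * S₀) := by
    apply hτsum
    · intro p hp
      rw [Finset.mem_filter] at hp
      exact ⟨hp.1, hp.2.2.1⟩
    · apply card_P3a (a := a) hB hBL hL hκ hκL hn hi₁
      intro p hp
      rw [Finset.mem_filter, hSm] at hp
      obtain ⟨h2, h3⟩ := hmem p hp.1
      exact ⟨hX _ h2, hX _ h3, hp.2.2.2⟩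
  have hstar : ∀ p, ¬ Sm p → ∃ q : MI n b, κ * L ^ 2 ≤ |(mnr p.1 p.2 q : ℝ)| := by
    intro p hp
    rw [hSm] at hp
    push Not at hp
    obtain ⟨q, hq⟩ := hp
    exact ⟨q, hq.le⟩
  have hGne : ∀ p, ¬ Sz0 p → Gf p ≠ 0 := by
    intro p hp h
    rw [hSz0] at hp
    push Not at hp
    obtain ⟨q, hq⟩ := hp
    have := hGf1 p q.1 q.2.1 q.2.2
    rw [h, zero_dvd_iff] at this
    exact hq this
  have hP4 : ∑ p ∈ XX.filter (fun p => ¬ Sz0 p ∧ ¬ M0 p ∧ ¬ Sm p ∧ Gs p), f p ≤ Mg := by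
    apply hgood
    intro p hp
    rw [Finset.mem_filter] at hp
    obtain ⟨h1, h4, h5, h6, h7⟩ := hp
    obtain ⟨h2, h3⟩ := hmem p h1
    obtain ⟨q, hq⟩ := hstar p h6
    refine ⟨h2, h3, q, Gf p, hq, hGne p h4, ?_, hGf1 p, hGf2 p, ?_⟩
    · rw [hM0] at h5
      push Not at h5
      exact h5
    · rw [hGs] at h7
      exact h7
  have hP5 : ∑ p ∈ XX.filter (fun p => ¬ Sz0 p ∧ ¬ M0 p ∧ ¬ Sm p ∧ ¬ Gs p), f p ≤
      α * (1 / κ * (r * (VolM n B * (VolM n B * Cd)) * (1 / N))) := by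
    have h1 : ∀ p ∈ XX.filter (fun p => ¬ Sz0 p ∧ ¬ M0 p ∧ ¬ Sm p ∧ ¬ Gs p),
        f p ≤ α / κ * |(Gf p : ℝ)| := by
      intro p hp
      rw [Finset.mem_filter] at hp
      obtain ⟨h1, h4, h5, h6, h7⟩ := hp
      obtain ⟨h2, h3⟩ := hmem p h1
      obtain ⟨q, hq⟩ := hstar p h6
      refine hc p.1 h2 p.2 h3 q (Gf p) hq (hGne p h4) ?_ (hGf2 p)
      rw [hM0] at h5
      push Not at h5
      exact h5
    refine (Finset.sum_le_sum h1).trans ?_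
    rw [← Finset.mul_sum]
    have h2 := sum_P3b (a := a) hB hBL hL hn hnb hCd0 hLB hCd hN
      (XX.filter (fun p => ¬ Sz0 p ∧ ¬ M0 p ∧ ¬ Sm p ∧ ¬ Gs p)) Gf (by
        intro p hp
        rw [Finset.mem_filter] at hp
        obtain ⟨h1, h4, h5, h6, h7⟩ := hp
        obtain ⟨h2, h3⟩ := hmem p h1
        refine ⟨hX _ h2, hX _ h3, hGf1 p, ?_, ?_⟩
        · rw [hSz0] at h4
          push Not at h4
          exact h4
        · rw [hGs] at h7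
          exact not_le.mp h7)
    have h3 := mul_le_mul_of_nonneg_left h2 (by positivity : 0 ≤ α / κ)
    refine h3.trans (le_of_eq ?_)
    rw [div_mul_eq_mul_div, mul_div_assoc, one_div κ, inv_mul_eq_div]
  linarith

theorem exists_Cd (n : Fin r → ℕ) (hn : ∀ i, 1 ≤ n i) : ∃ Cd : ℝ, 0 < Cd ∧ ∀ L : ℝ, 1 ≤ L →
    ∀ i, ∀ (s : Fin (n i + 1) → ℤ), Sz L s → Prim s → ∀ (G : ℕ), 1 ≤ G →
      ∀ U : Finset (Fin (n i + 1) → ℤ),
      (∀ t ∈ U, (∀ j, |(t j : ℝ)| ≤ L) ∧ (∀ j j', (G : ℤ) ∣ mn s t j j') ∧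
        ∃ j j', mn s t j j' ≠ 0) → (U.card : ℝ) * G ≤ Cd * L ^ (n i + 1) := by
  choose C hC0 hC using fun i : Fin r => Pool.Agent.Y362.MH.dvd_minor_count (n i + 1)
  refine ⟨1 + ∑ i, C i, by
    have : 0 ≤ ∑ i, C i := Finset.sum_nonneg (fun i _ => (hC0 i).le)
    linarith, ?_⟩
  intro L hL i s hs hp G hG U hU
  refine (hC i (ι := Fin (n i + 1)) (by simp) (by have := hn i; omega) L hL s hs hp G hG U hU).trans ?_
  apply mul_le_mul_of_nonneg_right _ (by positivity)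
  have := Finset.single_le_sum (f := C) (fun j _ => (hC0 j).le) (Finset.mem_univ i)
  linarith

/-- `c1pt` and `C2` are positive -/
theorem consts_pos (n : Fin r → ℕ) (b : Fin r) (De : ℕ) :
    0 < c1pt (Fintype.card (Var n)) (De + 1) ∧ 0 < C2 (Fintype.card (Var n)) De := by
  have h1 : 1 ≤ Fintype.card (Var n) := by
    have := card_block_le (n := n) b
    omega
  have h2 : (0:ℝ) < Fintype.card (Var n) := by exact_mod_cast h1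
  constructor
  · unfold c1pt; positivity
  · unfold C2 Cs Cx c1pt; positivity

open scoped Classical in
/-- The second moment. -/
theorem second_momentM (n d : Fin r → ℕ) (b : Fin r) (hr : 2 ≤ r) (hnb : 2 ≤ n b)
    (hn : ∀ i, 1 ≤ n i) (De : ℕ) (hDe : ∑ i, d i = De + 2) :
    ∃ Ct : ℝ, 0 < Ct ∧ ∀ (w : ℕ) (_ : 1 ≤ w) (fc : MvPolynomial (Var n) ℤ) (S J : ℕ)
    (xc : Var n → ℤ)
    (Λ : Fin r → ℝ) (ξ : Var n → ℝ) (a₀ : Var n) (ρ ρ' L a A A₂ Δ κ : ℝ)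
    (_ : Scl b d (fun i => 2 * Λ i) L a) (_ : 0 < κ) (_ : 1 ≤ κ * L) (_ : 2 * L ^ 2 ≤ 2 * Λ b)
    (Lg : ℝ) (_ : 0 ≤ Lg)
    (_ : ∀ s : ℕ, (s : ℝ) ≤ 15 * (Fintype.card (Var n)) ^ 2 * a * (2 * Λ b) →
      (Nat.log 2 s : ℝ) ≤ Lg)
    (u : (Var n → ℤ) → ℤ)
    (_ : ∀ x ∈ boxM Λ ξ a₀ ρ ρ' S xc, MvPolynomial.eval x fc = -(((S * J : ℕ) : ℤ) * u x))
    (T K : ℕ)
    (_ : K = (∏ p ∈ (Finset.range (w + 1)).filter Nat.Prime, p) ^ T)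
    (_ : 0 ≤ Δ) (_ : K * (2 ^ T : ℕ) ≤ Δ)
    (_ : A + (c1pt (Fintype.card (Var n)) (De + 1) + C2 (Fintype.card (Var n)) De *
      (1 + (monsM n d).card * c1pt (Fintype.card (Var n)) (De + 1)) / κ) *
      (Δ / (∏ i, (2 * Λ i) ^ d i) + K * E1 (Fintype.card (Var n)) L a (Ds b d)) +
      C2 (Fintype.card (Var n)) De * E2 (Fintype.card (Var n)) L a Lg (Ds b d) ≤ A₂)
    (_ : 2 * c1pt (Fintype.card (Var n)) (De + 1) * E1 (Fintype.card (Var n)) L a (Ds b d) ≤ A)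
    (_ : 2 * C2 (Fintype.card (Var n)) De * E2 (Fintype.card (Var n)) L a Lg (Ds b d) ≤ A)
    (R₁ E : ℝ) (R₂ : ℕ → ℝ) (_ : ∀ D, 0 ≤ R₂ D) (_ : 0 ≤ E)
    (_ : ∀ g ∈ formsM n d A₂,
      ((locSetM Λ ξ a₀ ρ ρ' S J xc (mem' fc S J g) K 1 0 ((S * J : ℕ) * Δ)).card : ℝ) ≤ R₁)
    (_ : ∀ D : ℕ, 0 < D → D ≤ 2 ^ T → (∀ q : ℕ, q.Prime → q ≤ w → ¬ q ∣ D) →
      ∀ g ∈ formsM n d A₂, ∀ ζ,
      ((locSetM Λ ξ a₀ ρ ρ' S J xc (mem' fc S J g) K D ζ ((S * J : ℕ) * Δ)).card : ℝ) ≤ R₂ D)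
    (_ : ∀ D : ℕ, 0 < D → D ≤ 2 ^ T → (formsM n d A₂).card * (R₁ * ((D : ℝ) ^ r * R₂ D)) ≤
      (formsM n d A).card * (E * (1 / (D : ℝ) ^ 2)) *
        ((2 * Δ / K - 1) * (2 * Δ / (K * D) - 1))),
    ∑ p ∈ (testM b a Λ ξ a₀ ρ ρ' S xc) ×ˢ (testM b a Λ ξ a₀ ρ ρ' S xc), (c2M d A u p : ℝ) ≤
      (formsM n d A).card * E * (1 + 1 / w) +
      Ct * (formsM n d (3 * A)).card * VolM n (fun i => 2 * Λ i) ^ 2 /
        (A * ∏ i, (2 * Λ i) ^ d i) ^ 2 *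
        ((1 + a ^ 2 / (2 * Λ b) * (1 + Real.log (2 * Λ b))) * (1 / L ^ 2 + κ) +
          L ^ 2 / (2 * Λ b) ^ 2 + 1 / (κ * 2 ^ T)) +
      Ct * (formsM n d (2 * A)).card * (testM b a Λ ξ a₀ ρ ρ' S xc).card /
        (A * ∏ i, (2 * Λ i) ^ d i) := by
  obtain ⟨Cτ, hCτ, htau⟩ := exists_tauB (n b + 1) (by omega)
  obtain ⟨Cd, hCd0, hCd⟩ := exists_Cd n hn
  obtain ⟨hC1, hC2⟩ := consts_pos n b De
  obtain ⟨c, hc⟩ : ∃ c, c1pt (Fintype.card (Var n)) (De + 1) = c := ⟨_, rfl⟩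
  obtain ⟨c', hc'⟩ : ∃ c', C2 (Fintype.card (Var n)) De = c' := ⟨_, rfl⟩
  obtain ⟨i₁, hi₁⟩ : ∃ i₁ : Fin r, i₁ ≠ b := by
    haveI : Nontrivial (Fin r) := by
      apply Fintype.one_lt_card_iff_nontrivial.mp
      rw [Fintype.card_fin]; omega
    exact exists_ne b
  refine ⟨4 * c * c' * (2 ^ r * Cτ + 3 * Cτ + 2 + r * Cd) + 2 ^ r * (2 * c), ?_, ?_⟩
  · rw [hc] at hC1; rw [hc'] at hC2; positivity
  intro w hw fc S J xc Λ ξ a₀ ρ ρ' L a A A₂ Δ κ hs hκ hκL hLB Lg hLg0 hLg u hu T K hK hΔ hΔK hA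
    hA1 hA2 R₁ E R₂ hR₂ hE hL1 hL2 hED
  have hK0 : 0 < K := by
    rw [hK]
    apply pow_pos
    apply Finset.prod_pos
    intro p hp
    exact (Finset.mem_filter.mp hp).2.pos
  rw [hc, hc'] at hA
  rw [hc] at hA1 hC1
  rw [hc'] at hA2 hC2
  obtain ⟨E₁, hE₁⟩ : ∃ E₁, E1 (Fintype.card (Var n)) L a (Ds b d) = E₁ := ⟨_, rfl⟩
  obtain ⟨E₂, hE₂⟩ : ∃ E₂, E2 (Fintype.card (Var n)) L a Lg (Ds b d) = E₂ := ⟨_, rfl⟩
  have hE₁0 : 0 ≤ E₁ := by rw [← hE₁]; exact E1_nonneg hs.hL hs.ha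
  have hE₂0 : 0 ≤ E₂ := by rw [← hE₂]; exact E2_nonneg hs.hL hs.ha hLg0
  have hN1 : 1 ≤ Fintype.card (Var n) := by
    have := card_block_le (n := n) b
    omega
  have hE₁1 : 1 ≤ E₁ := by
    rw [← hE₁]; exact E1_ge_one hN1 hs.hL (by linarith [hs.ha])
  obtain ⟨Θ, hΘ⟩ : ∃ Θ : ℝ, ∏ i, (2 * Λ i) ^ d i = Θ := ⟨_, rfl⟩
  have hΘ0 : 0 < Θ := by rw [← hΘ]; exact hs.theta_pos
  rw [hE₁] at hA1
  rw [hE₂] at hA2
  have hL := hs.hL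
  have hL0 : 0 < L := by linarith
  have hAp : 0 < A := lt_of_lt_of_le (by positivity) hA1
  obtain ⟨F3, hF3⟩ : ∃ F3 : ℝ, ((formsM n d (3 * A)).card : ℝ) = F3 := ⟨_, rfl⟩
  obtain ⟨F2, hF2⟩ : ∃ F2 : ℝ, ((formsM n d (2 * A)).card : ℝ) = F2 := ⟨_, rfl⟩
  have hF30 : 0 ≤ F3 := by rw [← hF3]; positivity
  have hF20 : 0 ≤ F2 := by rw [← hF2]; positivity
  obtain ⟨B, hBdef⟩ : ∃ B : Fin r → ℝ, B = fun i => 2 * Λ i := ⟨_, rfl⟩
  have hBb : 2 * Λ b = B b := by rw [hBdef]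
  have hVB : VolM n (fun i => 2 * Λ i) = VolM n B := by rw [hBdef]
  have hs' : Scl b d B L a := by rw [hBdef]; exact hs
  have hΘB : ∏ i, B i ^ d i = Θ := by rw [hBdef]; exact hΘ
  have hB := hs'.hB
  have hB1 := hB b
  have hB0 : 0 < B b := by linarith
  obtain ⟨X, hXdef⟩ : ∃ X, testM b a Λ ξ a₀ ρ ρ' S xc = X := ⟨_, rfl⟩
  have hX : ∀ z ∈ X, Tst b B a z := by
    intro z hz
    rw [← hXdef] at hz
    rw [hBdef]
    exact testM_tst hz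
  have hLg' : ∀ s : ℕ, (s : ℝ) ≤ 15 * (Fintype.card (Var n)) ^ 2 * a * B b →
      (Nat.log 2 s : ℝ) ≤ Lg := by rw [← hBb]; exact hLg
  have hk1 : ∀ z ∈ X, Ker1 d z c Θ E₁ := by
    intro z hz
    have := ker1_gen (hX z hz) hB hs'.hBL hL hs.ha (De + 1) d (by rw [hDe])
    rw [hc, hΘB, hE₁] at this
    exact this
  obtain ⟨α, hαdef⟩ : ∃ α : ℝ, α = 4 * c * c' * F3 / (A * Θ) ^ 2 := ⟨_, rfl⟩
  obtain ⟨β, hβdef⟩ : ∃ β : ℝ, β = 2 * c * F2 / (A * Θ) := ⟨_, rfl⟩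
  have hα0 : 0 ≤ α := by rw [hαdef]; positivity
  have hβ0 : 0 ≤ β := by rw [hβdef]; positivity
  obtain ⟨θ, hθ⟩ : ∃ θ : ℝ, 1 + a ^ 2 / B b * (1 + Real.log (B b)) = θ := ⟨_, rfl⟩
  have hlog : 0 ≤ Real.log (B b) := Real.log_nonneg hB1
  have ha1 := hs.ha
  have hθ0 : 0 < θ := by
    rw [← hθ]
    have : 0 ≤ a ^ 2 / B b * (1 + Real.log (B b)) := by positivity
    linarith
  have htau' := htau (B b) a ha1 hs'.haB
  rw [hθ] at htau'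
  have hw2 : ∀ z ∈ X, ∀ w ∈ X, ∀ (G : ℤ) (s : ℝ), 0 < s → G ≠ 0 →
      Ker2 d z w G c' (Θ * s) E₂ → (c2M d A u (z, w) : ℝ) ≤ α * (|(G : ℝ)| / s) := by
    intro z hz w hw G s hs0 hG0 hk2
    have key := cnt2M_le (hk1 z hz) hk2 hC1 hC2 hΘ0 (mul_pos hΘ0 hs0) hE₁0 hE₂0 hG0 hA1 hA2
      hAp.le (u z) (u w)
    rw [hF3] at key
    have h1 : (A * Θ) * (A * (Θ * s)) = (A * Θ) ^ 2 * s := by ring
    rw [h1, ← le_div_iff₀ (by positivity)] at key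
    refine key.trans (le_of_eq ?_)
    rw [hαdef]
    field_simp
  have hmain := pairs_sum (b := b) (B := B) (L := L) (a := a) (κ := κ) (Cd := Cd) hB hs'.hBL hL hn
    hnb hCd0 (by rw [← hBb]; exact hLB) hi₁ hκ hκL (hCd L hL)
    (S₀ := Cτ * (B b ^ (2 * (n b + 1)) * θ)) (by positivity) htau' (N := 2 ^ T)
    (Nat.one_le_two_pow) X hX
    (fun p => (c2M d A u p : ℝ)) (α := α) (β := β)
    (Mg := (formsM n d A).card * E * (1 + 1 / w)) hα0 hβ0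
    (by
      intro z hz w' hw'
      have key := cnt1M_le (hk1 z hz) hC1 hΘ0 hE₁0 hA1 hAp.le (u z)
      rw [hF2, ← le_div_iff₀ (by positivity)] at key
      rw [hβdef]
      refine le_trans ?_ key
      have h2 : c2M d A u (z, w') ≤ ((formsM n d A).filter
          (fun f => MvPolynomial.eval z f = u z)).card := by
        unfold c2M
        apply Finset.card_le_card
        intro f hf
        rw [Finset.mem_filter] at hf ⊢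
        exact ⟨hf.1, hf.2.1⟩
      exact_mod_cast h2)
    (by
      intro z hz w' hw' g μ hg0 hg1 hg2 hμ0 hμ
      have hk2 := ker2_x' hs' (hX z hz) (hX w' hw') hDe hg0 hg1 hg2 hμ0 hμ hLg0 hLg'
      rw [hc', hΘB, hE₂] at hk2
      refine (hw2 z hz w' hw' g (μ / B b ^ 2) (by positivity) hg0 hk2).trans (le_of_eq ?_)
      congr 1
      field_simp)
    (by
      intro z hz w' hw' q G hq hG0 hGmax hGq
      have hk2 := ker2_s' (Lg := Lg) hs' (hX z hz) (hX w' hw') hDe q hq hGmax hLg0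
      rw [hc', hΘB, hE₂] at hk2
      have hq0 : 0 < |(mnr z w' q : ℝ)| := by
        have : (mnr z w' q : ℝ) ≠ 0 := by exact_mod_cast hq
        positivity
      refine (hw2 z hz w' hw' G (|(mnr z w' q : ℝ)| / L ^ 2) (by positivity) hG0 hk2).trans ?_
      apply mul_le_mul_of_nonneg_left _ hα0
      rw [div_div_eq_mul_div, div_le_iff₀ hq0, mul_comm]
      exact mul_le_mul_of_nonneg_left hGq (by positivity))
    (by
      intro z hz w' hw' q G hq hG0 hnp hGmax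
      have hq0 : 0 < |(mnr z w' q : ℝ)| := lt_of_lt_of_le (by positivity) hq
      have hq1 : mnr z w' q ≠ 0 := by
        intro h; rw [h] at hq0; simp at hq0
      have hk2 := ker2_c hs' (hX z hz) (hX w' hw') hDe q hq1 hnp hGmax hLg0 hLg'
      rw [hc', hΘB, hE₂] at hk2
      refine (hw2 z hz w' hw' G (|(mnr z w' q : ℝ)| / L ^ 2) (by positivity) hG0 hk2).trans ?_
      rw [div_mul_eq_mul_div, mul_div_assoc]
      apply mul_le_mul_of_nonneg_left _ hα0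
      apply div_le_div_of_nonneg_left (abs_nonneg _) hκ
      rw [le_div_iff₀ (by positivity)]
      exact hq)
    (by
      intro Gd hGd
      have hC1' : 0 < c1pt (Fintype.card (Var n)) (De + 1) := by rw [hc]; exact hC1
      have hC2' : 0 < C2 (Fintype.card (Var n)) De := by rw [hc']; exact hC2
      refine good_sumM (N := 2 ^ T) hDe hw hs hκ hLg0 hLg hC1' hC2' u hu hK0 hΔ hΔK
        (by rw [hc, hc']; exact hA) hR₂ hE hL1 hL2 hED Gd ?_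
      intro p hp
      obtain ⟨h1, h2, q, G, hq, hG0, hnp, hGd1, hGmax, hGN⟩ := hGd p hp
      rw [hXdef]
      refine ⟨h1, h2, ?_⟩
      obtain ⟨D, hD1, hD2, hD3, hD4⟩ := exists_coprime_part w T (Int.natAbs_ne_zero.mpr hG0) hGN
      refine ⟨D, G, hG0, ?_, hGmax, ⟨q, hq⟩, hnp, hD1, ?_, ?_, hD4⟩
      · intro i j j'
        exact (Int.natCast_dvd.mpr hD2).trans (hGd1 i j j')
      · exact (Nat.le_of_dvd (Int.natAbs_pos.mpr hG0) hD2).trans hGN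
      · rw [← hK] at hD3
        have := Int.natAbs_dvd_natAbs (a := G) (b := ((K * D : ℕ) : ℤ))
        rw [Int.natAbs_natCast] at this
        have h7 := this.mp hD3
        push_cast at h7
        exact h7)
  rw [hXdef]
  refine hmain.trans ?_
  rw [hF3, hF2, hΘ, hVB, hBb, hθ]
  obtain ⟨P, hP⟩ : ∃ P : ℝ, ∏ i, cV n b B i = P := ⟨_, rfl⟩
  obtain ⟨V, hV⟩ : ∃ V : ℝ, VolM n B = V := ⟨_, rfl⟩
  have hPV : (3 * B b) ^ (n b + 1) * P = V := by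
    rw [← hP, ← hV]; exact prod_cV b B
  rw [hP, hV]
  have hP0 : L ^ 2 ≤ P := by
    rw [← hP]
    have h1 : cV n b B i₁ ≤ ∏ i, cV n b B i := by
      rw [← Finset.mul_prod_erase _ _ (Finset.mem_univ i₁)]
      apply le_mul_of_one_le_right (by linarith [cV_nonneg (n := n) (b := b) hB i₁])
      have h0 := Finset.prod_le_prod (s := Finset.univ.erase i₁) (f := fun _ => (1:ℝ))
        (g := cV n b B) (fun _ _ => zero_le_one) (fun i _ => cV_nonneg hB i)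
      rwa [Finset.prod_const_one] at h0
    refine le_trans ?_ h1
    unfold cV
    rw [if_neg hi₁, hs'.hBL i₁ hi₁]
    calc L ^ 2 ≤ (3 * L) ^ 2 := pow_le_pow_left₀ hL0.le (by linarith) 2
      _ ≤ (3 * L) ^ (n i₁ + 1) := pow_le_pow_right₀ (by linarith) (by have := hn i₁; omega)
  have hPp : 0 < P := lt_of_lt_of_le (by positivity) hP0
  have hV0 : 0 < V := by rw [← hPV]; positivity
  obtain ⟨k, hk⟩ : ∃ k, n b + 1 = k := ⟨_, rfl⟩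
  have hk3 : 3 ≤ k := by omega
  rw [hk] at hPV ⊢
  have hBk : B b ^ 2 ≤ (3 * B b) ^ k := by
    calc B b ^ 2 ≤ (3 * B b) ^ 2 := pow_le_pow_left₀ hB0.le (by linarith) 2
      _ ≤ (3 * B b) ^ k := pow_le_pow_right₀ (by linarith) (by omega)
  have hB2k : B b ^ (2 * k) ≤ ((3 * B b) ^ k) ^ 2 := by
    rw [← pow_mul, mul_comm k 2]
    exact pow_le_pow_left₀ hB0.le (by linarith) _
  obtain ⟨Y, hY⟩ : ∃ Y : ℝ, (3 * B b) ^ k = Y := ⟨_, rfl⟩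
  rw [hY] at hPV hBk hB2k
  have hY0 : 0 < Y := lt_of_lt_of_le (by positivity) hBk
  have hN0 : (0:ℝ) < 2 ^ T := by positivity
  -- the terms
  have t1 : P * 2 ^ r * (Cτ * (B b ^ (2 * k) * θ)) ≤ 2 ^ r * Cτ * (V ^ 2 * (θ * (1 / L ^ 2))) := by
    have h1 : P * 2 ^ r * (Cτ * (B b ^ (2 * k) * θ)) ≤ P * 2 ^ r * (Cτ * (Y ^ 2 * θ)) := by
      apply mul_le_mul_of_nonneg_left _ (by positivity)
      apply mul_le_mul_of_nonneg_left _ hCτ.le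
      exact mul_le_mul_of_nonneg_right hB2k hθ0.le
    refine h1.trans ?_
    have h2 : P * 2 ^ r * (Cτ * (Y ^ 2 * θ)) = 2 ^ r * Cτ * (θ * (Y ^ 2 * P)) := by ring
    rw [h2]
    have h3 : 2 ^ r * Cτ * (V ^ 2 * (θ * (1 / L ^ 2))) = 2 ^ r * Cτ * (θ * (V ^ 2 / L ^ 2)) := by
      ring
    rw [h3]
    apply mul_le_mul_of_nonneg_left _ (by positivity)
    apply mul_le_mul_of_nonneg_left _ hθ0.le
    rw [le_div_iff₀ (by positivity), ← hPV]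
    have h4 := mul_le_mul_of_nonneg_left hP0 (by positivity : 0 ≤ Y ^ 2 * P)
    linarith
  have t2 : P * (3 * κ * P) * (Cτ * (B b ^ (2 * k) * θ)) ≤ 3 * Cτ * (V ^ 2 * (θ * κ)) := by
    have h1 : P * (3 * κ * P) * (Cτ * (B b ^ (2 * k) * θ)) ≤
        P * (3 * κ * P) * (Cτ * (Y ^ 2 * θ)) := by
      apply mul_le_mul_of_nonneg_left _ (by positivity)
      apply mul_le_mul_of_nonneg_left _ hCτ.le
      exact mul_le_mul_of_nonneg_right hB2k hθ0.le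
    refine h1.trans (le_of_eq ?_)
    rw [← hPV]; ring
  have t3 : L ^ 2 * (V * (2 * P)) ≤ 2 * (V ^ 2 * (L ^ 2 / B b ^ 2)) := by
    have h1 : P ≤ V / B b ^ 2 := by
      rw [le_div_iff₀ (by positivity), ← hPV, mul_comm]
      exact mul_le_mul_of_nonneg_right hBk hPp.le
    have h2 := mul_le_mul_of_nonneg_left h1 (by positivity : 0 ≤ L ^ 2 * (V * 2))
    have h3 : L ^ 2 * (V * 2) * (V / B b ^ 2) = 2 * (V ^ 2 * (L ^ 2 / B b ^ 2)) := by ring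
    linarith
  have t4 : 1 / κ * (r * (V * (V * Cd)) * (1 / ((2 ^ T : ℕ) : ℝ))) =
      r * Cd * (V ^ 2 * (1 / (κ * 2 ^ T))) := by
    push_cast
    field_simp
  rw [t4]
  obtain ⟨W, hW⟩ : ∃ W : ℝ, V ^ 2 * (θ * (1 / L ^ 2 + κ) + L ^ 2 / B b ^ 2 + 1 / (κ * 2 ^ T)) = W :=
    ⟨_, rfl⟩
  have w1 : 0 ≤ V ^ 2 * (θ * (1 / L ^ 2)) := by positivity
  have w2 : 0 ≤ V ^ 2 * (θ * κ) := by positivity
  have w3 : 0 ≤ V ^ 2 * (L ^ 2 / B b ^ 2) := by positivity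
  have w4 : 0 ≤ V ^ 2 * (1 / (κ * 2 ^ T)) := by positivity
  have hWsum : W = V ^ 2 * (θ * (1 / L ^ 2)) + V ^ 2 * (θ * κ) + V ^ 2 * (L ^ 2 / B b ^ 2) +
      V ^ 2 * (1 / (κ * 2 ^ T)) := by rw [← hW]; ring
  have hW0 : 0 ≤ W := by rw [hWsum]; positivity
  have hCd0' : 0 ≤ (r:ℝ) * Cd := by positivity
  have hsumt : P * 2 ^ r * (Cτ * (B b ^ (2 * k) * θ)) + P * (3 * κ * P) * (Cτ * (B b ^ (2 * k) * θ)) +
      L ^ 2 * (V * (2 * P)) + r * Cd * (V ^ 2 * (1 / (κ * 2 ^ T))) ≤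
      (2 ^ r * Cτ + 3 * Cτ + 2 + r * Cd) * W := by
    have s1 : 2 ^ r * Cτ * (V ^ 2 * (θ * (1 / L ^ 2))) ≤ 2 ^ r * Cτ * W :=
      mul_le_mul_of_nonneg_left (by rw [hWsum]; linarith) (by positivity)
    have s2 : 3 * Cτ * (V ^ 2 * (θ * κ)) ≤ 3 * Cτ * W :=
      mul_le_mul_of_nonneg_left (by rw [hWsum]; linarith) (by positivity)
    have s3 : 2 * (V ^ 2 * (L ^ 2 / B b ^ 2)) ≤ 2 * W :=
      mul_le_mul_of_nonneg_left (by rw [hWsum]; linarith) (by positivity)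
    have s4 : r * Cd * (V ^ 2 * (1 / (κ * 2 ^ T))) ≤ r * Cd * W :=
      mul_le_mul_of_nonneg_left (by rw [hWsum]; linarith) hCd0'
    linarith
  have f1 := mul_le_mul_of_nonneg_left hsumt hα0
  have hXc : (0:ℝ) ≤ X.card := Nat.cast_nonneg _
  obtain ⟨C₁, hC₁⟩ : ∃ C₁ : ℝ, 2 ^ r * Cτ + 3 * Cτ + 2 + r * Cd = C₁ := ⟨_, rfl⟩
  have hC₁0 : 0 ≤ C₁ := by rw [← hC₁]; positivity
  rw [hC₁] at f1 ⊢
  have f2 : α * (C₁ * W) ≤ (4 * c * c' * C₁ + 2 ^ r * (2 * c)) * F3 * V ^ 2 / (A * Θ) ^ 2 *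
      (θ * (1 / L ^ 2 + κ) + L ^ 2 / B b ^ 2 + 1 / (κ * 2 ^ T)) := by
    have e1 : (4 * c * c' * C₁ + 2 ^ r * (2 * c)) * F3 * V ^ 2 / (A * Θ) ^ 2 *
      (θ * (1 / L ^ 2 + κ) + L ^ 2 / B b ^ 2 + 1 / (κ * 2 ^ T)) =
      (4 * c * c' * C₁ + 2 ^ r * (2 * c)) * (F3 / (A * Θ) ^ 2 * W) := by
      rw [← hW]; ring
    have e2 : α * (C₁ * W) = (4 * c * c' * C₁) * (F3 / (A * Θ) ^ 2 * W) := by
      rw [hαdef]; ring
    rw [e1, e2]
    apply mul_le_mul_of_nonneg_right _ (by positivity)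
    have : 0 ≤ 2 ^ r * (2 * c) := by positivity
    linarith
  have f3 : β * (X.card * 2 ^ r) ≤ (4 * c * c' * C₁ + 2 ^ r * (2 * c)) * F2 * X.card / (A * Θ) := by
    have e1 : β * (X.card * 2 ^ r) = (2 ^ r * (2 * c)) * (F2 * X.card / (A * Θ)) := by
      rw [hβdef]; ring
    have e2 : (4 * c * c' * C₁ + 2 ^ r * (2 * c)) * F2 * X.card / (A * Θ) =
      (4 * c * c' * C₁ + 2 ^ r * (2 * c)) * (F2 * X.card / (A * Θ)) := by ring
    rw [e1, e2]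
    have hAΘ : 0 < A * Θ := mul_pos hAp hΘ0
    apply mul_le_mul_of_nonneg_right _ (div_nonneg (mul_nonneg hF20 hXc) hAΘ.le)
    have : 0 ≤ 4 * c * c' * C₁ := by positivity
    linarith
  linarith

end Pool.Agent.Y716.M
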