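import Pool.Agent.Y716.M.Ker
import Pool.Agent.Y716.Q.Num

/-!
# Numerical lemmas for the class theorem, several blocks
-/

namespace Pool.Agent.Y716.M

open Pool.Agent.Y716.Q

theorem exists_T {Y : ℝ} (hY : 2 ≤ Y) : ∃ T : ℕ, Y ^ 10 ≤ (2:ℝ) ^ T ∧ (2:ℝ) ^ T ≤ Y ^ 11 := by
  obtain ⟨m, h1, h2⟩ := exists_nat_pow_near (one_le_pow₀ (by linarith : (1:ℝ) ≤ Y) : 1 ≤ Y ^ 10)
    (by norm_num : (1:ℝ) < 2)
  refine ⟨m + 1, h2.le, ?_⟩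
  rw [pow_succ, pow_succ Y 10]
  exact mul_le_mul h1 hY (by norm_num) (by positivity)

theorem K_bound {Y : ℝ} (hY : 2 ≤ Y) {T W : ℕ} (h : (2:ℝ) ^ T ≤ Y ^ 11) :
    ((W ^ T * 2 ^ T : ℕ) : ℝ) ≤ Y ^ (11 * W + 11) := by
  push_cast
  have h1 : (W : ℝ) ≤ 2 ^ W := by
    have := (Nat.lt_two_pow_self (n := W)).le
    exact_mod_cast this
  have h2 : (W : ℝ) ^ T ≤ Y ^ (11 * W) := by
    calc (W : ℝ) ^ T ≤ ((2:ℝ) ^ W) ^ T := pow_le_pow_left₀ (Nat.cast_nonneg _) h1 T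
      _ = ((2:ℝ) ^ T) ^ W := by rw [← pow_mul, ← pow_mul, mul_comm]
      _ ≤ (Y ^ 11) ^ W := pow_le_pow_left₀ (by positivity) h W
      _ = Y ^ (11 * W) := by rw [← pow_mul]
  rw [pow_add]
  exact mul_le_mul h2 h (by positivity) (by positivity)

theorem a_div_bound {Y a : ℝ} {l D ru m : ℕ} (hY : 1 ≤ Y) (hm : (m : ℝ) ≤ Y ^ (l * D + 4))
    (ha : ((ru : ℕ) : ℝ) * (m : ℝ) = a) : a / (2 * Y ^ l) ^ D ≤ ru * Y ^ 4 := by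
  have hY0 : 0 < Y := by linarith
  rw [div_le_iff₀ (by positivity), ← ha]
  have h1 : (Y ^ l) ^ D ≤ (2 * Y ^ l) ^ D :=
    pow_le_pow_left₀ (by positivity) (by linarith [pow_pos hY0 l]) D
  have h2 : Y ^ (l * D + 4) = Y ^ 4 * (Y ^ l) ^ D := by
    rw [← pow_mul, ← pow_add, add_comm]
  rw [h2] at hm
  have h3 : Y ^ 4 * (Y ^ l) ^ D ≤ Y ^ 4 * (2 * Y ^ l) ^ D :=
    mul_le_mul_of_nonneg_left h1 (by positivity)
  have h4 := mul_le_mul_of_nonneg_left (hm.trans h3) (Nat.cast_nonneg ru : (0:ℝ) ≤ ru)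
  linarith

theorem E1_bound {Y a : ℝ} {N₀ l D ru m : ℕ} (hY : 1 ≤ Y) (hl : 4 ≤ l)
    (hm : (m : ℝ) ≤ Y ^ (l * D + 4)) (ha : ((ru : ℕ) : ℝ) * (m : ℝ) = a) :
    E1 N₀ (2 * Y ^ l) a D ≤ (8 * N₀ + ru) * Y ^ l := by
  unfold E1
  have h1 := a_div_bound hY hm ha
  have h2 : Y ^ 4 ≤ Y ^ l := pow_le_pow_right₀ hY hl
  have h3 := mul_le_mul_of_nonneg_left h2 (Nat.cast_nonneg ru : (0:ℝ) ≤ ru)
  linarith

theorem E2_bound {Y a c₇ : ℝ} {N₀ l D ru m : ℕ} (hY : 1 ≤ Y) (hl : 4 ≤ l) (hD : 1 ≤ D)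
    (hm : (m : ℝ) ≤ Y ^ (l * D + 4)) (ha : ((ru : ℕ) : ℝ) * (m : ℝ) = a)
    (hc₇ : (8 * (N₀:ℝ) + ru) = c₇) :
    E2 N₀ (2 * Y ^ l) a (2 * Y) D ≤ (16 * N₀ + ru + 3 * ru * c₇) * Y ^ (l * D + l + 5) := by
  have hY0 : 0 < Y := by linarith
  have hE1 := E1_bound (N₀ := N₀) hY hl hm ha
  rw [hc₇] at hE1
  have hc₇0 : 0 ≤ c₇ := by rw [← hc₇]; positivity
  have ha0 : 0 ≤ a := by rw [← ha]; positivity
  have hE10 : 0 ≤ E1 N₀ (2 * Y ^ l) a D := by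
    unfold E1
    positivity
  unfold E2
  have hl' : l ≤ l * D := Nat.le_mul_of_pos_right l (by omega)
  have e1 : 4 * (N₀:ℝ) * (2 * Y ^ l) ^ 2 ≤ 16 * N₀ * Y ^ (l * D + l + 5) := by
    have h1 : (2 * Y ^ l) ^ 2 = 4 * Y ^ (l * 2) := by rw [mul_pow, ← pow_mul]; norm_num
    rw [h1]
    have h2 : Y ^ (l * 2) ≤ Y ^ (l * D + l + 5) := pow_le_pow_right₀ hY (by omega)
    have h3 := mul_le_mul_of_nonneg_left h2 (by positivity : (0:ℝ) ≤ 16 * N₀)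
    linarith
  have e2 : a ≤ ru * Y ^ (l * D + l + 5) := by
    rw [← ha]
    apply mul_le_mul_of_nonneg_left _ (Nat.cast_nonneg _)
    exact hm.trans (pow_le_pow_right₀ hY (by omega))
  have e3 : (1 + 2 * Y) * (a * E1 N₀ (2 * Y ^ l) a D) ≤ 3 * ru * c₇ * Y ^ (l * D + l + 5) := by
    have h1 : a ≤ ru * Y ^ (l * D + 4) := by
      rw [← ha]; exact mul_le_mul_of_nonneg_left hm (Nat.cast_nonneg _)
    have h2 : a * E1 N₀ (2 * Y ^ l) a D ≤ (ru * Y ^ (l * D + 4)) * (c₇ * Y ^ l) :=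
      mul_le_mul h1 hE1 hE10 (by positivity)
    have h3 : (1 + 2 * Y) ≤ 3 * Y := by linarith
    have h4 := mul_le_mul h3 h2 (mul_nonneg ha0 hE10) (by positivity)
    refine h4.trans (le_of_eq ?_)
    have h5 : Y ^ (l * D + l + 5) = Y ^ (l * D + 4) * Y ^ l * Y := by
      rw [← pow_add, ← pow_succ]; congr 1; ring
    rw [h5]; ring
  linarith

/-- the logarithmic factor -/
theorem log_two_pow {Y : ℝ} (hY : 1 ≤ Y) (p : ℕ) : 1 + Real.log (2 * Y ^ p) ≤ (2 + p) * Y := by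
  have h1 : Real.log (2 * Y ^ p) = Real.log 2 + p * Real.log Y := by
    rw [Real.log_mul (by norm_num) (by positivity), Real.log_pow]
  have h2 : Real.log Y ≤ Y - 1 := Real.log_le_sub_one_of_pos (by linarith)
  have h3 : Real.log 2 ≤ 1 := by have := Real.log_two_lt_d9; linarith
  rw [h1]
  have h4 := mul_le_mul_of_nonneg_left h2 (Nat.cast_nonneg p : (0:ℝ) ≤ p)
  have h5 : (0:ℝ) ≤ p := Nat.cast_nonneg p
  nlinarith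

theorem log_four_pow {Y : ℝ} (hY : 1 ≤ Y) (p : ℕ) : 1 + Real.log (4 * Y ^ p) ≤ (3 + p) * Y := by
  have h1 : Real.log (4 * Y ^ p) = Real.log 4 + p * Real.log Y := by
    rw [Real.log_mul (by norm_num) (by positivity), Real.log_pow]
  have h2 : Real.log Y ≤ Y - 1 := Real.log_le_sub_one_of_pos (by linarith)
  have h3 : Real.log 4 ≤ 2 := by
    have : Real.log 4 = 2 * Real.log 2 := by
      rw [show (4:ℝ) = 2 ^ 2 by norm_num, Real.log_pow]; push_cast; ring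
    rw [this]
    have := Real.log_two_lt_d9
    linarith
  rw [h1]
  have h4 := mul_le_mul_of_nonneg_left h2 (Nat.cast_nonneg p : (0:ℝ) ≤ p)
  have h5 : (0:ℝ) ≤ p := Nat.cast_nonneg p
  nlinarith

theorem theta_bound {Y a : ℝ} {x ru m : ℕ} (hY : 1 ≤ Y) (hm : (m : ℝ) ≤ Y ^ (x + 4))
    (ha : ((ru : ℕ) : ℝ) * (m : ℝ) = a)
    (hy : 1 + (ru:ℝ) ^ 2 * (2 + (2 * x + 2 : ℕ)) ≤ Y) :
    1 + a ^ 2 / (2 * Y ^ (2 * x + 2)) * (1 + Real.log (2 * Y ^ (2 * x + 2))) ≤ Y ^ 8 := by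
  have hY0 : 0 < Y := by linarith
  have h1 : a ^ 2 / (2 * Y ^ (2 * x + 2)) ≤ ru ^ 2 * Y ^ 6 := by
    rw [div_le_iff₀ (by positivity), ← ha, mul_pow]
    have h2 : (m:ℝ) ^ 2 ≤ (Y ^ (x + 4)) ^ 2 := pow_le_pow_left₀ (Nat.cast_nonneg _) hm 2
    have h3 : (Y ^ (x + 4)) ^ 2 = Y ^ 6 * Y ^ (2 * x + 2) := by
      rw [← pow_mul, ← pow_add]; congr 1; ring
    rw [h3] at h2
    have h4 := mul_le_mul_of_nonneg_left h2 (by positivity : (0:ℝ) ≤ (ru:ℝ) ^ 2)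
    have h5 : 0 ≤ (ru:ℝ) ^ 2 * (Y ^ 6 * Y ^ (2 * x + 2)) := by positivity
    linarith
  have h2 := log_two_pow hY (2 * x + 2)
  have hlog : 0 ≤ 1 + Real.log (2 * Y ^ (2 * x + 2)) := by
    have : 0 ≤ Real.log (2 * Y ^ (2 * x + 2)) := by
      apply Real.log_nonneg
      have : 1 ≤ Y ^ (2 * x + 2) := one_le_pow₀ hY
      linarith
    linarith
  have h3 := mul_le_mul h1 h2 hlog (by positivity)
  have h4 : (ru:ℝ) ^ 2 * Y ^ 6 * ((2 + (2 * x + 2 : ℕ)) * Y) =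
      (ru:ℝ) ^ 2 * (2 + (2 * x + 2 : ℕ)) * Y ^ 7 := by ring
  rw [h4] at h3
  have h5 := mul_le_mul_of_nonneg_right hy (by positivity : 0 ≤ Y ^ 7)
  have h6 : 1 ≤ Y ^ 7 := one_le_pow₀ hY
  have h7 : Y * Y ^ 7 = Y ^ 8 := by ring
  rw [h7, add_mul, one_mul] at h5
  linarith

theorem W_bound {Y θ : ℝ} {l p T : ℕ} (hY : 1 ≤ Y) (hl : 9 ≤ l) (hp : l + 1 ≤ p)
    (hθ0 : 0 ≤ θ) (hθ : θ ≤ Y ^ 8) (hT : Y ^ 10 ≤ (2:ℝ) ^ T) :
    θ * (1 / (2 * Y ^ l) ^ 2 + 1 / Y ^ 9) + (2 * Y ^ l) ^ 2 / (2 * Y ^ p) ^ 2 +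
      1 / (1 / Y ^ 9 * 2 ^ T) ≤ 4 / Y := by
  have hY0 : 0 < Y := by linarith
  have e0 : 1 / (2 * Y ^ l) ^ 2 ≤ 1 / Y ^ 9 := by
    apply one_div_le_one_div_of_le (by positivity)
    calc Y ^ 9 ≤ Y ^ l := pow_le_pow_right₀ hY hl
      _ ≤ 2 * Y ^ l := by linarith [pow_pos hY0 l]
      _ ≤ (2 * Y ^ l) ^ 2 := by
        have h1 : 1 ≤ 2 * Y ^ l := by
          have : 1 ≤ Y ^ l := one_le_pow₀ hY
          linarith
        exact le_self_pow₀ h1 (by norm_num)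
  have e1 : θ * (1 / (2 * Y ^ l) ^ 2 + 1 / Y ^ 9) ≤ 2 / Y := by
    have h1 : 1 / (2 * Y ^ l) ^ 2 + 1 / Y ^ 9 ≤ 2 / Y ^ 9 := by
      have : 2 / Y ^ 9 = 1 / Y ^ 9 + 1 / Y ^ 9 := by ring
      rw [this]; linarith
    have h2 := mul_le_mul hθ h1 (by positivity) (by positivity)
    refine h2.trans (le_of_eq ?_)
    field_simp
  have e2 : (2 * Y ^ l) ^ 2 / (2 * Y ^ p) ^ 2 ≤ 1 / Y := by
    rw [div_le_div_iff₀ (by positivity) hY0, one_mul, mul_pow, mul_pow, ← pow_mul, ← pow_mul]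
    have h1 : Y ^ (l * 2) * Y ≤ Y ^ (p * 2) := by
      rw [← pow_succ]
      exact pow_le_pow_right₀ hY (by omega)
    linarith
  have e3 : 1 / (1 / Y ^ 9 * 2 ^ T) ≤ 1 / Y := by
    apply one_div_le_one_div_of_le hY0
    rw [one_div, inv_mul_eq_div, le_div_iff₀ (by positivity)]
    calc Y * Y ^ 9 = Y ^ 10 := by ring
      _ ≤ _ := hT
  have e4 : 4 / Y = 2 / Y + 1 / Y + 1 / Y := by ring
  rw [e4]
  linarith

/-- bounds for the auxiliary parameter `m` -/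
theorem m_boundsM {Y : ℝ} (hY : 2 ≤ Y) (x : ℕ) (hx : 1 ≤ x) : ((⌊Y ^ x⌋₊ : ℕ) : ℝ) ≤ Y ^ x ∧
    Y ^ x / 2 ≤ ((⌊Y ^ x⌋₊ : ℕ) : ℝ) ∧ 1 ≤ ⌊Y ^ x⌋₊ := by
  have h0 : (0:ℝ) ≤ Y ^ x := by positivity
  have h1 := Nat.floor_le h0
  have h2 := Nat.sub_one_lt_floor (Y ^ x)
  have h3 : (2:ℝ) ≤ Y ^ x := by
    calc (2:ℝ) ≤ Y := hY
      _ = Y ^ 1 := by ring
      _ ≤ Y ^ x := pow_le_pow_right₀ (by linarith) hx
  refine ⟨h1, by linarith, ?_⟩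
  apply Nat.le_floor
  push_cast
  linarith

theorem small_condM {k ru s p : ℕ} {Y : ℝ} (hY : 2 ≤ Y) (hru : s + p + 3 < 2 * ru)
    (hk : 2 * (k:ℝ) * ru + 3 ≤ Y) {m : ℕ}
    (hm1 : (m : ℝ) ≤ Y ^ (s + 1)) (hm2 : Y ^ (s + 1) / 2 ≤ (m : ℝ)) :
    (((k : ℝ) * (ru : ℕ) * m + 1) * (2 * Y ^ p) + 1) *
      (1 / (2 * m * (1 / Y ^ s))) ^ (2 * ru) < 1 := by
  have hY0 : 0 < Y := by linarith
  have hY1 : 1 ≤ Y := by linarith
  have h1 : Y ≤ 2 * m * (1 / Y ^ s) := by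
    rw [mul_one_div, le_div_iff₀ (by positivity)]
    calc Y * Y ^ s = Y ^ (s + 1) := by ring
      _ ≤ 2 * (m : ℝ) := by linarith
  have h2 : (1 / (2 * m * (1 / Y ^ s))) ^ (2 * ru) ≤ 1 / Y ^ (2 * ru) := by
    calc (1 / (2 * m * (1 / Y ^ s))) ^ (2 * ru) ≤ (1 / Y) ^ (2 * ru) :=
          pow_le_pow_left₀ (by positivity) (one_div_le_one_div_of_le hY0 h1) _
      _ = 1 / Y ^ (2 * ru) := by rw [one_div_pow]
  have h3 : ((k : ℝ) * (ru : ℕ) * m + 1) * (2 * Y ^ p) + 1 ≤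
      (2 * k * ru + 3) * Y ^ (s + 1 + p) := by
    have h4 : (k : ℝ) * (ru : ℕ) * m ≤ k * ru * Y ^ (s + 1) :=
      mul_le_mul_of_nonneg_left hm1 (by positivity)
    have h5 : ((k : ℝ) * (ru : ℕ) * m + 1) * (2 * Y ^ p) ≤
        (k * ru * Y ^ (s + 1) + 1) * (2 * Y ^ p) :=
      mul_le_mul_of_nonneg_right (by linarith) (by positivity)
    have h6 : (k * ru * Y ^ (s + 1) + 1) * (2 * Y ^ p) =
        2 * k * ru * Y ^ (s + 1 + p) + 2 * Y ^ p := by rw [pow_add Y (s + 1) p]; ring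
    have h7 : Y ^ p ≤ Y ^ (s + 1 + p) := pow_le_pow_right₀ hY1 (by omega)
    have h8 : 1 ≤ Y ^ (s + 1 + p) := one_le_pow₀ hY1
    linarith
  have h4 : (((k : ℝ) * (ru : ℕ) * m + 1) * (2 * Y ^ p) + 1) *
      (1 / (2 * m * (1 / Y ^ s))) ^ (2 * ru) ≤
      ((2 * k * ru + 3) * Y ^ (s + 1 + p)) * (1 / Y ^ (2 * ru)) :=
    mul_le_mul h3 h2 (by positivity) (by positivity)
  refine lt_of_le_of_lt h4 ?_
  rw [mul_one_div, div_lt_one (by positivity)]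
  calc (2 * k * ru + 3) * Y ^ (s + 1 + p) ≤ Y * Y ^ (s + 1 + p) :=
        mul_le_mul_of_nonneg_right hk (by positivity)
    _ = Y ^ (s + p + 2) := by rw [← pow_succ']; congr 1; ring
    _ < Y ^ (2 * ru) := pow_lt_pow_right₀ (by linarith) (by omega)

theorem unbal_numM {k x : ℕ} (hk : 3 ≤ k) (hx : 1 ≤ x) {Y Cu cU : ℝ} (hY : 2 ≤ Y) (hCu : 0 < Cu)
    (hcU : 0 < cU) (h : Cu * 4 ^ k * (3 + (x - 1 : ℕ)) / cU ≤ Y) :
    Cu * (2 * Y ^ (2 * x + 2)) ^ 2 * (2 * (2 * Y ^ (2 * x + 2)) * (1 / Y ^ (x + 3))) ^ (k - 1) *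
      (1 + Real.log (2 * (2 * Y ^ (2 * x + 2)) * (1 / Y ^ (x + 3)))) ≤
      cU * (Y ^ (2 * x + 2)) ^ k := by
  have hY0 : 0 < Y := by linarith
  have hY1 : 1 ≤ Y := by linarith
  obtain ⟨z, rfl⟩ : ∃ z, x = z + 1 := ⟨x - 1, by omega⟩
  obtain ⟨j, rfl⟩ : ∃ j, k = j + 3 := ⟨k - 3, by omega⟩
  rw [show z + 1 - 1 = z by omega] at h
  have e1 : 2 * (2 * Y ^ (2 * (z + 1) + 2)) * (1 / Y ^ (z + 1 + 3)) = 4 * Y ^ z := by
    rw [show 2 * (z + 1) + 2 = (z + 1 + 3) + z by ring, pow_add]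
    field_simp
    ring
  rw [e1]
  have h1 := log_four_pow hY1 z
  have h2 : Cu * (2 * Y ^ (2 * (z + 1) + 2)) ^ 2 * (4 * Y ^ z) ^ (j + 3 - 1) *
      (1 + Real.log (4 * Y ^ z)) ≤
      Cu * (2 * Y ^ (2 * (z + 1) + 2)) ^ 2 * (4 * Y ^ z) ^ (j + 3 - 1) * ((3 + z) * Y) :=
    mul_le_mul_of_nonneg_left h1 (by positivity)
  refine h2.trans ?_
  rw [show j + 3 - 1 = j + 2 by omega]
  rw [div_le_iff₀ hcU] at h
  have e2 : Cu * (2 * Y ^ (2 * (z + 1) + 2)) ^ 2 * (4 * Y ^ z) ^ (j + 2) * ((3 + z) * Y) =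
      (Cu * 4 ^ (j + 3) * (3 + z)) * Y ^ ((2 * (z + 1) + 2) * 2 + z * (j + 2) + 1) := by
    rw [mul_pow, mul_pow, ← pow_mul, ← pow_mul, pow_succ Y ((2 * (z + 1) + 2) * 2 + z * (j + 2)),
      pow_add Y ((2 * (z + 1) + 2) * 2) (z * (j + 2)), pow_succ (4:ℝ) (j + 2)]
    ring
  rw [e2]
  have h3 := mul_le_mul_of_nonneg_right h
    (by positivity : 0 ≤ Y ^ ((2 * (z + 1) + 2) * 2 + z * (j + 2) + 1))
  refine h3.trans ?_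
  have e3 : Y * cU * Y ^ ((2 * (z + 1) + 2) * 2 + z * (j + 2) + 1) =
      cU * Y ^ ((2 * (z + 1) + 2) * 2 + z * (j + 2) + 2) := by
    rw [pow_succ Y ((2 * (z + 1) + 2) * 2 + z * (j + 2) + 1)]; ring
  rw [e3]
  apply mul_le_mul_of_nonneg_left _ hcU.le
  rw [← pow_mul]
  apply pow_le_pow_right₀ hY1
  nlinarith [Nat.zero_le (z * j)]

end Pool.Agent.Y716.M
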