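import Pool.Agent.Y716.M.Core2
import Pool.Agent.Y716.M.Num
import Pool.Agent.Y716.Q.Stmt
import Pool.Agent.Y77.M7.Real

/-!
# The choice of the parameters
-/

namespace Pool.Agent.Y716.M

open Pool.Agent.Y716.Q Pool.Agent.Y510.M6 Pool.Agent.Y804.MC

variable {r : ℕ}

/-- the scales -/
noncomputable def Lam (b : Fin r) (Y : ℝ) (l x : ℕ) : Fin r → ℝ :=
  fun i => if i = b then Y ^ (2 * x + 2) else Y ^ l

theorem Lam_b (b : Fin r) (Y : ℝ) (l x : ℕ) : Lam b Y l x b = Y ^ (2 * x + 2) := by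
  simp [Lam]

theorem Lam_ne {b i : Fin r} (h : i ≠ b) (Y : ℝ) (l x : ℕ) : Lam b Y l x i = Y ^ l := by
  simp [Lam, h]

theorem Lam_one {b : Fin r} {Y : ℝ} (hY : 1 ≤ Y) (l x : ℕ) (i : Fin r) : 1 ≤ Lam b Y l x i := by
  unfold Lam
  split_ifs
  · exact one_le_pow₀ hY
  · exact one_le_pow₀ hY

theorem Lam_ge {b : Fin r} {Y : ℝ} (hY : 1 ≤ Y) {l x : ℕ} (hlx : l ≤ x) (i : Fin r) :
    Y ^ l ≤ Lam b Y l x i := by
  unfold Lam
  split_ifs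
  · exact pow_le_pow_right₀ hY (by omega)
  · exact le_rfl

theorem prod_Lam {b : Fin r} {Y : ℝ} (hY : 1 ≤ Y) (l x : ℕ) (e : Fin r → ℕ) :
    ∏ i, Lam b Y l x i ^ e i = Y ^ (l * Ds b e + (2 * x + 2) * e b) := by
  rw [← prod_pow_ge (b := b) (Lam_one hY l x) (fun i hi => Lam_ne hi Y l x) e, Lam_b, ← pow_mul,
    ← pow_mul, ← pow_add]

/-- the product over all the variables -/
theorem prod_var {n : Fin r → ℕ} (Λ : Fin r → ℝ) : ∏ a : Var n, Λ a.1 = ∏ i, Λ i ^ (n i + 1) := by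
  rw [Fintype.prod_sigma]
  apply Finset.prod_congr rfl
  intro i _
  simp

theorem Lam_scl {d : Fin r → ℕ} {b i₁ : Fin r} (hi₁ : i₁ ≠ b) (hd : ∀ i, 2 ≤ d i) {Y a : ℝ}
    (hY : 1 ≤ Y) {l x : ℕ} (ha : 1 ≤ a) (haB : a ≤ 2 * Y ^ (2 * x + 2)) :
    Scl b d (fun i => 2 * Lam b Y l x i) (2 * Y ^ l) a := by
  have h1 := Lam_one (b := b) hY l x
  refine ⟨fun i => by linarith [h1 i], fun i hi => by rw [Lam_ne hi], ?_, ha, ?_, hd b,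
    fun i => by have := hd i; omega, ?_⟩
  · have : 1 ≤ Y ^ l := one_le_pow₀ hY
    linarith
  · simp only [Lam_b]
    exact haB
  · unfold Ds
    exact (hd i₁).trans (Finset.single_le_sum (f := d) (fun i _ => Nat.zero_le _)
      (Finset.mem_erase.mpr ⟨hi₁, Finset.mem_univ _⟩))

/-- size conditions -/
theorem size_conds {N₀ M l D x ru m K T : ℕ} {Y A c c' c₆ c₇ c₉ τ₂ δ κ Θ Θ' a q : ℝ}
    (hY : 2 ≤ Y) (hD : 1 ≤ D) (hx : l * D = x) (hq : (q : ℝ) = Y ^ l) (hl : 30 ≤ l)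
    (hA : A = Y ^ (x + 2 * l)) (hc0 : 0 < c) (hc'0 : 0 < c')
    (hc₆ : c + c' * (1 + M * c) = c₆) (hc₇ : 8 * (N₀:ℝ) + ru = c₇)
    (hc₉ : 16 * (N₀:ℝ) + ru + 3 * ru * c₇ = c₉) (hτ₂0 : 0 < τ₂) (hτ₂1 : τ₂ ≤ 1 / 4)
    (hδ : c₆ * δ = τ₂ / 4) (hδ0 : 0 < δ)
    (hκ : κ = 1 / Y ^ 9) (hΘ : Θ' ≤ Θ) (hΘ'0 : 0 < Θ')
    (hm : (m : ℝ) ≤ Y ^ (x + 4)) (ha : ((ru : ℕ) : ℝ) * (m : ℝ) = a)
    (hK : ((K * 2 ^ T : ℕ) : ℝ) ≤ Y ^ (l - 19))
    (y4 : 4 * (c₆ * c₇ + c' * c₉) / τ₂ ≤ Y) :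
    (A + (c + c' * (1 + M * c) / κ) * ((κ * (δ * A * Θ')) / Θ + K * E1 N₀ (2 * Y ^ l) a D) +
      c' * E2 N₀ (2 * Y ^ l) a (2 * Y) D ≤ (1 + τ₂) * A) ∧
    ((1 - τ₂) * A + c * ((δ * A * Θ') / Θ + E1 N₀ (2 * Y ^ l) a D) ≤ A) ∧
    (2 * c * E1 N₀ (2 * Y ^ l) a D ≤ A) ∧ (2 * c' * E2 N₀ (2 * Y ^ l) a (2 * Y) D ≤ A) := by
  have hY0 : 0 < Y := by linarith
  have hY1 : 1 ≤ Y := by linarith
  have hA0 : 0 < A := by rw [hA]; positivity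
  have hΘ0 : 0 < Θ := lt_of_lt_of_le hΘ'0 hΘ
  have hc₆c : c ≤ c₆ := by
    rw [← hc₆]
    have : 0 ≤ c' * (1 + M * c) := by positivity
    linarith
  have hc₆0 : 0 < c₆ := by linarith
  have hc₇0 : 0 ≤ c₇ := by rw [← hc₇]; positivity
  have hc₉0 : 0 ≤ c₉ := by rw [← hc₉]; positivity
  have hm' : (m : ℝ) ≤ Y ^ (l * D + 4) := by rw [hx]; exact hm
  have e1 := E1_bound (N₀ := N₀) hY1 (by omega : 4 ≤ l) hm' ha
  have e2 := E2_bound (N₀ := N₀) hY1 (by omega : 4 ≤ l) hD hm' ha hc₇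
  rw [hc₇] at e1
  rw [hc₉, hx] at e2
  obtain ⟨E₁, hE₁⟩ : ∃ E₁, E1 N₀ (2 * Y ^ l) a D = E₁ := ⟨_, rfl⟩
  obtain ⟨E₂, hE₂⟩ : ∃ E₂, E2 N₀ (2 * Y ^ l) a (2 * Y) D = E₂ := ⟨_, rfl⟩
  rw [hE₁] at e1 ⊢
  rw [hE₂] at e2 ⊢
  have ha0 : 0 ≤ a := by rw [← ha]; positivity
  have hE₁0 : 0 ≤ E₁ := by
    rw [← hE₁]; unfold E1; positivity
  obtain ⟨Z, hZ⟩ : ∃ Z : ℝ, Y ^ (x + l + 5) = Z := ⟨_, rfl⟩
  have hZ0 : 0 < Z := by rw [← hZ]; positivity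
  have hlx : l ≤ x := by
    rw [← hx]; exact Nat.le_mul_of_pos_right l (by omega)
  rw [hZ] at e2
  have hYl : Y ^ l ≤ Z := by
    rw [← hZ]; exact pow_le_pow_right₀ hY1 (by omega)
  have hAZ : Y * Z ≤ A := by
    rw [hA, ← hZ, ← pow_succ']
    exact pow_le_pow_right₀ hY1 (by omega)
  have key : (c₆ * c₇ + c' * c₉) * Z ≤ τ₂ / 4 * A := by
    rw [div_le_iff₀ hτ₂0] at y4
    have h1 := mul_le_mul_of_nonneg_right y4 hZ0.le
    have h2 := mul_le_mul_of_nonneg_left hAZ hτ₂0.le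
    linarith
  have k1 : c₆ * c₇ * Z ≤ τ₂ / 4 * A := by
    have : 0 ≤ c' * c₉ * Z := by positivity
    linarith
  have k2 : c' * c₉ * Z ≤ τ₂ / 4 * A := by
    have : 0 ≤ c₆ * c₇ * Z := by positivity
    linarith
  have f1 : c₆ * E₁ ≤ c₆ * c₇ * Z := by
    have h1 : E₁ ≤ c₇ * Z := e1.trans (mul_le_mul_of_nonneg_left hYl hc₇0)
    have := mul_le_mul_of_nonneg_left h1 hc₆0.le
    linarith
  have f2 : c' * E₂ ≤ c' * c₉ * Z := by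
    have := mul_le_mul_of_nonneg_left e2 hc'0.le
    linarith
  have hΔΘ : δ * A * Θ' / Θ ≤ δ * A := by
    rw [div_le_iff₀ hΘ0]
    exact mul_le_mul_of_nonneg_left hΘ (by positivity)
  have hc₆δ : c₆ * (δ * A) = τ₂ / 4 * A := by rw [← mul_assoc, hδ]
  have hτA : 0 < τ₂ * A := by positivity
  refine ⟨?_, ?_, ?_, ?_⟩
  · have hY9 : 1 ≤ Y ^ 9 := one_le_pow₀ hY1
    have g0 : c + c' * (1 + M * c) / κ ≤ c₆ * Y ^ 9 := by
      rw [hκ, div_div_eq_mul_div, div_one, ← hc₆, add_mul]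
      have : c ≤ c * Y ^ 9 := le_mul_of_one_le_right hc0.le hY9
      linarith
    have g1 : (κ * (δ * A * Θ')) / Θ ≤ (δ * A) / Y ^ 9 := by
      rw [mul_div_assoc, hκ, one_div, inv_mul_eq_div]
      exact div_le_div_of_nonneg_right hΔΘ (by positivity)
    have g2 : (K:ℝ) * E₁ ≤ Y ^ (l - 19) * (c₇ * Y ^ l) := by
      have h1 : (K:ℝ) ≤ ((K * 2 ^ T : ℕ) : ℝ) := by
        have : K ≤ K * 2 ^ T := Nat.le_mul_of_pos_right _ (by positivity)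
        exact_mod_cast this
      exact mul_le_mul (h1.trans hK) e1 hE₁0 (by positivity)
    have g3 : (c + c' * (1 + M * c) / κ) * ((κ * (δ * A * Θ')) / Θ + K * E₁) ≤
        (c₆ * Y ^ 9) * ((δ * A) / Y ^ 9 + Y ^ (l - 19) * (c₇ * Y ^ l)) := by
      apply mul_le_mul g0 (by linarith) _ (by positivity)
      have hκ0 : 0 < κ := by rw [hκ]; positivity
      positivity
    have g4 : (c₆ * Y ^ 9) * ((δ * A) / Y ^ 9 + Y ^ (l - 19) * (c₇ * Y ^ l)) =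
        c₆ * (δ * A) + c₆ * c₇ * (Y ^ 9 * Y ^ (l - 19) * Y ^ l) := by
      field_simp
    have g5 : Y ^ 9 * Y ^ (l - 19) * Y ^ l ≤ Z := by
      rw [← hZ, ← pow_add, ← pow_add]
      exact pow_le_pow_right₀ hY1 (by omega)
    have g6 := mul_le_mul_of_nonneg_left g5 (by positivity : 0 ≤ c₆ * c₇)
    rw [g4, hc₆δ] at g3
    linarith
  · have g1 : c * (δ * A * Θ' / Θ) ≤ τ₂ / 4 * A := by
      rw [← hc₆δ]
      exact mul_le_mul hc₆c hΔΘ (by positivity) hc₆0.le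
    have g2 : c * E₁ ≤ c₆ * E₁ := mul_le_mul_of_nonneg_right hc₆c hE₁0
    rw [mul_add c]
    linarith
  · have g2 : c * E₁ ≤ c₆ * E₁ := mul_le_mul_of_nonneg_right hc₆c hE₁0
    have : τ₂ * A ≤ 1 / 4 * A := mul_le_mul_of_nonneg_right hτ₂1 hA0.le
    linarith
  · have : τ₂ * A ≤ 1 / 4 * A := mul_le_mul_of_nonneg_right hτ₂1 hA0.le
    linarith

/-- the count of unbalanced vectors -/
theorem unbal_cond {n : Fin r → ℕ} {b : Fin r} (hnb : 2 ≤ n b) {N₀ l x ru m : ℕ}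
    (hN₀ : Fintype.card (Var n) = N₀) {Y Cu cU : ℝ} (hCu0 : 0 < Cu)
    (hCu : UB (Fin (n b + 1)) Cu) (hY : 2 ≤ Y) (hx : 3 ≤ x)
    (hru : (x + 3) + (2 * x + 2) + 3 < 2 * ru) (hcU : 0 < cU)
    (y2 : 2 * ((n b + 1 : ℕ):ℝ) * ru + 3 ≤ Y)
    (y8 : Cu * 4 ^ (n b + 1) * (3 + (x - 1 : ℕ)) / cU ≤ Y)
    (hm1 : (m : ℝ) ≤ Y ^ (x + 4)) (hm2 : Y ^ (x + 4) / 2 ≤ (m : ℝ)) (hm3 : 1 ≤ m)
    (U : Finset (Fin (n b + 1) → ℤ))
    (hU : ∀ z ∈ U, Sz (2 * Lam b Y l x b) z ∧ Prim z ∧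
      ¬ Bal (2 * Lam b Y l x b) (((ru : ℕ) : ℝ) * (m : ℝ)) z) :
    (U.card : ℝ) * ∏ i ∈ Finset.univ.erase b, (6 * Lam b Y l x i) ^ (n i + 1) ≤
      cU * 6 ^ N₀ * ∏ i, Lam b Y l x i ^ (n i + 1) := by
  have hY0 : 0 < Y := by linarith
  have hY1 : 1 ≤ Y := by linarith
  rw [Lam_b] at hU
  have hYs : (64:ℝ) ≤ Y ^ (x + 3) := by
    calc (64:ℝ) = 2 ^ 6 := by norm_num
      _ ≤ Y ^ 6 := pow_le_pow_left₀ (by norm_num) hY 6
      _ ≤ Y ^ (x + 3) := pow_le_pow_right₀ hY1 (by omega)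
  have hYp : 1 ≤ Y ^ (2 * x + 2) := one_le_pow₀ hY1
  have h1 := hCu (2 * Y ^ (2 * x + 2)) m ru (1 / Y ^ (x + 3)) (by linarith) hm3 (by omega)
    (by positivity)
    (by
      rw [div_le_div_iff₀ (by positivity) (by norm_num)]
      linarith)
    (by
      rw [Fintype.card_fin]
      exact small_condM (k := n b + 1) (s := x + 3) (p := 2 * x + 2) hY (by omega) y2 hm1 hm2)
    (by
      rw [mul_one_div, le_div_iff₀ (by positivity)]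
      have : Y ^ (x + 3) ≤ Y ^ (2 * x + 2) := pow_le_pow_right₀ hY1 (by omega)
      linarith)
    U hU
  rw [Fintype.card_fin] at h1
  have h2 := h1.trans (unbal_numM (k := n b + 1) (x := x) (by omega) (by omega) hY hCu0 hcU y8)
  have h3 : ∏ i ∈ Finset.univ.erase b, (6 * Lam b Y l x i) ^ (n i + 1) ≤
      6 ^ N₀ * ∏ i ∈ Finset.univ.erase b, Lam b Y l x i ^ (n i + 1) := by
    have h4 : ∀ i ∈ Finset.univ.erase b, (6 * Lam b Y l x i) ^ (n i + 1) =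
        6 ^ (n i + 1) * Lam b Y l x i ^ (n i + 1) := fun i _ => mul_pow _ _ _
    rw [Finset.prod_congr rfl h4, Finset.prod_mul_distrib, Finset.prod_pow_eq_pow_sum]
    apply mul_le_mul_of_nonneg_right _ (Finset.prod_nonneg (fun i _ => by
      have := Lam_one (b := b) hY1 l x i
      positivity))
    apply pow_le_pow_right₀ (by norm_num)
    rw [← hN₀, Fintype.card_sigma]
    simp only [Fintype.card_fin]
    exact Finset.sum_le_sum_of_subset (Finset.erase_subset _ _)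
  have h5 := mul_le_mul h2 h3 (Finset.prod_nonneg (fun i _ => by
      have := Lam_one (b := b) hY1 l x i
      positivity)) (by positivity)
  refine h5.trans (le_of_eq ?_)
  rw [← Finset.mul_prod_erase Finset.univ (fun i => Lam b Y l x i ^ (n i + 1)) (Finset.mem_univ b),
    Lam_b]
  ring

end Pool.Agent.Y716.M
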