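import Pool.Agent.Y716.M.Good
import Pool.Agent.Y362.MH.Minors
import Pool.Agent.Y804.TauThree

/-!
# Counting pairs of test vectors in special position
-/

namespace Pool.Agent.Y716.M

open Pool.Agent.Y716.Q

variable {r : ℕ} {n : Fin r → ℕ}

/-- bound for the sum of gcd/size over pairs -/
def TauB (k : ℕ) (B a S₀ : ℝ) : Prop :=
  ∀ (Tl : Finset ((Fin k → ℤ) × (Fin k → ℤ))) (τ : (Fin k → ℤ) × (Fin k → ℤ) → ℝ),
    (∀ p ∈ Tl, Sz B p.1 ∧ Prim p.1 ∧ Bal B a p.1 ∧ (∀ i, |(p.2 i : ℝ)| ≤ B) ∧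
        (∃ i j, mn p.1 p.2 i j ≠ 0) ∧
        ∃ (g : ℤ) (μ : ℝ), (∀ i j, g ∣ mn p.1 p.2 i j) ∧ (∀ i j, |(mn p.1 p.2 i j : ℝ)| ≤ μ) ∧
          τ p * μ ≤ B ^ 2 * |(g : ℝ)|) →
      ∑ p ∈ Tl, τ p ≤ S₀

theorem exists_tauB (k : ℕ) (hk : 3 ≤ k) : ∃ C : ℝ, 0 < C ∧ ∀ (B a : ℝ), 1 ≤ a → a ≤ B →
    TauB k B a (C * (B ^ (2 * k) * (1 + a ^ 2 / B * (1 + Real.log B)))) := by
  classical
  rcases Nat.eq_or_lt_of_le hk with h3 | h4
  · subst h3
    obtain ⟨C, hC, h⟩ := Pool.Agent.Y804.TauThree.tau_sum_three (ι := Fin 3) (by simp)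
    refine ⟨C, hC, ?_⟩
    intro B a ha haB Tl τ hT
    have hB : 1 ≤ B := ha.trans haB
    have hB0 : 0 < B := by linarith
    refine (h B a ha haB Tl τ hT).trans ?_
    have h1 : B ^ (2 * 3) * (1 + a ^ 2 / B * (1 + Real.log B)) =
        B ^ 6 + a ^ 2 * B ^ 5 * (1 + Real.log B) := by
      field_simp
    rw [h1]
    have h2 : 0 ≤ B ^ 6 := by positivity
    have h3 : C * a ^ 2 * B ^ 5 * (1 + Real.log B) = C * (a ^ 2 * B ^ 5 * (1 + Real.log B)) := by
      ring
    rw [h3]
    apply mul_le_mul_of_nonneg_left _ hC.le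
    linarith
  · obtain ⟨C, hC, h⟩ := tail_sum_int (ι := Fin k) (by simp; omega)
    refine ⟨C + 9 ^ k, by positivity, ?_⟩
    intro B a ha haB Tl τ hT
    have hB : 1 ≤ B := ha.trans haB
    have hB0 : 0 < B := by linarith
    have hlog : 0 ≤ Real.log B := Real.log_nonneg hB
    have e1 : ∑ p ∈ Tl, τ p ≤ (C + 9 ^ k) * B ^ (2 * k) := by
      rw [← Finset.sum_filter_add_sum_filter_not Tl (fun p => 1 < τ p)]
      have h1 : ∑ p ∈ Tl.filter (fun p => 1 < τ p), τ p ≤ C * B ^ (2 * k) := by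
        have h2 := h B 1 hB le_rfl (Tl.filter (fun p => 1 < τ p)) τ (by
          intro p hp
          rw [Finset.mem_filter] at hp
          obtain ⟨h1, h2, h3, h4, h5, g, μ, h6, h7, h8⟩ := hT p hp.1
          refine ⟨h1.1, h4, h5, hp.2, g, μ, h6, ?_, h8⟩
          intro i j
          exact h7 i j)
        rw [Real.sqrt_one, div_one, Fintype.card_fin] at h2
        exact h2
      have h2 : ∑ p ∈ Tl.filter (fun p => ¬ 1 < τ p), τ p ≤ 9 ^ k * B ^ (2 * k) := by
        have h3 : ∑ p ∈ Tl.filter (fun p => ¬ 1 < τ p), τ p ≤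
            ∑ p ∈ Tl.filter (fun p => ¬ 1 < τ p), (1:ℝ) := by
          apply Finset.sum_le_sum
          intro p hp
          rw [Finset.mem_filter] at hp
          exact not_lt.mp hp.2
        refine h3.trans ?_
        rw [Finset.sum_const, nsmul_eq_mul, mul_one]
        have h4 := card_pairs_le (Tl.filter (fun p => ¬ 1 < τ p)) (m₁ := (3 * B) ^ k)
          (m₂ := (3 * B) ^ k) (by positivity) (by
            have := card_box_le hB ((Tl.filter (fun p => ¬ 1 < τ p)).image Prod.fst) (by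
              intro x hx i
              rw [Finset.mem_image] at hx
              obtain ⟨p, hp, rfl⟩ := hx
              exact (hT p (Finset.mem_filter.mp hp).1).1.1 i)
            rwa [Fintype.card_fin] at this) (by
            intro x _
            have := card_box_le hB (((Tl.filter (fun p => ¬ 1 < τ p)).filter
              (fun q => q.1 = x)).image Prod.snd) (by
              intro y hy i
              rw [Finset.mem_image] at hy
              obtain ⟨p, hp, rfl⟩ := hy
              exact (hT p (Finset.mem_filter.mp (Finset.mem_filter.mp hp).1).1).2.2.2.1 i)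
            rwa [Fintype.card_fin] at this)
        refine h4.trans (le_of_eq ?_)
        rw [← mul_pow, pow_mul, ← mul_pow]
        congr 1
        ring
      linarith
    refine e1.trans ?_
    apply mul_le_mul_of_nonneg_left _ (by positivity)
    apply le_mul_of_one_le_right (by positivity)
    have : 0 ≤ a ^ 2 / B * (1 + Real.log B) := by positivity
    linarith

/-- gcd of all minors -/
theorem exists_G (b : Fin r) (z w : Var n → ℤ) : ∃ G : ℤ,
    (∀ i j j', G ∣ mn (bl z i) (bl w i) j j') ∧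
    (∀ D, (∀ q : MI n b, D ∣ mnr z w q) → (∀ i j, D ∣ mn (bl z b) (bl w b) i j) → D ∣ G) := by
  obtain ⟨Mf, hMf⟩ : ∃ Mf : (Σ i : Fin r, Fin (n i + 1) × Fin (n i + 1)) → ℤ,
      Mf = fun p => mn (bl z p.1) (bl w p.1) p.2.1 p.2.2 := ⟨_, rfl⟩
  obtain ⟨g, hg⟩ := (IsPrincipalIdealRing.principal (Ideal.span (Set.range Mf))).principal
  refine ⟨g, ?_, ?_⟩
  · intro i j j'
    have : Mf ⟨i, j, j'⟩ ∈ Ideal.span (Set.range Mf) := Ideal.subset_span ⟨_, rfl⟩
    rw [hg] at this
    have h2 := Ideal.mem_span_singleton.mp this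
    rw [hMf] at h2
    exact h2
  · intro D h1 h2
    have h3 : g ∈ Ideal.span (Set.range Mf) := by
      rw [hg]; exact Ideal.mem_span_singleton_self g
    have h4 : Ideal.span (Set.range Mf) ≤ Ideal.span {D} := by
      rw [Ideal.span_le]
      rintro _ ⟨⟨i, j, j'⟩, rfl⟩
      apply Ideal.mem_span_singleton.mpr
      rw [hMf]
      by_cases hi : i = b
      · subst hi
        exact h2 j j'
      · exact h1 ⟨⟨i, hi⟩, j, j'⟩
    exact Ideal.mem_span_singleton.mp (h4 h3)

/-- factors of the count of the blocks outside of the main block -/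
noncomputable def cV (n : Fin r → ℕ) (b : Fin r) (B : Fin r → ℝ) (i : Fin r) : ℝ :=
  if i = b then 1 else (3 * B i) ^ (n i + 1)

theorem cV_nonneg {b : Fin r} {B : Fin r → ℝ} (hB : ∀ i, 1 ≤ B i) (i : Fin r) :
    1 ≤ cV n b B i := by
  unfold cV
  split_ifs
  · exact le_rfl
  · apply one_le_pow₀
    linarith [hB i]

theorem prod_cV (b : Fin r) (B : Fin r → ℝ) :
    (3 * B b) ^ (n b + 1) * ∏ i, cV n b B i = ∏ i, (3 * B i) ^ (n i + 1) := by
  have h : ∀ i, (3 * B i) ^ (n i + 1) =
      (if i = b then (3 * B b) ^ (n b + 1) else 1) * cV n b B i := by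
    intro i
    unfold cV
    split_ifs with h
    · subst h; ring
    · ring
  rw [Finset.prod_congr rfl (fun i _ => h i), Finset.prod_mul_distrib,
    Finset.prod_ite_eq' Finset.univ b]
  simp

open scoped Classical in
/-- number of pairs of vectors with the main block deleted -/
theorem spairs_card {b : Fin r} {B : Fin r → ℝ} {a : ℝ} (hB : ∀ i, 1 ≤ B i)
    (Ps : Finset ((Var n → ℤ) × (Var n → ℤ)))
    (hPs : ∀ p ∈ Ps, Tst b B a p.1 ∧ Tst b B a p.2) (c : Fin r → ℝ)
    (hc0 : ∀ i, 0 ≤ c i) (hcb : 1 ≤ c b)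
    (hc : ∀ i, i ≠ b → ∀ p₀ ∈ Ps, ∀ U : Finset (Fin (n i + 1) → ℤ),
      (∀ y ∈ U, ∃ p ∈ Ps, bl p.1 i = bl p₀.1 i ∧ bl p.2 i = y) → (U.card : ℝ) ≤ c i) :
    ((Ps.image (fun p => (rs b p.1, rs b p.2))).card : ℝ) ≤ (∏ i, cV n b B i) * ∏ i, c i := by
  apply card_pairs_le
  · exact Finset.prod_nonneg (fun i _ => hc0 i)
  · apply card_le_prod
    intro i
    by_cases hi : i = b
    · subst hi
      unfold cV
      rw [if_pos rfl]
      have : (((Ps.image (fun p => (rs i p.1, rs i p.2))).image Prod.fst).image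
          (fun y => bl y i)).card ≤ ({0} : Finset (Fin (n i + 1) → ℤ)).card := by
        apply Finset.card_le_card
        intro y hy
        simp only [Finset.mem_image] at hy
        obtain ⟨_, ⟨_, ⟨p, _, rfl⟩, rfl⟩, rfl⟩ := hy
        rw [Finset.mem_singleton]
        exact bl_rs_self i p.1
      rw [Finset.card_singleton] at this
      exact_mod_cast this
    · unfold cV
      rw [if_neg hi]
      have := card_box_le (hB i) ((((Ps.image (fun p => (rs b p.1, rs b p.2))).image
        Prod.fst).image (fun y => bl y i))) (by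
          intro y hy
          simp only [Finset.mem_image] at hy
          obtain ⟨_, ⟨_, ⟨p, hp, rfl⟩, rfl⟩, rfl⟩ := hy
          intro j
          rw [bl_rs_ne hi]
          exact ((hPs p hp).1.sz i).1 j)
      rwa [Fintype.card_fin] at this
  · intro x hx
    simp only [Finset.mem_image] at hx
    obtain ⟨_, ⟨p₀, hp₀, rfl⟩, rfl⟩ := hx
    apply card_le_prod
    intro i
    by_cases hi : i = b
    · subst hi
      have : ((((Ps.image (fun p => (rs i p.1, rs i p.2))).filter
          (fun q => q.1 = (rs i p₀.1, rs i p₀.2).1)).image Prod.snd).image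
          (fun y => bl y i)).card ≤ ({0} : Finset (Fin (n i + 1) → ℤ)).card := by
        apply Finset.card_le_card
        intro y hy
        simp only [Finset.mem_image, Finset.mem_filter] at hy
        obtain ⟨_, ⟨_, ⟨⟨p, _, rfl⟩, _⟩, rfl⟩, rfl⟩ := hy
        rw [Finset.mem_singleton]
        exact bl_rs_self i p.2
      rw [Finset.card_singleton] at this
      have h2 : ((((((Ps.image (fun p => (rs i p.1, rs i p.2))).filter
          (fun q => q.1 = (rs i p₀.1, rs i p₀.2).1)).image Prod.snd).image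
          (fun y => bl y i)).card : ℕ) : ℝ) ≤ 1 := by exact_mod_cast this
      exact h2.trans hcb
    · apply hc i hi p₀ hp₀
      intro y hy
      simp only [Finset.mem_image, Finset.mem_filter] at hy
      obtain ⟨_, ⟨_, ⟨⟨p, hp, rfl⟩, h1⟩, rfl⟩, rfl⟩ := hy
      refine ⟨p, hp, ?_, ?_⟩
      · have h2 := congrArg (fun z => bl z i) h1
        simp only [bl_rs_ne hi] at h2
        exact h2
      · exact (bl_rs_ne hi p.2).symm

end Pool.Agent.Y716.M
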