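import Pool.Agent.Y716.M.Tail

/-!
# Counting pairs of test vectors in special position, second part
-/

namespace Pool.Agent.Y716.M

open Pool.Agent.Y716.Q

variable {r : ℕ} {n : Fin r → ℕ}

/-- volume of the box -/
noncomputable def VolM (n : Fin r → ℕ) (B : Fin r → ℝ) : ℝ := ∏ i, (3 * B i) ^ (n i + 1)

/-- the number of vectors in a box -/
theorem card_box_M {B : Fin r → ℝ} (hB : ∀ i, 1 ≤ B i) (Y : Finset (Var n → ℤ))
    (hY : ∀ z ∈ Y, ∀ i j, |(z ⟨i, j⟩ : ℝ)| ≤ B i) : (Y.card : ℝ) ≤ VolM n B := by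
  classical
  apply card_le_prod
  intro i
  have := card_box_le (hB i) (Y.image (fun y => bl y i)) (by
    intro y hy j
    rw [Finset.mem_image] at hy
    obtain ⟨z, hz, rfl⟩ := hy
    exact hY z hz i j)
  rwa [Fintype.card_fin] at this

/-- pairs all of whose minors vanish -/
theorem card_P0 {b : Fin r} {B : Fin r → ℝ} {a : ℝ} (hB : ∀ i, 1 ≤ B i) {X : Finset (Var n → ℤ)}
    (hX : ∀ z ∈ X, Tst b B a z) (Ps : Finset ((Var n → ℤ) × (Var n → ℤ)))
    (hPs : ∀ p ∈ Ps, p.1 ∈ X ∧ p.2 ∈ X ∧ ∀ i j j', mn (bl p.1 i) (bl p.2 i) j j' = 0) :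
    (Ps.card : ℝ) ≤ X.card * 2 ^ r := by
  classical
  apply card_pairs_le
  · positivity
  · have : (Ps.image Prod.fst) ⊆ X := by
      intro z hz
      rw [Finset.mem_image] at hz
      obtain ⟨p, hp, rfl⟩ := hz
      exact (hPs p hp).1
    exact_mod_cast Finset.card_le_card this
  · intro z hz
    have h := card_le_prod ((Ps.filter (fun q => q.1 = z)).image Prod.snd) (fun _ => 2) (by
      intro i
      have h1 : (((Ps.filter (fun q => q.1 = z)).image Prod.snd).image (fun y => bl y i)).card ≤ 2 := by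
        rw [Finset.mem_image] at hz
        obtain ⟨p₀, hp₀, rfl⟩ := hz
        have ht := hX _ (hPs p₀ hp₀).1
        apply prop_card (ht.pr i) (by linarith [hB i]) (ht.sz i)
        intro y hy
        simp only [Finset.mem_image, Finset.mem_filter] at hy
        obtain ⟨_, ⟨p, ⟨hp, h1⟩, rfl⟩, rfl⟩ := hy
        refine ⟨(hX _ (hPs p hp).2.1).pr i, ?_⟩
        rw [← h1]
        exact (hPs p hp).2.2 i
      exact_mod_cast h1)
    simpa using h

/-- pairs all of whose minors outside of the main block vanish -/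
theorem card_P1 {b : Fin r} {B : Fin r → ℝ} {a : ℝ} (hB : ∀ i, 1 ≤ B i)
    (Ps : Finset ((Var n → ℤ) × (Var n → ℤ)))
    (hPs : ∀ p ∈ Ps, Tst b B a p.1 ∧ Tst b B a p.2 ∧ ∀ q : MI n b, mnr p.1 p.2 q = 0) :
    (((Ps.image (fun p => (rs b p.1, rs b p.2))).card : ℕ) : ℝ) ≤ (∏ i, cV n b B i) * 2 ^ r := by
  classical
  have h := spairs_card (b := b) (a := a) hB Ps (fun p hp => ⟨(hPs p hp).1, (hPs p hp).2.1⟩)
    (fun _ => 2) (fun _ => by norm_num) (by norm_num) (by
      intro i hi p₀ hp₀ U hU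
      have h1 : U.card ≤ 2 := by
        apply prop_card ((hPs p₀ hp₀).1.pr i) (by linarith [hB i]) ((hPs p₀ hp₀).1.sz i)
        intro y hy
        obtain ⟨p, hp, h1, rfl⟩ := hU y hy
        refine ⟨(hPs p hp).2.1.pr i, ?_⟩
        rw [← h1]
        intro j j'
        exact (hPs p hp).2.2 ⟨⟨i, hi⟩, j, j'⟩
      exact_mod_cast h1)
  simpa using h

/-- pairs all of whose minors outside of the main block are small -/
theorem card_P3a {b : Fin r} {B : Fin r → ℝ} {L a κ : ℝ} (hB : ∀ i, 1 ≤ B i)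
    (hBL : ∀ i, i ≠ b → B i = L) (hL : 1 ≤ L) (hκ : 0 < κ) (hκL : 1 ≤ κ * L)
    (hn : ∀ i, 1 ≤ n i) {i₁ : Fin r} (hi₁ : i₁ ≠ b)
    (Ps : Finset ((Var n → ℤ) × (Var n → ℤ)))
    (hPs : ∀ p ∈ Ps, Tst b B a p.1 ∧ Tst b B a p.2 ∧
      ∀ q : MI n b, |(mnr p.1 p.2 q : ℝ)| ≤ κ * L ^ 2) :
    (((Ps.image (fun p => (rs b p.1, rs b p.2))).card : ℕ) : ℝ) ≤
      (∏ i, cV n b B i) * (3 * κ * ∏ i, cV n b B i) := by
  classical
  have h := spairs_card (b := b) (a := a) hB Ps (fun p hp => ⟨(hPs p hp).1, (hPs p hp).2.1⟩)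
    (fun i => (if i = i₁ then 3 * κ else 1) * cV n b B i) (by
      intro i
      have := cV_nonneg (n := n) (b := b) hB i
      split_ifs
      · positivity
      · linarith) (by
      rw [if_neg (Ne.symm hi₁)]
      have := cV_nonneg (n := n) (b := b) hB b
      linarith) (by
      intro i hi p₀ hp₀ U hU
      have hU1 : ∀ y ∈ U, ∀ j, |(y j : ℝ)| ≤ B i := by
        intro y hy j
        obtain ⟨p, hp, h1, rfl⟩ := hU y hy
        exact ((hPs p hp).2.1.sz i).1 j
      by_cases h1 : i = i₁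
      · subst h1
        rw [if_pos rfl]
        unfold cV
        rw [if_neg hi]
        have h2 := Pool.Agent.Y362.MH.small_minor_count (ι := Fin (n i + 1)) (L := L) (κ := κ)
          (s := bl p₀.1 i) (by rw [Fintype.card_fin]; have := hn i; omega) hL hκ hκL
          (by rw [← hBL i hi]; exact (hPs p₀ hp₀).1.sz i) U (by
            intro y hy
            refine ⟨by rw [← hBL i hi]; exact hU1 y hy, ?_⟩
            obtain ⟨p, hp, h3, rfl⟩ := hU y hy
            rw [← h3]
            intro j j'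
            exact (hPs p hp).2.2 ⟨⟨i, hi⟩, j, j'⟩)
        rw [Fintype.card_fin] at h2
        rw [hBL i hi]
        exact h2
      · rw [if_neg h1, one_mul]
        unfold cV
        rw [if_neg hi]
        have h2 := card_box_le (hB i) U hU1
        rwa [Fintype.card_fin] at h2)
  refine h.trans (le_of_eq ?_)
  rw [Finset.prod_mul_distrib, Finset.prod_ite_eq' Finset.univ i₁]
  simp

/-- pairs with proportional main blocks -/
theorem card_P2 {b : Fin r} {B : Fin r → ℝ} {a : ℝ} (hB : ∀ i, 1 ≤ B i)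
    (Ps : Finset ((Var n → ℤ) × (Var n → ℤ)))
    (hPs : ∀ p ∈ Ps, Tst b B a p.1 ∧ Tst b B a p.2 ∧
      ∀ j j', mn (bl p.1 b) (bl p.2 b) j j' = 0) :
    (Ps.card : ℝ) ≤ VolM n B * (2 * ∏ i, cV n b B i) := by
  classical
  have hc : ∀ i, 1 ≤ cV n b B i := cV_nonneg hB
  apply card_pairs_le
  · have : 0 ≤ ∏ i, cV n b B i := Finset.prod_nonneg (fun i _ => by linarith [hc i])
    linarith
  · apply card_box_M hB
    intro z hz i j
    rw [Finset.mem_image] at hz
    obtain ⟨p, hp, rfl⟩ := hz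
    exact ((hPs p hp).1.sz i).1 j
  · intro z hz
    rw [Finset.mem_image] at hz
    obtain ⟨p₀, hp₀, rfl⟩ := hz
    have h := card_le_prod ((Ps.filter (fun q => q.1 = p₀.1)).image Prod.snd)
      (fun i => (if i = b then 2 else 1) * cV n b B i) (by
      intro i
      by_cases hi : i = b
      · subst hi
        rw [if_pos rfl]
        unfold cV
        rw [if_pos rfl, mul_one]
        have h1 : (((Ps.filter (fun q => q.1 = p₀.1)).image Prod.snd).image
            (fun y => bl y i)).card ≤ 2 := by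
          apply prop_card ((hPs p₀ hp₀).1.pr i) (by linarith [hB i]) ((hPs p₀ hp₀).1.sz i)
          intro y hy
          simp only [Finset.mem_image, Finset.mem_filter] at hy
          obtain ⟨_, ⟨p, ⟨hp, h1⟩, rfl⟩, rfl⟩ := hy
          refine ⟨(hPs p hp).2.1.pr i, ?_⟩
          rw [← h1]
          exact (hPs p hp).2.2
        exact_mod_cast h1
      · rw [if_neg hi, one_mul]
        unfold cV
        rw [if_neg hi]
        have h2 := card_box_le (hB i) (((Ps.filter (fun q => q.1 = p₀.1)).image Prod.snd).image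
            (fun y => bl y i)) (by
          intro y hy j
          simp only [Finset.mem_image, Finset.mem_filter] at hy
          obtain ⟨_, ⟨p, ⟨hp, h1⟩, rfl⟩, rfl⟩ := hy
          exact ((hPs p hp).2.1.sz i).1 j)
        rwa [Fintype.card_fin] at h2)
    refine h.trans (le_of_eq ?_)
    rw [Finset.prod_mul_distrib, Finset.prod_ite_eq' Finset.univ b]
    simp

/-- pairs all of whose minors are divisible by `m` -/
theorem card_P3b {b : Fin r} {B : Fin r → ℝ} {L a Cd : ℝ} (hB : ∀ i, 1 ≤ B i)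
    (hBL : ∀ i, i ≠ b → B i = L) (hL : 1 ≤ L) (hn : ∀ i, 1 ≤ n i) (hCd0 : 0 < Cd)
    (hCd : ∀ i, ∀ (s : Fin (n i + 1) → ℤ), Sz L s → Prim s → ∀ (G : ℕ), 1 ≤ G →
      ∀ U : Finset (Fin (n i + 1) → ℤ),
      (∀ t ∈ U, (∀ j, |(t j : ℝ)| ≤ L) ∧ (∀ j j', (G : ℤ) ∣ mn s t j j') ∧
        ∃ j j', mn s t j j' ≠ 0) → (U.card : ℝ) * G ≤ Cd * L ^ (n i + 1))
    {m : ℕ} (hm : 1 ≤ m) (hmB : (m : ℝ) ≤ B b)
    (Ps : Finset ((Var n → ℤ) × (Var n → ℤ)))
    (hPs : ∀ p ∈ Ps, Tst b B a p.1 ∧ Tst b B a p.2 ∧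
      (∀ i j j', (m : ℤ) ∣ mn (bl p.1 i) (bl p.2 i) j j') ∧ ∃ q : MI n b, mnr p.1 p.2 q ≠ 0) :
    (Ps.card : ℝ) ≤ r * (VolM n B * (VolM n B * Cd / (m : ℝ) ^ (n b + 1))) := by
  classical
  have hmr : (0:ℝ) < m := by exact_mod_cast hm
  have hV0 : 0 ≤ VolM n B := Finset.prod_nonneg (fun i _ => by
    have := hB i
    positivity)
  -- decomposition according to the block
  have hsub : Ps ⊆ (Finset.univ : Finset {i : Fin r // i ≠ b}).biUnion
      (fun i => Ps.filter (fun p => ∃ j j', mn (bl p.1 i.1) (bl p.2 i.1) j j' ≠ 0)) := by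
    intro p hp
    obtain ⟨_, _, _, q, hq⟩ := hPs p hp
    rw [Finset.mem_biUnion]
    exact ⟨q.1, Finset.mem_univ _, Finset.mem_filter.mpr ⟨hp, q.2.1, q.2.2, hq⟩⟩
  have h1 := (Finset.card_le_card hsub).trans Finset.card_biUnion_le
  have h1' := (Nat.cast_le (α := ℝ)).mpr h1
  rw [Nat.cast_sum] at h1'
  refine h1'.trans ?_
  have h2 : ∀ i ∈ (Finset.univ : Finset {i : Fin r // i ≠ b}),
      ((Ps.filter (fun p => ∃ j j', mn (bl p.1 i.1) (bl p.2 i.1) j j' ≠ 0)).card : ℝ) ≤
      VolM n B * (VolM n B * Cd / (m : ℝ) ^ (n b + 1)) := by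
    rintro ⟨i₁, hi₁⟩ _
    apply card_pairs_le
    · positivity
    · apply card_box_M hB
      intro z hz i j
      rw [Finset.mem_image] at hz
      obtain ⟨p, hp, rfl⟩ := hz
      exact ((hPs p (Finset.mem_filter.mp hp).1).1.sz i).1 j
    · intro z hz
      rw [Finset.mem_image] at hz
      obtain ⟨p₀, hp₀', rfl⟩ := hz
      have hp₀ := (Finset.mem_filter.mp hp₀').1
      have h := card_le_prod (((Ps.filter (fun p => ∃ j j', mn (bl p.1 i₁) (bl p.2 i₁) j j' ≠ 0)).filter
          (fun q => q.1 = p₀.1)).image Prod.snd)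
        (fun i => ((if i = b then 1 / (m : ℝ) ^ n b else 1) * (if i = i₁ then Cd / m else 1)) *
          (3 * B i) ^ (n i + 1)) (by
        intro i
        have hU1 : ∀ y ∈ (((Ps.filter (fun p => ∃ j j', mn (bl p.1 i₁) (bl p.2 i₁) j j' ≠ 0)).filter
            (fun q => q.1 = p₀.1)).image Prod.snd).image (fun y => bl y i), ∃ p ∈ Ps,
            p.1 = p₀.1 ∧ bl p.2 i = y ∧ ∃ j j', mn (bl p.1 i₁) (bl p.2 i₁) j j' ≠ 0 := by
          intro y hy
          simp only [Finset.mem_image, Finset.mem_filter] at hy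
          obtain ⟨_, ⟨p, ⟨⟨hp, h2⟩, h1⟩, rfl⟩, rfl⟩ := hy
          exact ⟨p, hp, h1, rfl, h2⟩
        obtain ⟨U, hU⟩ : ∃ U, U = (((Ps.filter (fun p => ∃ j j',
          mn (bl p.1 i₁) (bl p.2 i₁) j j' ≠ 0)).filter (fun q => q.1 = p₀.1)).image
            Prod.snd).image (fun y => bl y i) := ⟨_, rfl⟩
        rw [← hU] at hU1 ⊢
        by_cases hi : i = b
        · subst hi
          rw [if_pos rfl, if_neg (Ne.symm hi₁), mul_one]
          have h2 := Pool.Agent.Y362.MH.dvd_minor_count' (ι := Fin (n i + 1)) (B := B i)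
            (x := bl p₀.1 i) (by rw [Fintype.card_fin]; have := hn i; omega)
            ((hPs p₀ hp₀).1.pr i) (G := m) hm hmB U (by
              intro y hy
              obtain ⟨p, hp, h3, rfl, _⟩ := hU1 y hy
              refine ⟨((hPs p hp).2.1.sz i).1, ?_⟩
              rw [← h3]
              exact (hPs p hp).2.2.1 i)
          rw [Fintype.card_fin, Nat.add_sub_cancel] at h2
          rw [one_div, inv_mul_eq_div, le_div_iff₀ (by positivity)]
          exact h2
        · rw [if_neg hi, one_mul]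
          by_cases h1 : i = i₁
          · subst h1
            rw [if_pos rfl]
            have h2 := hCd i (bl p₀.1 i) (by rw [← hBL i hi]; exact (hPs p₀ hp₀).1.sz i)
              ((hPs p₀ hp₀).1.pr i) m hm U (by
                intro y hy
                obtain ⟨p, hp, h3, rfl, h4⟩ := hU1 y hy
                refine ⟨?_, ?_, ?_⟩
                · rw [← hBL i hi]
                  exact ((hPs p hp).2.1.sz i).1
                · rw [← h3]
                  exact (hPs p hp).2.2.1 i
                · rw [← h3]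
                  exact h4)
            have h3 : (U.card : ℝ) ≤ Cd * L ^ (n i + 1) / m := by
              rw [le_div_iff₀ hmr]; exact h2
            refine h3.trans ?_
            rw [hBL i hi, mul_div_right_comm]
            apply mul_le_mul_of_nonneg_left _ (by positivity)
            exact pow_le_pow_left₀ (by linarith) (by linarith) _
          · rw [if_neg h1, one_mul]
            have h2 := card_box_le (hB i) U (by
              intro y hy j
              obtain ⟨p, hp, h3, rfl, h4⟩ := hU1 y hy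
              exact ((hPs p hp).2.1.sz i).1 j)
            rwa [Fintype.card_fin] at h2)
      refine h.trans (le_of_eq ?_)
      rw [Finset.prod_mul_distrib, Finset.prod_mul_distrib,
        Finset.prod_ite_eq' Finset.univ b, Finset.prod_ite_eq' Finset.univ i₁]
      simp only [Finset.mem_univ, if_true]
      unfold VolM
      rw [pow_succ]
      field_simp
  refine (Finset.sum_le_sum h2).trans ?_
  rw [Finset.sum_const, nsmul_eq_mul]
  apply mul_le_mul_of_nonneg_right _ (by positivity)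
  have h3 : (Finset.univ : Finset {i : Fin r // i ≠ b}).card ≤ r := by
    rw [Finset.card_univ]
    have := Fintype.card_subtype_le (fun i : Fin r => i ≠ b)
    rwa [Fintype.card_fin] at this
  exact_mod_cast h3

end Pool.Agent.Y716.M
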