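import Pool.Agent.Y716.M.ClassThm2
import Pool.Agent.Y448.M11.Exc
import Pool.Agent.Y455.WAM.Wa
import Pool.Agent.Y379.WA.One

/-!
# Weak approximation for random hypersurfaces in products of projective spaces
-/

namespace Pool.Agent.Y716.M

/-- Weak approximation for 100% of the everywhere locally soluble hypersurfaces, all rationally
connected multidegrees with `d i ≥ 2` in dimension at least two. -/
theorem wa_all (k : ℕ) (n d : Fin k → ℕ) (hn : ∀ i, 1 ≤ n i) (hd : ∀ i, 2 ≤ d i)
    (hrc : ∃ i, d i ≤ n i) (hdim : 3 ≤ ∑ i, n i) : WAStmtM n d := by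
  obtain ⟨b, hb⟩ := hrc
  by_cases hk : 2 ≤ k
  · have hcl : ClassStmtM n d := class_theoremM n d b hk hd hn ((hd b).trans hb) hb
    exact Pool.Agent.Y455.WAM.wa_of_exc n d (by omega) hd hn hcl
      (Pool.Agent.Y448.M11.exc_target n d (by omega) hd hcl)
  · have hk1 : k = 1 := by
      have := b.pos
      omega
    subst hk1
    have hb0 : b = 0 := Subsingleton.elim _ _
    subst hb0
    rw [Fin.sum_univ_one] at hdim
    exact Pool.Agent.Y379.WA.wa_one n d hdim (hd 0) hb

end Pool.Agent.Y716.M
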